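import Pool.Agent.Q287.CV.Lem

/-!
# Cover cost: elementary lemmas on `Pr`
-/

set_option autoImplicit false
set_option linter.unusedSectionVars false

namespace Q287.CV

open MeasureTheory Finset
open scoped ENNReal

variable {V : Type} [Fintype V] [DecidableEq V] [MeasurableSpace V] [DiscreteMeasurableSpace V]
  (G : SimpleGraph V) [DecidableRel G.Adj]

theorem Pr_nonneg (x : V) (A : Set (ℕ → V)) : 0 ≤ Pr G x A := measureReal_nonneg

theorem Pr_le_one (x : V) (A : Set (ℕ → V)) : Pr G x A ≤ 1 := measureReal_le_one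

theorem Pr_mono (x : V) {A B : Set (ℕ → V)} (h : A ⊆ B) : Pr G x A ≤ Pr G x B :=
  measureReal_mono h

theorem Pr_union_le (x : V) (A B : Set (ℕ → V)) : Pr G x (A ∪ B) ≤ Pr G x A + Pr G x B :=
  measureReal_union_le A B

theorem Pr_biUnion_le {ι : Type} (x : V) (s : Finset ι) (A : ι → Set (ℕ → V)) :
    Pr G x (⋃ i ∈ s, A i) ≤ ∑ i ∈ s, Pr G x (A i) :=
  measureReal_biUnion_finset_le s A

theorem Lw_eq_ofReal (x : V) (A : Set (ℕ → V)) : Lw G x A = ENNReal.ofReal (Pr G x A) := by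
  unfold Pr
  rw [ofReal_measureReal]

theorem Pr_ae_congr (x : V) {A B : Set (ℕ → V)} (h : ∀ᵐ w ∂(Lw G x), (w ∈ A ↔ w ∈ B)) :
    Pr G x A = Pr G x B := by
  unfold Pr
  apply measureReal_congr
  filter_upwards [h] with w hw
  exact propext hw

end Q287.CV
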