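import Pool.Agent.Q287.CV.Stm
import Pool.Agent.Q287.CV.Prb

/-!
# Cover cost: NEARK, PAIR, PT1, CHAIN, GEN
-/

set_option autoImplicit false
set_option linter.unusedSectionVars false

namespace Q287.CV

open MeasureTheory Finset
open scoped ENNReal

theorem t_CHAIN : S_Chain := by
  intro V _ _ w τ N c k hτ hk0 heq hne j
  let _ : MeasurableSpace V := ⊤
  have _ : DiscreteMeasurableSpace V := ⟨fun _ => trivial⟩
  induction j with
  | zero => intro h; omega
  | succ j ih =>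
    intro _ hjN
    have hj : j < N := by omega
    rcases Nat.eq_zero_or_pos j with h0 | hpos
    · subst h0
      by_cases hc : c 0 = c (0 + 1)
      · have h := heq 0 hj hc
        rw [← hc, hk0]; exact h
      · have h := hne 0 hj hc
        by_contra hlt
        exact h ⟨τ, hτ, hk0, not_lt.mp hlt⟩
    · have h1 := ih hpos hj.le
      by_cases hc : c j = c (j + 1)
      · have h := heq j hj hc
        rw [← hc]; omega
      · obtain ⟨σ, hσ, hwσ, hcσ⟩ := exists_visit w (c j) τ (k j) h1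
        have h := hne j hj hc
        by_contra hlt
        apply h
        refine ⟨σ, hwσ, hcσ, ?_⟩
        have := cnt_mono w (c (j + 1)) hσ.le
        omega

theorem t_NEARK (hRes : S_Res) (hGr : S_Gr) : S_NearK := by
  intro V _ _ G _ hG h2 r K ε δ κ hε hκ hδ hδ4 hD hmax hHit x hx
  obtain ⟨hsym, hself, hgs, -, -, hgf, -, -, -, -⟩ := hRes V G hG h2
  obtain ⟨hg0, -, -, hR0, htri, -, -, -, -, hprod, -, -, -⟩ := hGr V G hG h2
  have hcard : (2 : ℝ) ≤ (Fintype.card V : ℝ) := by exact_mod_cast h2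
  have hn1 : 1 ≤ nn G := by unfold nn; linarith
  have hnpos : 0 < nn G := by linarith
  have hd0 : ∀ v : V, (0 : ℝ) ≤ (G.degree v : ℝ) := fun v => Nat.cast_nonneg _
  -- the average distance to `K`
  have hS : ∑ v, (G.degree v : ℝ) * Rs G v K ≤ 2 * δ * nn G ^ 3 := by
    have h1 : ∑ v, (G.degree v : ℝ) * Rs G v K ≤ 2 * Hit G r K := by
      unfold Hit
      rw [Finset.mul_sum]
      apply Finset.sum_le_sum
      intro v _
      rw [hgf K r v]
      have := hmax v
      nlinarith [hd0 v, hR0 v K]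
    have := hHit K
    linarith
  have hHK : ε * κ * nn G ^ 3 / 2 ≤ Hit G K x := by
    have h1 : DD G * Rs G K x - ∑ v, (G.degree v : ℝ) * Rs G v K ≤ Hit G K x := by
      unfold Hit DD
      rw [Finset.sum_mul, ← Finset.sum_sub_distrib]
      apply Finset.sum_le_sum
      intro v _
      rw [hgf x K v]
      have h3 := htri x K v
      rw [hsym x K, hsym x v] at h3
      have h4 : Rs G K v = Rs G v K := hsym K v
      rw [h4]
      nlinarith [hd0 v]
    have h3 : κ * nn G ≤ Rs G K x := by rw [hsym]; exact hx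
    have hDD : ε * nn G ^ 2 * (κ * nn G) ≤ DD G * Rs G K x :=
      mul_le_mul hD h3 (by positivity) (le_trans (by positivity) hD)
    have hn3 : 0 ≤ nn G ^ 3 := by positivity
    have h5 : 4 * δ * nn G ^ 3 ≤ ε * κ * nn G ^ 3 := mul_le_mul_of_nonneg_right hδ4 hn3
    nlinarith
  have hP : gr G x r K * Hit G K x ≤ Hit G r x * Rs G K x := by
    unfold Hit
    rw [Finset.mul_sum, Finset.sum_mul]
    apply Finset.sum_le_sum
    intro v _
    have := hprod x r K v
    nlinarith [hd0 v]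
  have h6 : gr G x r K * (ε * κ * nn G ^ 3 / 2) ≤ δ * nn G ^ 3 * Rs G K x := by
    calc gr G x r K * (ε * κ * nn G ^ 3 / 2) ≤ gr G x r K * Hit G K x :=
          mul_le_mul_of_nonneg_left hHK (hg0 _ _ _)
      _ ≤ Hit G r x * Rs G K x := hP
      _ ≤ δ * nn G ^ 3 * Rs G K x := mul_le_mul_of_nonneg_right (hHit x) (hR0 _ _)
  have h7 : (gr G x r K * (ε * κ)) * (nn G ^ 3 / 2) ≤ (2 * δ * Rs G K x) * (nn G ^ 3 / 2) := by
    linarith
  have h8 := le_of_mul_le_mul_right h7 (by positivity)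
  rw [div_mul_eq_mul_div, le_div_iff₀ (by positivity)]
  exact h8

theorem t_PAIR (hRes : S_Res) (hGr : S_Gr) : S_Pair := by
  intro V _ _ G _ hG h2 r K x y e hx hy he
  obtain ⟨hsym, hself, hgs, hg1, -, hgf, -, -, -, -⟩ := hRes V G hG h2
  obtain ⟨hg0, -, hRpos, hR0, htri, -, -, -, -, hprod, -, -, -⟩ := hGr V G hG h2
  by_cases hxy : x = y
  · left
    rw [hxy, hg1]
    exact mul_nonneg (by linarith) (hR0 _ _)
  have hR := hRpos x y hxy
  have hsum : gr G y r x + gr G x r y = Rs G x y := by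
    rw [hgf y r x, hgf x r y, hsym y x]; ring
  rcases le_total (Rs G x y / 2) (gr G y r x) with h | h
  · left
    have h1 := hprod y r x K
    -- `gr y r x * gr y x K ≤ gr y r K * Rs x y`
    have h3 : Rs G x y / 2 * gr G y x K ≤ gr G y r K * Rs G x y :=
      (mul_le_mul_of_nonneg_right h (hg0 _ _ _)).trans h1
    have h4 : gr G y x K ≤ 2 * gr G y r K := by
      have h5 : gr G y x K * (Rs G x y / 2) ≤ (2 * gr G y r K) * (Rs G x y / 2) := by linarith
      exact le_of_mul_le_mul_right h5 (by positivity)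
    linarith
  · right
    have h' : Rs G x y / 2 ≤ gr G x r y := by linarith
    have h1 := hprod x r y K
    rw [hsym y x] at h1
    have h3 : Rs G x y / 2 * gr G x y K ≤ gr G x r K * Rs G x y :=
      (mul_le_mul_of_nonneg_right h' (hg0 _ _ _)).trans h1
    have h4 : gr G x y K ≤ 2 * gr G x r K := by
      have h5 : gr G x y K * (Rs G x y / 2) ≤ (2 * gr G x r K) * (Rs G x y / 2) := by linarith
      exact le_of_mul_le_mul_right h5 (by positivity)
    linarith

theorem t_GEN (hRes : S_Res) (hGr : S_Gr) (hLate : S_Late) (hCh1 : S_Ch1) : S_Gen := by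
  intro η hη
  -- `λ` with `64 exp (-λ / 192) ≤ η / 2`
  obtain ⟨lam, hl1, hl2⟩ : ∃ lam : ℝ, 1536 ≤ lam ∧ 64 * Real.exp (-(lam / 192)) ≤ η / 2 := by
    refine ⟨max 1536 (192 * (128 / η)), le_max_left _ _, ?_⟩
    have h1 : 128 / η ≤ max 1536 (192 * (128 / η)) / 192 := by
      rw [le_div_iff₀ (by norm_num)]
      have := le_max_right (1536 : ℝ) (192 * (128 / η))
      linarith
    obtain ⟨y, hy⟩ : ∃ y : ℝ, y = max 1536 (192 * (128 / η)) / 192 := ⟨_, rfl⟩
    rw [← hy] at h1 ⊢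
    have hy0 : 0 < y := lt_of_lt_of_le (by positivity) h1
    have h3 : y + 1 ≤ Real.exp y := Real.add_one_le_exp y
    rw [Real.exp_neg, ← div_eq_mul_inv, div_le_div_iff₀ (Real.exp_pos _) (by norm_num)]
    rw [div_le_iff₀ hη] at h1
    nlinarith
  have hlam : 0 < lam := by linarith
  obtain ⟨n₀, hn₀⟩ := exists_nat_ge (max 1 (128 / (lam ^ 2 * η)))
  refine ⟨2 * lam, by positivity, n₀, ?_⟩
  intro V _ _ _ _ G _ hG h2 hn x T
  obtain ⟨hsym, hself, -, -, -, -, -, -, hHz, -⟩ := hRes V G hG h2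
  obtain ⟨hg0, -, -, hR0, -, -, -, hRn, -, -, hDD, hH0, hHD⟩ := hGr V G hG h2
  have hcard : (2 : ℝ) ≤ (Fintype.card V : ℝ) := by exact_mod_cast h2
  have hn1 : 1 ≤ nn G := by unfold nn; linarith
  have hnpos : 0 < nn G := by linarith
  have hDD0 : 0 ≤ DD G := Finset.sum_nonneg (fun v _ => Nat.cast_nonneg _)
  have hdx : (1 : ℝ) ≤ (G.degree x : ℝ) := by exact_mod_cast deg_pos G hG h2 x
  obtain ⟨k, hk⟩ : ∃ k : ℕ, k = ⌈lam * nn G * (G.degree x : ℝ)⌉₊ := ⟨_, rfl⟩
  have hsub : (NC T : Set (ℕ → V)) ⊆ Late x k T ∪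
      {w | ∃ y, Rs G x y ≤ 1 * nn G ∧ w ∈ Unv x k y} := by
    rintro w ⟨y, hy⟩
    by_cases hL : w ∈ Late x k T
    · exact Or.inl hL
    have hL' : k < cnt w x (T + 1) := by simpa [Late] using hL
    obtain ⟨t, htT, hwt, hct⟩ := exists_visit w x (T + 1) k hL'
    exact Or.inr ⟨y, by rw [one_mul]; exact hRn x y, t, hwt, hct, fun s hs => hy s (by omega)⟩
  have h1 := Pr_mono G x hsub
  have h3 := Pr_union_le G x (Late x k T) {w | ∃ y, Rs G x y ≤ 1 * nn G ∧ w ∈ Unv x k y}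
  have h4 := hCh1 V G hG h2 x x 1 lam one_pos le_rfl (by linarith) (by
    have h5 : (1536 : ℝ) ^ 3 ≤ lam ^ 3 := pow_le_pow_left₀ (by norm_num) hl1 3
    have h6 : 1 ≤ nn G ^ 2 := one_le_pow₀ hn1
    nlinarith)
  rw [← hk] at h4
  have h5 : (nn G + 1) * Real.exp (-(lam * nn G / 4)) ≤ η / 2 := by
    have h6 : 128 / (lam ^ 2 * η) ≤ nn G := (le_max_right _ _).trans (hn₀.trans hn)
    rw [div_le_iff₀ (by positivity)] at h6
    obtain ⟨y, hy⟩ : ∃ y : ℝ, y = lam * nn G / 4 := ⟨_, rfl⟩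
    have hy0 : 0 < y := by rw [hy]; positivity
    have h7 := Real.quadratic_le_exp_of_nonneg hy0.le
    have h8 : y ^ 2 / 2 ≤ Real.exp y := by nlinarith
    rw [← hy, Real.exp_neg, ← div_eq_mul_inv, div_le_div_iff₀ (Real.exp_pos _) (by norm_num)]
    have h9 : y ^ 2 / 2 = lam ^ 2 * nn G * nn G / 32 := by rw [hy]; ring
    have h10 : η * (y ^ 2 / 2) ≤ η * Real.exp y := mul_le_mul_of_nonneg_left h8 hη.le
    have h11 : 128 * nn G ≤ nn G * (lam ^ 2 * η) * nn G := by
      calc 128 * nn G ≤ (nn G * (lam ^ 2 * η)) * nn G := mul_le_mul_of_nonneg_right h6 hnpos.le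
        _ = _ := by ring
    have h12 : η * (y ^ 2 / 2) = nn G * (lam ^ 2 * η) * nn G / 32 := by rw [h9]; ring
    linarith
  have h6 : Pr G x (Late x k T) ≤ 2 * lam * DD G * nn G / ((T : ℝ) + 1) := by
    rw [le_div_iff₀ (by positivity)]
    refine (hLate V G hG h2 x x k T).trans ?_
    rw [hHz, zero_add]
    have h7 : (k : ℝ) ≤ 2 * (lam * nn G) * (G.degree x : ℝ) := by
      have h8 := (Nat.ceil_lt_add_one
        (show 0 ≤ lam * nn G * (G.degree x : ℝ) by positivity)).le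
      rw [← hk] at h8
      have h9 : 1 ≤ lam * nn G := by nlinarith
      nlinarith
    calc (k : ℝ) * (DD G / (G.degree x : ℝ))
        ≤ (2 * (lam * nn G) * (G.degree x : ℝ)) * (DD G / (G.degree x : ℝ)) :=
          mul_le_mul_of_nonneg_right h7 (by positivity)
      _ = 2 * lam * DD G * nn G := by field_simp
  have h7 : 64 / 1 * Real.exp (-(lam / (192 * 1))) ≤ η / 2 := by
    rw [div_one, mul_one]; exact hl2
  linarith

theorem t_PT1 (hRes : S_Res) (hGr : S_Gr) (hBall : S_Ball) : S_Pt1 := by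
  intro V _ _ G _ hG h2 r x₀ c hc0 hc4 hx
  obtain ⟨hsym, hself, -, -, -, -, -, -, -, hHH⟩ := hRes V G hG h2
  obtain ⟨hg0, -, -, hR0, -, -, -, -, -, -, hDD, hH0, hHD⟩ := hGr V G hG h2
  have hcard : (2 : ℝ) ≤ (Fintype.card V : ℝ) := by exact_mod_cast h2
  have hn1 : 1 ≤ nn G := by unfold nn; linarith
  have hnpos : 0 < nn G := by linarith
  have hDD0 : 0 ≤ DD G := Finset.sum_nonneg (fun v _ => Nat.cast_nonneg _)
  have hcn : (Fintype.card V : ℝ) = nn G + 1 := by unfold nn; ring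
  obtain ⟨S, hS1, hS2⟩ := hBall V G hG h2 x₀ (c * nn G / 4) (by positivity) (by
    rw [hcn]; nlinarith)
  have hlow : ∀ y ∈ S, c * nn G ^ 3 / 2 ≤ Hit G r y := by
    intro y hy
    have h1 := hHH r x₀ y
    -- `Hit r y + Hit y x₀ - Hit r x₀ = DD * gr y r x₀ ≥ 0`
    have h3 : Hit G y x₀ ≤ c * nn G ^ 3 / 2 := by
      calc Hit G y x₀ ≤ DD G * Rs G y x₀ := hHD y x₀
        _ ≤ 2 * nn G ^ 2 * (c * nn G / 4) :=
            mul_le_mul hDD (hS1 y hy) (hR0 _ _) (by positivity)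
        _ = c * nn G ^ 3 / 2 := by ring
    have h4 := hHH r y x₀
    nlinarith [mul_nonneg hDD0 (hg0 y r x₀)]
  calc c ^ 2 * nn G ^ 4 / 8 = (c * nn G / 4) * (c * nn G ^ 3 / 2) := by ring
    _ ≤ (S.card : ℝ) * (c * nn G ^ 3 / 2) := mul_le_mul_of_nonneg_right hS2 (by positivity)
    _ = ∑ y ∈ S, c * nn G ^ 3 / 2 := by rw [Finset.sum_const, nsmul_eq_mul]
    _ ≤ ∑ y ∈ S, Hit G r y := Finset.sum_le_sum hlow
    _ ≤ ∑ y : V, Hit G r y :=
        Finset.sum_le_sum_of_subset_of_nonneg (Finset.subset_univ _) (fun y _ _ => hH0 r y)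

end Q287.CV
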