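import Mathlib

/-!
# Cover cost and cover time of graphs: definitions

Simple random walk on a finite connected graph: cover time `CT`, cover cost `cc`, the law `Lw` of
the path, effective resistances `Rs`, Green functions `gr`, expected hitting times `Hit`.
-/

set_option autoImplicit false

namespace Q287.CV

open MeasureTheory Finset
open scoped ENNReal

section Cover

variable {V : Type} [Fintype V] [DecidableEq V] (G : SimpleGraph V) [DecidableRel G.Adj]

/-- The expectation of `F` of the set of visited vertices after `t` more steps of simple random walk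
which is at `x` now and has visited the set `S` already. -/
noncomputable def ex : ℕ → (Finset V → ℝ) → Finset V → V → ℝ
  | 0, F, S, _ => F S
  | t + 1, F, S, x => (∑ y ∈ G.neighborFinset x, ex t F (insert y S) y) / (G.degree x : ℝ)

/-- The expected number of steps until all vertices are visited, from `r`: the sum over `t ≥ 0` of
the probability that some vertex is not visited after `t` steps. -/
noncomputable def CT (r : V) : ℝ≥0∞ :=
  ∑' t : ℕ, ENNReal.ofReal (ex G t (fun S => if S = univ then 0 else 1) {r} r)

/-- The cover cost: the expected total cost of all steps, if a step taken when exactly `k` vertices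
other than `r` have been visited costs `1 - k / n`, `n` = number of vertices minus `1`. -/
noncomputable def cc (r : V) : ℝ≥0∞ :=
  ∑' t : ℕ, ENNReal.ofReal (ex G t
    (fun S => 1 - ((S.erase r).card : ℝ) / ((Fintype.card V : ℝ) - 1)) {r} r)

end Cover

section Resistance

variable {V : Type} [Fintype V] [DecidableEq V] (G : SimpleGraph V) [DecidableRel G.Adj]

/-- number of vertices minus one -/
noncomputable def nn (_G : SimpleGraph V) : ℝ := (Fintype.card V : ℝ) - 1

/-- sum of the degrees -/
noncomputable def DD : ℝ := ∑ v, (G.degree v : ℝ)

/-- inverse of the Laplace matrix plus the all ones matrix -/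
noncomputable def QQ : Matrix V V ℝ := (G.lapMatrix ℝ + Matrix.of (fun _ _ => (1 : ℝ)))⁻¹

/-- effective resistance -/
noncomputable def Rs (x y : V) : ℝ := QQ G x x - QQ G x y - QQ G y x + QQ G y y

/-- Green function of the walk killed at `z`: `gr z x v` is the expected number of visits to `v` from
`x` before hitting `z`, divided by the degree of `v` -/
noncomputable def gr (z x v : V) : ℝ := QQ G x v - QQ G x z - QQ G z v + QQ G z z

/-- expected hitting time of `z` from `x` -/
noncomputable def Hit (x z : V) : ℝ := ∑ v, (G.degree v : ℝ) * gr G z x v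

end Resistance

section Paths

variable {V : Type} [DecidableEq V]

/-- number of visits to `v` at times `0, …, t - 1` -/
def cnt (w : ℕ → V) (v : V) (t : ℕ) : ℕ := ((range t).filter (fun s => w s = v)).card

/-- `t` is the first time at which the path is at `z` -/
def Fst (w : ℕ → V) (z : V) (t : ℕ) : Prop := w t = z ∧ ∀ s < t, w s ≠ z

/-- shift of a path -/
def sh (t : ℕ) (w : ℕ → V) : ℕ → V := fun s => w (t + s)

/-- the set `D` of paths is determined by the positions up to time `t` -/
def Det (t : ℕ) (D : Set (ℕ → V)) : Prop :=
  ∀ w w' : ℕ → V, (∀ s ≤ t, w s = w' s) → w ∈ D → w' ∈ D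

/-- `v` is hit, before `z` -/
def Hb (v z : V) : Set (ℕ → V) := {w | ∃ t, w t = v ∧ ∀ s ≤ t, w s ≠ z}

/-- `K` is hit, and there are at most `k` visits to `v` before -/
def Few (v K : V) (k : ℕ) : Set (ℕ → V) := {w | ∃ t, Fst w K t ∧ cnt w v t ≤ k}

/-- at the time of visit number `k + 1` to `u` there were at most `a` visits to `y` -/
def Low (u : V) (k : ℕ) (y : V) (a : ℕ) : Set (ℕ → V) :=
  {w | ∃ t, w t = u ∧ cnt w u t = k ∧ cnt w y t ≤ a}

/-- at the time of visit number `k + 1` to `u` the vertex `y` is not visited -/
def Unv (u : V) (k : ℕ) (y : V) : Set (ℕ → V) :=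
  {w | ∃ t, w t = u ∧ cnt w u t = k ∧ ∀ s ≤ t, w s ≠ y}

/-- some vertex is not visited up to time `t` -/
def NC (t : ℕ) : Set (ℕ → V) := {w | ∃ y, ∀ s ≤ t, w s ≠ y}

/-- at most `k` visits to `K` up to time `T` (included) -/
def Late (K : V) (k T : ℕ) : Set (ℕ → V) := {w | cnt w K (T + 1) ≤ k}

end Paths

section Law

variable {V : Type} [Fintype V] [DecidableEq V] [MeasurableSpace V] [DiscreteMeasurableSpace V]
  (G : SimpleGraph V) [DecidableRel G.Adj]

/-- law of one step from `x` -/
noncomputable def st (x : V) : Measure V :=
  if G.degree x = 0 then Measure.dirac x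
  else ∑ y ∈ G.neighborFinset x, ((G.degree x : ℝ≥0∞))⁻¹ • Measure.dirac y

instance st_prob (x : V) : IsProbabilityMeasure (st G x) := by
  unfold st
  split_ifs with h
  · infer_instance
  · constructor
    simp only [Measure.coe_finset_sum, Measure.coe_smul, Finset.sum_apply, Pi.smul_apply,
      measure_univ, smul_eq_mul, mul_one, sum_const, G.card_neighborFinset_eq_degree]
    rw [nsmul_eq_mul]
    exact ENNReal.mul_inv_cancel (by exact_mod_cast h) (ENNReal.natCast_ne_top _)

/-- position after `t` steps, if the step at time `s` is made with the map `ω s` -/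
def walk (x : V) (ω : ℕ → V → V) : ℕ → V
  | 0 => x
  | t + 1 => ω t (walk x ω t)

/-- law of the independent random maps -/
noncomputable def Pm : Measure (ℕ → V → V) :=
  Measure.infinitePi (fun _ : ℕ => Measure.pi (fun x => st G x))

/-- law of the path of the walk from `x` -/
noncomputable def Lw (x : V) : Measure (ℕ → V) := (Pm G).map (fun ω => walk x ω)

/-- probability for the walk from `x`, as a real number -/
noncomputable def Pr (x : V) (A : Set (ℕ → V)) : ℝ := (Lw G x).real A

lemma measurable_walk (x : V) : Measurable (fun ω : ℕ → V → V => walk x ω) := by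
  rw [measurable_pi_iff]
  intro t
  induction t with
  | zero => exact measurable_const
  | succ t ih =>
    have h1 : Measurable (fun ω : ℕ → V → V => ω t) := measurable_pi_apply t
    have h2 : Measurable (fun p : (V → V) × V => p.1 p.2) := by
      apply measurable_from_prod_countable_left
      intro v
      exact measurable_pi_apply v
    exact h2.comp (h1.prodMk ih)

instance Pm_prob : IsProbabilityMeasure (Pm G) := by
  unfold Pm; infer_instance

instance Lw_prob (x : V) : IsProbabilityMeasure (Lw G x) := by
  unfold Lw
  exact Measure.isProbabilityMeasure_map (measurable_walk x).aemeasurable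

end Law

end Q287.CV
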