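import Pool.Agent.Q287.CV.Stm
import Pool.Agent.Q287.CV.Prb

/-!
# Cover cost: CH1
-/

set_option autoImplicit false
set_option linter.unusedSectionVars false

namespace Q287.CV

open MeasureTheory Finset
open scoped ENNReal

namespace Ch1

/-- the threshold at level `j` -/
noncomputable def kk {V : Type} [Fintype V] (G : SimpleGraph V) [DecidableRel G.Adj] (m : ℝ)
    (j : ℕ) (v : V) : ℕ :=
  ⌈(1 / 2 + (1 / 2 : ℝ) ^ (j + 1)) ^ 2 * m * (G.degree v : ℝ)⌉₊

section Aux

variable {V : Type} [Fintype V] [DecidableEq V] (G : SimpleGraph V) [DecidableRel G.Adj]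

lemma kk_zero (m : ℝ) (v : V) : kk G m 0 v = ⌈m * (G.degree v : ℝ)⌉₊ := by
  unfold kk
  norm_num

lemma kk_ge (m : ℝ) (j : ℕ) (v : V) (hd : 0 < G.degree v) (hm : 0 ≤ m) :
    m / 4 ≤ (kk G m j v : ℝ) / (G.degree v : ℝ) := by
  have hd' : (0 : ℝ) < (G.degree v : ℝ) := by exact_mod_cast hd
  rw [le_div_iff₀ hd']
  unfold kk
  refine le_trans ?_ (Nat.le_ceil _)
  have h1 : (0 : ℝ) ≤ (1 / 2 : ℝ) ^ (j + 1) := by positivity
  have h2 : (1 / 4 : ℝ) ≤ (1 / 2 + (1 / 2 : ℝ) ^ (j + 1)) ^ 2 := by nlinarith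
  calc m / 4 * (G.degree v : ℝ) = 1 / 4 * (m * (G.degree v : ℝ)) := by ring
    _ ≤ (1 / 2 + (1 / 2 : ℝ) ^ (j + 1)) ^ 2 * (m * (G.degree v : ℝ)) :=
        mul_le_mul_of_nonneg_right h2 (by positivity)
    _ = _ := by ring

lemma kk_pos (m : ℝ) (j : ℕ) (v : V) (hd : 0 < G.degree v) (hm : 0 < m) :
    0 < kk G m j v := by
  have hd' : (0 : ℝ) < (G.degree v : ℝ) := by exact_mod_cast hd
  unfold kk
  exact Nat.ceil_pos.mpr (by positivity)

lemma kk_lt (m : ℝ) (j : ℕ) (v : V) (hd : 0 < G.degree v) (hm : (2 : ℝ) ^ (j + 3) ≤ m) :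
    kk G m (j + 1) v < kk G m j v := by
  have hd' : (1 : ℝ) ≤ (G.degree v : ℝ) := by exact_mod_cast hd
  have hm0 : 0 < m := lt_of_lt_of_le (by positivity) hm
  unfold kk
  obtain ⟨a, ha⟩ : ∃ a : ℝ, a = (1 / 2 : ℝ) ^ (j + 2) := ⟨_, rfl⟩
  have ha0 : 0 < a := by rw [ha]; positivity
  have h1 : (1 / 2 : ℝ) ^ (j + 1) = 2 * a := by rw [ha, pow_succ]; ring
  have h2 : (1 / 2 : ℝ) ^ (j + 1 + 1) = a := by rw [ha]
  rw [h1, h2]
  have h3 : a * m ≥ 2 := by
    have h4 : a * 2 ^ (j + 3) = 2 := by
      rw [ha, pow_succ (2 : ℝ) (j + 2), ← mul_assoc, ← mul_pow]; norm_num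
    calc a * m ≥ a * 2 ^ (j + 3) := mul_le_mul_of_nonneg_left hm ha0.le
      _ = 2 := h4
  have h5 : (1 / 2 + a) ^ 2 * m * (G.degree v : ℝ) + 1 ≤
      (1 / 2 + 2 * a) ^ 2 * m * (G.degree v : ℝ) := by
    have h6 : (1 / 2 + 2 * a) ^ 2 = (1 / 2 + a) ^ 2 + a + 3 * a ^ 2 := by ring
    rw [h6]
    have h7 : 1 ≤ a * m * (G.degree v : ℝ) := by nlinarith
    have h8 : 0 ≤ 3 * a ^ 2 * m * (G.degree v : ℝ) := by positivity
    nlinarith
  have h9 := Nat.ceil_lt_add_one (show 0 ≤ (1 / 2 + a) ^ 2 * m * (G.degree v : ℝ) by positivity)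
  have h10 := Nat.le_ceil ((1 / 2 + 2 * a) ^ 2 * m * (G.degree v : ℝ))
  exact_mod_cast lt_of_lt_of_le h9 (h5.trans h10)

/-- the descending chain of parents -/
def dn {V : Type} (par : ℕ → V → V) (y : V) (J : ℕ) : ℕ → V
  | 0 => y
  | i + 1 => par (J - i) (dn par y J i)

lemma exists_chain {V : Type} (par : ℕ → V → V) (u y : V) (J : ℕ) :
    ∃ c : ℕ → V, c 0 = u ∧ c (J + 1) = y ∧ ∀ j, 1 ≤ j → j ≤ J → c j = par j (c (j + 1)) := by
  refine ⟨fun j => if j = 0 then u else dn par y J (J + 1 - j), ?_, ?_, ?_⟩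
  · simp
  · simp [dn]
  · intro j h1 h2
    have h3 : J + 1 - j = (J - j) + 1 := by omega
    have h4 : J + 1 - (j + 1) = J - j := by omega
    have h5 : J - (J - j) = j := by omega
    simp only [show j ≠ 0 by omega, if_false, show j + 1 ≠ 0 by omega, h3, h4, dn, h5]

end Aux

end Ch1

open Ch1 in
theorem t_CH1 (hRes : S_Res) (hGr : S_Gr) (hExc2 : S_Exc2) (hNet : S_Net) (hChain : S_Chain)
    (hEdge : S_Edge) (hChs : S_Chs) : S_Ch1 := by
  intro V _ _ _ _ G _ hG h2 x u D lam hD0 hD1 hDl hDn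
  obtain ⟨hsym, hself, -, -, -, -, -, -, -, -⟩ := hRes V G hG h2
  obtain ⟨-, -, hRpos, hR0, htri, -, -, hRn, -, -, -, -, -⟩ := hGr V G hG h2
  have hcard : (2 : ℝ) ≤ (Fintype.card V : ℝ) := by exact_mod_cast h2
  have hcn : (Fintype.card V : ℝ) = nn G + 1 := by unfold nn; ring
  have hn1 : 1 ≤ nn G := by unfold nn; linarith
  have hnpos : 0 < nn G := by linarith
  have hlam : 0 < lam := by linarith
  have hdeg : ∀ v : V, 0 < G.degree v := deg_pos G hG h2
  have hdeg' : ∀ v : V, (0 : ℝ) < (G.degree v : ℝ) := fun v => by exact_mod_cast hdeg v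
  obtain ⟨m, hm⟩ : ∃ m : ℝ, m = lam * nn G := ⟨_, rfl⟩
  have hm0 : 0 < m := by rw [hm]; positivity
  obtain ⟨s, hs⟩ : ∃ s : ℕ → ℝ, s = fun j => D * nn G / 8 ^ j := ⟨_, rfl⟩
  have hs0 : ∀ j, 0 < s j := fun j => by rw [hs]; positivity
  have hsle : ∀ j, s j ≤ (Fintype.card V : ℝ) := by
    intro j
    rw [hs]
    have h1 : D * nn G / 8 ^ j ≤ D * nn G :=
      div_le_self (by positivity) (one_le_pow₀ (by norm_num))
    have h3 : D * nn G ≤ nn G := by nlinarith
    simp only; linarith
  have hexJ : ∃ J, s J ≤ 1 := by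
    obtain ⟨J, hJ⟩ := pow_unbounded_of_one_lt (D * nn G) (show (1 : ℝ) < 8 by norm_num)
    refine ⟨J, ?_⟩
    rw [hs]
    simp only
    rw [div_le_one (by positivity)]; exact hJ.le
  classical
  obtain ⟨J, hJdef⟩ : ∃ J, J = Nat.find hexJ := ⟨_, rfl⟩
  have hJ1 : s J ≤ 1 := by rw [hJdef]; exact Nat.find_spec hexJ
  have hJ2 : ∀ j < J, 1 < s j := by
    intro j hj; rw [hJdef] at hj; exact not_le.mp (Nat.find_min hexJ hj)
  have hmJ : ∀ j < J, (2 : ℝ) ^ (j + 3) ≤ m := by
    intro j hj
    have h3 := hJ2 j hj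
    rw [hs] at h3
    simp only at h3
    rw [one_lt_div (by positivity)] at h3
    by_contra hlt
    push Not at hlt
    have h4 : m ^ 3 < ((2 : ℝ) ^ (j + 3)) ^ 3 := pow_lt_pow_left₀ hlt hm0.le (by norm_num)
    have h5 : ((2 : ℝ) ^ (j + 3)) ^ 3 = 512 * 8 ^ j := by
      rw [← pow_mul, show (j + 3) * 3 = 3 * j + 9 by ring, pow_add, pow_mul]; norm_num; ring
    have h6 : 4096 * (D * nn G) ≤ m ^ 3 := by
      rw [hm]
      calc 4096 * (D * nn G) = 4096 * D * nn G := by ring
        _ ≤ lam ^ 3 * nn G ^ 2 * nn G := mul_le_mul_of_nonneg_right hDn hnpos.le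
        _ = (lam * nn G) ^ 3 := by ring
    rw [h5] at h4
    nlinarith
  -- the bound for the last step
  have hlast : ∀ (a y : V) (j : ℕ), a ≠ y → Rs G a y ≤ 1 →
      Pr G x (Low a (kk G m j a) y 0) ≤ Real.exp (-(lam * nn G / 4)) := by
    intro a y j hay hR
    have h := hExc2 V G hG h2 a y hay x (kk G m j a) 0 (by
      simp only [Nat.cast_zero, zero_div]; positivity)
    refine h.trans (Real.exp_le_exp.mpr ?_)
    have hk := kk_ge G m j a (hdeg a) hm0.le
    simp only [Nat.cast_zero, zero_div, Real.sqrt_zero, sub_zero]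
    rw [Real.sq_sqrt (by positivity)]
    have h5 : m / 4 ≤ (kk G m j a : ℝ) / (G.degree a : ℝ) / Rs G a y := by
      rw [le_div_iff₀ (hRpos a y hay)]
      calc m / 4 * Rs G a y ≤ m / 4 * 1 := mul_le_mul_of_nonneg_left hR (by positivity)
        _ ≤ _ := by rw [mul_one]; exact hk
    rw [hm] at h5 ⊢
    linarith
  have hnb : (Fintype.card V : ℝ) * Real.exp (-(lam * nn G / 4)) =
      (nn G + 1) * Real.exp (-(lam * nn G / 4)) := by rw [hcn]
  obtain ⟨E, hE⟩ : ∃ E : Set (ℕ → V), E = {w | ∃ y, Rs G u y ≤ D * nn G ∧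
      w ∈ Unv u ⌈lam * nn G * (G.degree u : ℝ)⌉₊ y} := ⟨_, rfl⟩
  rw [← hE]
  have hk0 : kk G m 0 u = ⌈lam * nn G * (G.degree u : ℝ)⌉₊ := by rw [kk_zero, hm]
  rw [← hk0] at hE
  rcases Nat.eq_zero_or_pos J with hJ0 | hJpos
  · -- `D n ≤ 1`
    have hs1 : D * nn G ≤ 1 := by
      have := hJ1; rw [hJ0, hs] at this; simpa using this
    have hsub : E ⊆ ⋃ y ∈ (univ : Finset V).filter (fun y => y ≠ u ∧ Rs G u y ≤ 1),
        Low u (kk G m 0 u) y 0 := by
      rw [hE]
      rintro w ⟨y, hy, t, hwt, hct, hav⟩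
      have hyu : y ≠ u := by
        rintro rfl; exact hav t le_rfl hwt
      simp only [Set.mem_iUnion]
      refine ⟨y, by simp [hyu, hy.trans hs1], t, hwt, hct, ?_⟩
      have : cnt w y t = 0 := by
        unfold cnt
        rw [Finset.card_eq_zero, Finset.filter_eq_empty_iff]
        intro s' hs'
        exact hav s' (Finset.mem_range.mp hs').le
      omega
    refine (Pr_mono G x hsub).trans ((Pr_biUnion_le G x _ _).trans ?_)
    refine (Finset.sum_le_sum (fun y hy => ?_) (g := fun _ =>
      Real.exp (-(lam * nn G / 4)))).trans ?_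
    · simp only [Finset.mem_filter, mem_univ, true_and] at hy
      exact hlast u y 0 (Ne.symm hy.1) hy.2
    · rw [Finset.sum_const, nsmul_eq_mul]
      have h7 : (((univ : Finset V).filter (fun y => y ≠ u ∧ Rs G u y ≤ 1)).card : ℝ) ≤
          (Fintype.card V : ℝ) := by
        exact_mod_cast (Finset.card_le_univ _)
      calc _ ≤ (Fintype.card V : ℝ) * Real.exp (-(lam * nn G / 4)) :=
            mul_le_mul_of_nonneg_right h7 (Real.exp_pos _).le
        _ = (nn G + 1) * Real.exp (-(lam * nn G / 4)) := hnb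
        _ ≤ _ := by
            have : 0 ≤ 64 / D * Real.exp (-(lam / (192 * D))) := by positivity
            linarith
  · -- nets
    have hnets := fun j => hNet V G hG h2 (s j) (hs0 j) (hsle j)
    choose S hS1 hS2 using hnets
    choose par hparS hparR using hS1
    have hcardS : ∀ j, ((S j).card : ℝ) ≤ 4 * 8 ^ j / D := by
      intro j
      have h := hS2 j
      rw [hs] at h
      simp only at h
      rw [le_div_iff₀ hD0]
      have h8 : ((S j).card : ℝ) * (D * nn G / 8 ^ j / 2) ≤ 2 * nn G := by linarith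
      have h9 : ((S j).card : ℝ) * D * nn G ≤ 4 * 8 ^ j * nn G := by
        have h10 : ((S j).card : ℝ) * (D * nn G / 8 ^ j / 2) * (2 * 8 ^ j) ≤
            2 * nn G * (2 * 8 ^ j) := mul_le_mul_of_nonneg_right h8 (by positivity)
        have h11 : ((S j).card : ℝ) * (D * nn G / 8 ^ j / 2) * (2 * 8 ^ j) =
            ((S j).card : ℝ) * D * nn G := by field_simp
        rw [h11] at h10; linarith
      exact le_of_mul_le_mul_right h9 hnpos
    obtain ⟨SA, hSA⟩ : ∃ SA : Finset V, SA = (S 1).filter (fun c => c ≠ u ∧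
      Rs G u c ≤ 2 * D * nn G) := ⟨_, rfl⟩
    obtain ⟨SB, hSB⟩ : ∃ SB : ℕ → Finset V, SB = fun j => (S (j + 1)).filter
      (fun c => par j c ≠ c) := ⟨_, rfl⟩
    obtain ⟨SC, hSC⟩ : ∃ SC : Finset V, SC = (univ : Finset V).filter
      (fun c => par J c ≠ c) := ⟨_, rfl⟩
    have hsub : E ⊆ (⋃ c ∈ SA, Low u (kk G m 0 u) c (kk G m 1 c)) ∪
        ((⋃ j ∈ Finset.Ico 1 J, ⋃ c ∈ SB j,
          Low (par j c) (kk G m j (par j c)) c (kk G m (j + 1) c)) ∪
        (⋃ c ∈ SC, Low (par J c) (kk G m J (par J c)) c 0)) := by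
      rw [hE]
      rintro w ⟨y, hy, τ, hwt, hct, hav⟩
      by_contra hnot
      simp only [Set.mem_union, Set.mem_iUnion, not_or, not_exists] at hnot
      obtain ⟨hnA, hnB, hnC⟩ := hnot
      obtain ⟨c, hc0, hcJ, hcp⟩ := exists_chain par u y J
      -- resistance between the chain points and `y`
      have hdist : ∀ i, i ≤ J → Rs G (c (J + 1 - i)) y ≤ 8 / 7 * s (J + 1 - i) := by
        intro i
        induction i with
        | zero =>
          intro _
          rw [Nat.sub_zero, hcJ, hself]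
          have := hs0 (J + 1); positivity
        | succ i ih =>
          intro hi
          have h3 := ih (by omega)
          have h4 : J + 1 - (i + 1) = J - i := by omega
          have h5 : J + 1 - i = J - i + 1 := by omega
          rw [h4]
          rw [h5] at h3
          have h6 := hcp (J - i) (by omega) (by omega)
          have h7 : Rs G (c (J - i)) (c (J - i + 1)) ≤ s (J - i) := by
            rw [hsym, h6]; exact hparR (J - i) (c (J - i + 1))
          have h8 : s (J - i + 1) = s (J - i) / 8 := by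
            rw [hs]; simp only; rw [pow_succ]; field_simp
          have h9 := htri (c (J - i)) y (c (J - i + 1))
          rw [h8] at h3
          linarith
      have hd1 : Rs G u (c 1) ≤ 2 * D * nn G := by
        have h3 := hdist J le_rfl
        have h4 : J + 1 - J = 1 := by omega
        rw [h4, hs] at h3
        simp only at h3
        have h5 := htri u (c 1) y
        rw [hsym y (c 1)] at h5
        have h6 : 8 / 7 * (D * nn G / 8 ^ 1) ≤ D * nn G := by
          have : 0 < D * nn G := by positivity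
          norm_num; linarith
        linarith
      obtain ⟨k, hk⟩ : ∃ k : ℕ → ℕ, k = fun j => if j = J + 1 then 0 else kk G m j (c j) :=
        ⟨_, rfl⟩
      have hkj : ∀ j, j ≤ J → k j = kk G m j (c j) := by
        intro j hj; rw [hk]; simp only; rw [if_neg (by omega)]
      have hkJ : k (J + 1) = 0 := by rw [hk]; simp
      have hfinal := hChain V w τ (J + 1) c k (by rw [hc0]; exact hwt)
        (by rw [hkj 0 (by omega), hc0]; exact hct)
        (by
          intro j hj heq
          rcases Nat.lt_or_ge j J with hjJ | hjJ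
          · rw [hkj j hjJ.le, hkj (j + 1) (by omega), ← heq]
            exact kk_lt G m j (c j) (hdeg _) (hmJ j hjJ)
          · have : j = J := by omega
            subst this
            rw [hkJ, hkj j le_rfl]
            exact kk_pos G m j (c j) (hdeg _) hm0)
        (by
          intro j hj hne
          rcases Nat.lt_or_ge j J with hjJ | hjJ
          · rw [hkj j hjJ.le, hkj (j + 1) (by omega)]
            rcases Nat.eq_zero_or_pos j with hj0 | hjp
            · subst hj0
              rw [hc0] at hne ⊢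
              refine hnA (c 1) ?_
              rw [hSA]
              simp only [Finset.mem_filter]
              refine ⟨?_, Ne.symm hne, hd1⟩
              rw [hcp 1 le_rfl (by omega)]
              exact hparS 1 _
            · have h3 := hcp j hjp hjJ.le
              rw [h3] at hne ⊢
              refine hnB j (Finset.mem_Ico.mpr ⟨hjp, hjJ⟩) (c (j + 1)) ?_
              rw [hSB]
              simp only [Finset.mem_filter]
              refine ⟨?_, hne⟩
              rw [hcp (j + 1) (by omega) (by omega)]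
              exact hparS (j + 1) _
          · have hjJ' : j = J := by omega
            subst hjJ'
            rw [hkj j le_rfl, hkJ]
            have h3 := hcp j hJpos le_rfl
            rw [hcJ] at h3 hne ⊢
            rw [h3] at hne ⊢
            refine hnC y ?_
            rw [hSC]
            simp only [Finset.mem_filter, mem_univ, true_and]
            exact hne)
        (J + 1) (by omega) le_rfl
      rw [hkJ, hcJ] at hfinal
      obtain ⟨s', hs', hws', -⟩ := exists_visit w y τ 0 hfinal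
      exact hav s' hs'.le hws'
    -- probabilities
    have hA : Pr G x (⋃ c ∈ SA, Low u (kk G m 0 u) c (kk G m 1 c)) ≤
        32 / D * Real.exp (-(lam / (128 * D))) := by
      refine (Pr_biUnion_le G x _ _).trans ?_
      refine (Finset.sum_le_sum (fun c hc => ?_) (g := fun _ =>
        Real.exp (-(lam / (128 * D))))).trans ?_
      · rw [hSA] at hc
        simp only [Finset.mem_filter] at hc
        obtain ⟨-, hcu, hcR⟩ := hc
        have h := hEdge V G hG h2 x u c (Ne.symm hcu) m 0 (hmJ 0 hJpos)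
        refine h.trans (Real.exp_le_exp.mpr ?_)
        have hRp := hRpos u c (Ne.symm hcu)
        have h3 : lam / (128 * D) ≤ (1 / 4 : ℝ) ^ 0 * m / (64 * Rs G u c) := by
          rw [pow_zero, one_mul, hm, div_le_div_iff₀ (by positivity) (by positivity)]
          nlinarith [mul_le_mul_of_nonneg_left hcR hlam.le]
        linarith
      · rw [Finset.sum_const, nsmul_eq_mul]
        apply mul_le_mul_of_nonneg_right _ (Real.exp_pos _).le
        have h3 : (SA.card : ℝ) ≤ ((S 1).card : ℝ) := by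
          rw [hSA]; exact_mod_cast Finset.card_filter_le _ _
        have h4 := hcardS 1
        calc (SA.card : ℝ) ≤ 4 * 8 ^ 1 / D := h3.trans h4
          _ = 32 / D := by norm_num
    have hB : Pr G x (⋃ j ∈ Finset.Ico 1 J, ⋃ c ∈ SB j,
          Low (par j c) (kk G m j (par j c)) c (kk G m (j + 1) c)) ≤
        ∑ j ∈ Finset.Ico 1 J, 32 * 8 ^ j / D * Real.exp (-(2 ^ j * (lam / (64 * D)))) := by
      refine (Pr_biUnion_le G x _ _).trans (Finset.sum_le_sum (fun j hj => ?_))
      rw [Finset.mem_Ico] at hj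
      refine (Pr_biUnion_le G x _ _).trans ?_
      refine (Finset.sum_le_sum (fun c hc => ?_) (g := fun _ =>
        Real.exp (-(2 ^ j * (lam / (64 * D)))))).trans ?_
      · rw [hSB] at hc
        simp only [Finset.mem_filter] at hc
        obtain ⟨-, hne⟩ := hc
        have h := hEdge V G hG h2 x (par j c) c hne m j (hmJ j hj.2)
        refine h.trans (Real.exp_le_exp.mpr ?_)
        have hRp := hRpos (par j c) c hne
        have hRle : Rs G (par j c) c ≤ s j := by rw [hsym]; exact hparR j c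
        have h3 : 2 ^ j * (lam / (64 * D)) ≤ (1 / 4 : ℝ) ^ j * m / (64 * Rs G (par j c) c) := by
          have h4 : (1 / 4 : ℝ) ^ j * m / (64 * s j) = 2 ^ j * (lam / (64 * D)) := by
            rw [hs, hm]
            simp only
            have h5 : (8 : ℝ) ^ j = 2 ^ j * 4 ^ j := by rw [← mul_pow]; norm_num
            rw [h5, one_div, inv_pow]
            field_simp
          rw [← h4]
          apply div_le_div_of_nonneg_left (by positivity) (by positivity)
          linarith
        linarith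
      · rw [Finset.sum_const, nsmul_eq_mul]
        apply mul_le_mul_of_nonneg_right _ (Real.exp_pos _).le
        have h3 : ((SB j).card : ℝ) ≤ ((S (j + 1)).card : ℝ) := by
          rw [hSB]; exact_mod_cast Finset.card_filter_le _ _
        have h4 := hcardS (j + 1)
        calc ((SB j).card : ℝ) ≤ 4 * 8 ^ (j + 1) / D := h3.trans h4
          _ = 32 * 8 ^ j / D := by rw [pow_succ]; ring
    have hC : Pr G x (⋃ c ∈ SC, Low (par J c) (kk G m J (par J c)) c 0) ≤
        (nn G + 1) * Real.exp (-(lam * nn G / 4)) := by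
      refine (Pr_biUnion_le G x _ _).trans ?_
      refine (Finset.sum_le_sum (fun c hc => ?_) (g := fun _ =>
        Real.exp (-(lam * nn G / 4)))).trans ?_
      · rw [hSC] at hc
        simp only [Finset.mem_filter, mem_univ, true_and] at hc
        exact hlast (par J c) c J hc (by rw [hsym]; exact (hparR J c).trans hJ1)
      · rw [Finset.sum_const, nsmul_eq_mul, ← hnb]
        apply mul_le_mul_of_nonneg_right _ (Real.exp_pos _).le
        exact_mod_cast (Finset.card_le_univ _)
    have hsum := hChs D lam J hD0 hDl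
    have h3 := Pr_mono G x hsub
    have h4 := Pr_union_le G x (⋃ c ∈ SA, Low u (kk G m 0 u) c (kk G m 1 c))
      ((⋃ j ∈ Finset.Ico 1 J, ⋃ c ∈ SB j,
          Low (par j c) (kk G m j (par j c)) c (kk G m (j + 1) c)) ∪
        (⋃ c ∈ SC, Low (par J c) (kk G m J (par J c)) c 0))
    have h5 := Pr_union_le G x (⋃ j ∈ Finset.Ico 1 J, ⋃ c ∈ SB j,
          Low (par j c) (kk G m j (par j c)) c (kk G m (j + 1) c))
        (⋃ c ∈ SC, Low (par J c) (kk G m J (par J c)) c 0)
    linarith

end Q287.CV
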