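import Pool.Agent.Q287.CV.Stm
import Pool.Agent.Q287.CV.Prb

/-!
# Cover cost: COV
-/

set_option autoImplicit false
set_option linter.unusedSectionVars false

namespace Q287.CV

open MeasureTheory Finset
open scoped ENNReal

/-- `exp (-y) ≤ 2 / y ^ 2` -/
lemma exp_neg_le_two_div (y : ℝ) (hy : 0 < y) : Real.exp (-y) ≤ 2 / y ^ 2 := by
  have h := Real.quadratic_le_exp_of_nonneg hy.le
  have h2 : y ^ 2 / 2 ≤ Real.exp y := by nlinarith
  rw [Real.exp_neg, inv_eq_one_div, div_le_div_iff₀ (Real.exp_pos _) (by positivity)]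
  linarith

/-- `(n + 1) exp (-a n / 4) ≤ 64 / (a ^ 2 n)` -/
lemma lin_exp_le (a n : ℝ) (ha : 0 < a) (hn : 1 ≤ n) :
    (n + 1) * Real.exp (-(a * n / 4)) ≤ 64 / (a ^ 2 * n) := by
  have h := exp_neg_le_two_div (a * n / 4) (by positivity)
  calc (n + 1) * Real.exp (-(a * n / 4)) ≤ (2 * n) * (2 / (a * n / 4) ^ 2) := by
        apply mul_le_mul (by linarith) h (Real.exp_pos _).le (by positivity)
    _ = 64 / (a ^ 2 * n) := by field_simp; ring

/-- Choice of `κ`. -/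
lemma exists_kappa (l η : ℝ) (hl : 0 < l) (hη : 0 < η) :
    ∃ κ : ℝ, 0 < κ ∧ κ ≤ 1 ∧ 1536 * κ ≤ l ∧ 64 / κ * Real.exp (-(l / (192 * κ))) ≤ η := by
  obtain ⟨κ, hκ⟩ : ∃ κ : ℝ, κ = min 1 (min (l / 1536) (η * l ^ 2 / 4718592)) := ⟨_, rfl⟩
  have h0 : 0 < κ := by
    rw [hκ]; exact lt_min (by norm_num) (lt_min (by positivity) (by positivity))
  have h1 : κ ≤ 1 := by rw [hκ]; exact min_le_left _ _
  have h2 : κ ≤ l / 1536 := by rw [hκ]; exact (min_le_right _ _).trans (min_le_left _ _)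
  have h3 : κ ≤ η * l ^ 2 / 4718592 := by
    rw [hκ]; exact (min_le_right _ _).trans (min_le_right _ _)
  refine ⟨κ, h0, h1, by linarith, ?_⟩
  have h := exp_neg_le_two_div (l / (192 * κ)) (by positivity)
  calc 64 / κ * Real.exp (-(l / (192 * κ))) ≤ 64 / κ * (2 / (l / (192 * κ)) ^ 2) :=
        mul_le_mul_of_nonneg_left h (by positivity)
    _ = 4718592 * κ / l ^ 2 := by field_simp; ring
    _ ≤ η := by
        rw [div_le_iff₀ (by positivity)]
        have := (le_div_iff₀ (by norm_num : (0:ℝ) < 4718592)).mp h3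
        linarith

section

variable {V : Type} [Fintype V] [DecidableEq V] [MeasurableSpace V] [DiscreteMeasurableSpace V]

/-- The inclusion of events. -/
lemma NC_subset (G : SimpleGraph V) [DecidableRel G.Adj] (K : V) (T k' : ℕ) (κ ρ : ℝ) (N : ℕ)
    (z : ℕ → V) (k : V → ℕ)
    (hnet : ∀ y, κ * nn G ≤ Rs G y K → ∃ i ≤ N, Rs G y (z i) ≤ 2 * ρ * nn G)
    (hsym : ∀ x y, Rs G x y = Rs G y x) :
    (NC T : Set (ℕ → V)) ⊆ (Late K k' T ∪ {w | ∃ y, Rs G K y ≤ κ * nn G ∧ w ∈ Unv K k' y}) ∪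
      ({w | ∃ i ≤ N, w ∈ Few (z i) K (k (z i))} ∪
        ⋃ i ∈ Finset.range (N + 1),
          {w | ∃ y, Rs G (z i) y ≤ 2 * ρ * nn G ∧ w ∈ Unv (z i) (k (z i)) y}) := by
  rintro w ⟨y, hy⟩
  by_cases hL : w ∈ Late K k' T
  · exact Or.inl (Or.inl hL)
  have hL' : k' < cnt w K (T + 1) := by
    simpa [Late] using hL
  obtain ⟨t, htT, hwt, hct⟩ := exists_visit w K (T + 1) k' hL'
  by_cases hyK : Rs G K y ≤ κ * nn G
  · refine Or.inl (Or.inr ⟨y, hyK, t, hwt, hct, fun s hs => hy s (by omega)⟩)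
  · right
    push Not at hyK
    obtain ⟨i, hi, hyi⟩ := hnet y (by rw [hsym y K]; exact hyK.le)
    by_cases hF : w ∈ Few (z i) K (k (z i))
    · exact Or.inl ⟨i, hi, hF⟩
    · right
      -- first hitting time of `K`
      have hex : ∃ s, w s = K := ⟨t, hwt⟩
      classical
      obtain ⟨t₁, ht₁⟩ : ∃ t₁, t₁ = Nat.find hex := ⟨_, rfl⟩
      have hs1 : w t₁ = K := by rw [ht₁]; exact Nat.find_spec hex
      have hs2 : ∀ s < t₁, w s ≠ K := by
        intro s hs; rw [ht₁] at hs; exact Nat.find_min hex hs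
      have hs3 : t₁ ≤ t := by rw [ht₁]; exact Nat.find_min' hex hwt
      have hF' : k (z i) < cnt w (z i) t₁ := by
        by_contra h
        exact hF ⟨t₁, ⟨hs1, hs2⟩, not_lt.mp h⟩
      obtain ⟨s, hs, hws, hcs⟩ := exists_visit w (z i) t₁ _ hF'
      simp only [Set.mem_iUnion, Finset.mem_range]
      exact ⟨i, by omega, y, by rw [hsym]; exact hyi, s, hws, hcs,
        fun s' hs' => hy s' (by omega)⟩

lemma NC_subset' (G : SimpleGraph V) [DecidableRel G.Adj] (K : V) (T k' : ℕ) (κ : ℝ)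
    (hall : ∀ y, Rs G y K < κ * nn G)
    (hsym : ∀ x y, Rs G x y = Rs G y x) :
    (NC T : Set (ℕ → V)) ⊆
      (Late K k' T ∪ {w | ∃ y, Rs G K y ≤ κ * nn G ∧ w ∈ Unv K k' y}) := by
  rintro w ⟨y, hy⟩
  by_cases hL : w ∈ Late K k' T
  · exact Or.inl hL
  have hL' : k' < cnt w K (T + 1) := by
    simpa [Late] using hL
  obtain ⟨t, htT, hwt, hct⟩ := exists_visit w K (T + 1) k' hL'
  refine Or.inr ⟨y, by rw [hsym]; exact (hall y).le, t, hwt, hct, fun s hs => hy s (by omega)⟩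

end

theorem t_COV (hRes : S_Res) (hGr : S_Gr) (hLate : S_Late) (hCh1 : S_Ch1) (hNearK : S_NearK)
    (hGeo : S_Geo) (hFar : S_Far) (hParm : S_Parm) : S_Cov := by
  intro ε η τ hε hη hτ
  obtain ⟨l₁, hl₁⟩ : ∃ l₁ : ℝ, l₁ = min 1 (η * τ / 32) := ⟨_, rfl⟩
  have hl₁0 : 0 < l₁ := by rw [hl₁]; exact lt_min (by norm_num) (by positivity)
  have hl₁τ : l₁ ≤ η * τ / 32 := by rw [hl₁]; exact min_le_right _ _
  obtain ⟨κ, hκ0, hκ1, hκl, hκe⟩ := exists_kappa l₁ (η / 8) hl₁0 (by positivity)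
  obtain ⟨ρ, lam, μ, L0, i0, hρ0, hρ2, hρl, hμ0, hμl, hL0, hLi, htot⟩ :=
    hParm κ (η / 8) hκ0 (by positivity)
  have hlam0 : 0 < lam := by linarith
  obtain ⟨e, he⟩ : ∃ e : ℝ, e = min (min (ρ / 8) (κ / 8)) (μ * ρ / 2) := ⟨_, rfl⟩
  have he0 : 0 < e := by
    rw [he]; exact lt_min (lt_min (by positivity) (by positivity)) (by positivity)
  have heρ : 8 * e ≤ ρ := by
    have : e ≤ ρ / 8 := by rw [he]; exact (min_le_left _ _).trans (min_le_left _ _)
    linarith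
  have heκ : 8 * e ≤ κ := by
    have : e ≤ κ / 8 := by rw [he]; exact (min_le_left _ _).trans (min_le_right _ _)
    linarith
  have heμ : 2 * e / ρ ≤ μ := by
    have : e ≤ μ * ρ / 2 := by rw [he]; exact min_le_right _ _
    rw [div_le_iff₀ hρ0]; linarith
  have heμ2 : 2 * e ≤ μ := by
    have h1 : 2 * e ≤ 2 * e / ρ := by
      rw [le_div_iff₀ hρ0]; nlinarith
    linarith
  obtain ⟨δ, hδ⟩ : ∃ δ : ℝ, δ = min (η * τ / 8) (ε * κ * e / 4) := ⟨_, rfl⟩
  have hδ0 : 0 < δ := by rw [hδ]; exact lt_min (by positivity) (by positivity)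
  have hδ1 : δ ≤ η * τ / 8 := by rw [hδ]; exact min_le_left _ _
  have hδ2 : δ ≤ ε * κ * e / 4 := by rw [hδ]; exact min_le_right _ _
  have hδ3 : 4 * δ ≤ ε * (κ / 2) := by
    have : ε * κ * e ≤ ε * κ * (1 / 8) := by
      apply mul_le_mul_of_nonneg_left _ (by positivity); linarith
    nlinarith [mul_pos hε hκ0]
  have hδe : 2 * δ / (ε * (κ / 2)) ≤ e := by
    rw [div_le_iff₀ (by positivity)]; linarith
  -- the threshold for `n`
  obtain ⟨n₀, hn₀⟩ := exists_nat_ge (max (max (max (2 / ρ) (4 / κ)) (max (1 / lam) (1 / l₁)))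
    (max (max (8192 * ρ / lam ^ 3) (4096 * κ / l₁ ^ 3))
      (max (1024 / (ρ * lam ^ 2 * η)) (512 / (l₁ ^ 2 * η)))))
  refine ⟨δ, hδ0, n₀, ?_⟩
  intro V _ _ _ _ G _ hG h2 hn hD r hHit T hT
  obtain ⟨hsym, -, -, -, -, -, -, -, -, -⟩ := hRes V G hG h2
  obtain ⟨-, -, -, -, -, -, -, -, -, -, hDD, -, -⟩ := hGr V G hG h2
  have hcard : (2 : ℝ) ≤ (Fintype.card V : ℝ) := by exact_mod_cast h2
  have hn1 : 1 ≤ nn G := by unfold nn; linarith
  have hnpos : 0 < nn G := by linarith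
  have hbig := hn₀.trans hn
  have hb1 : 2 ≤ ρ * nn G := by
    have : 2 / ρ ≤ nn G := le_trans (le_trans (le_trans (le_max_left _ _) (le_max_left _ _))
      (le_max_left _ _)) hbig
    rw [div_le_iff₀ hρ0] at this; linarith
  have hb2 : 4 ≤ κ * nn G := by
    have : 4 / κ ≤ nn G := le_trans (le_trans (le_trans (le_max_right _ _) (le_max_left _ _))
      (le_max_left _ _)) hbig
    rw [div_le_iff₀ hκ0] at this; linarith
  have hb3 : 1 ≤ lam * nn G := by
    have : 1 / lam ≤ nn G := le_trans (le_trans (le_trans (le_max_left _ _) (le_max_right _ _))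
      (le_max_left _ _)) hbig
    rw [div_le_iff₀ hlam0] at this; linarith
  have hb4 : 1 ≤ l₁ * nn G := by
    have : 1 / l₁ ≤ nn G := le_trans (le_trans (le_trans (le_max_right _ _) (le_max_right _ _))
      (le_max_left _ _)) hbig
    rw [div_le_iff₀ hl₁0] at this; linarith
  have hnsq : nn G ≤ nn G ^ 2 := by nlinarith
  have hb5 : 4096 * (2 * ρ) ≤ lam ^ 3 * nn G ^ 2 := by
    have : 8192 * ρ / lam ^ 3 ≤ nn G := le_trans (le_trans (le_trans (le_max_left _ _)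
      (le_max_left _ _)) (le_max_right _ _)) hbig
    rw [div_le_iff₀ (by positivity)] at this
    nlinarith [mul_le_mul_of_nonneg_left hnsq (show 0 ≤ lam ^ 3 by positivity)]
  have hb6 : 4096 * κ ≤ l₁ ^ 3 * nn G ^ 2 := by
    have : 4096 * κ / l₁ ^ 3 ≤ nn G := le_trans (le_trans (le_trans (le_max_right _ _)
      (le_max_left _ _)) (le_max_right _ _)) hbig
    rw [div_le_iff₀ (by positivity)] at this
    nlinarith [mul_le_mul_of_nonneg_left hnsq (show 0 ≤ l₁ ^ 3 by positivity)]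
  have hb7 : 2 / ρ * ((nn G + 1) * Real.exp (-(lam * nn G / 4))) ≤ η / 8 := by
    have : 1024 / (ρ * lam ^ 2 * η) ≤ nn G := le_trans (le_trans (le_trans (le_max_left _ _)
      (le_max_right _ _)) (le_max_right _ _)) hbig
    rw [div_le_iff₀ (by positivity)] at this
    calc 2 / ρ * ((nn G + 1) * Real.exp (-(lam * nn G / 4)))
        ≤ 2 / ρ * (64 / (lam ^ 2 * nn G)) :=
          mul_le_mul_of_nonneg_left (lin_exp_le lam _ hlam0 hn1) (by positivity)
      _ = 128 / (ρ * lam ^ 2 * nn G) := by field_simp; norm_num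
      _ ≤ η / 8 := by
          rw [div_le_div_iff₀ (by positivity) (by norm_num)]
          nlinarith
  have hb8 : (nn G + 1) * Real.exp (-(l₁ * nn G / 4)) ≤ η / 8 := by
    have : 512 / (l₁ ^ 2 * η) ≤ nn G := le_trans (le_trans (le_trans (le_max_right _ _)
      (le_max_right _ _)) (le_max_right _ _)) hbig
    rw [div_le_iff₀ (by positivity)] at this
    calc (nn G + 1) * Real.exp (-(l₁ * nn G / 4))
        ≤ 64 / (l₁ ^ 2 * nn G) := lin_exp_le l₁ _ hl₁0 hn1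
      _ ≤ η / 8 := by
          rw [div_le_div_iff₀ (by positivity) (by norm_num)]
          nlinarith
  -- the farthest vertex
  obtain ⟨K, -, hK⟩ := Finset.exists_max_image (univ : Finset V) (fun x => Rs G r x)
    ⟨r, mem_univ r⟩
  have hNK : ∀ x, κ / 2 * nn G ≤ Rs G x K → gr G x r K ≤ e * Rs G K x := by
    intro x hx
    obtain ⟨-, -, -, hRs0, -⟩ := hGr V G hG h2
    have h := hNearK V G hG h2 r K ε δ (κ / 2) hε (by positivity) hδ0.le hδ3 hD
      (fun x => hK x (mem_univ x)) hHit x hx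
    exact h.trans (mul_le_mul_of_nonneg_right hδe (hRs0 K x))
  obtain ⟨k', hk'⟩ : ∃ k' : ℕ, k' = ⌈l₁ * nn G * (G.degree K : ℝ)⌉₊ := ⟨_, rfl⟩
  have hdK : (1 : ℝ) ≤ (G.degree K : ℝ) := by exact_mod_cast deg_pos G hG h2 K
  -- the near part
  have hE1 : Pr G r (Late K k' T) ≤ η / 4 := by
    have h := hLate V G hG h2 r K k' T
    have hDD0 : 0 ≤ DD G := Finset.sum_nonneg (fun v _ => Nat.cast_nonneg _)
    have h3 : (k' : ℝ) * (DD G / (G.degree K : ℝ)) ≤ 4 * l₁ * nn G ^ 3 := by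
      have h4 : (k' : ℝ) ≤ l₁ * nn G * (G.degree K : ℝ) + 1 := by
        rw [hk']; exact (Nat.ceil_lt_add_one (by positivity)).le
      calc (k' : ℝ) * (DD G / (G.degree K : ℝ))
          ≤ (2 * (l₁ * nn G) * (G.degree K : ℝ)) * (DD G / (G.degree K : ℝ)) := by
            apply mul_le_mul_of_nonneg_right _ (by positivity)
            nlinarith
        _ = 2 * (l₁ * nn G) * DD G := by field_simp
        _ ≤ 2 * (l₁ * nn G) * (2 * nn G ^ 2) := mul_le_mul_of_nonneg_left hDD (by positivity)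
        _ = 4 * l₁ * nn G ^ 3 := by ring
    have h5 : Pr G r (Late K k' T) * (τ * nn G ^ 3) ≤ (δ + 4 * l₁) * nn G ^ 3 := by
      calc Pr G r (Late K k' T) * (τ * nn G ^ 3)
          ≤ Pr G r (Late K k' T) * ((T : ℝ) + 1) :=
            mul_le_mul_of_nonneg_left hT (Pr_nonneg G r _)
        _ ≤ Hit G r K + (k' : ℝ) * (DD G / (G.degree K : ℝ)) := h
        _ ≤ δ * nn G ^ 3 + 4 * l₁ * nn G ^ 3 := add_le_add (hHit K) h3
        _ = (δ + 4 * l₁) * nn G ^ 3 := by ring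
    have h6 : Pr G r (Late K k' T) * τ ≤ δ + 4 * l₁ := by
      have h7 : (Pr G r (Late K k' T) * τ) * nn G ^ 3 ≤ (δ + 4 * l₁) * nn G ^ 3 := by
        linarith
      exact le_of_mul_le_mul_right h7 (by positivity)
    have h8 : Pr G r (Late K k' T) * τ ≤ η / 4 * τ := by linarith
    exact le_of_mul_le_mul_right h8 hτ
  have hE4 : Pr G r {w | ∃ y, Rs G K y ≤ κ * nn G ∧ w ∈ Unv K k' y} ≤ η / 4 := by
    have h := hCh1 V G hG h2 r K κ l₁ hκ0 hκ1 hκl hb6
    rw [← hk'] at h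
    linarith
  have hnear : Pr G r (Late K k' T ∪ {w | ∃ y, Rs G K y ≤ κ * nn G ∧ w ∈ Unv K k' y}) ≤
      η / 2 := by
    have := Pr_union_le G r (Late K k' T) {w | ∃ y, Rs G K y ≤ κ * nn G ∧ w ∈ Unv K k' y}
    linarith
  rcases hGeo V G hG h2 r K κ ρ e hκ0 hρ0 he0.le heρ heκ hb1 hb2 hNK with hall | hline
  · have := Pr_mono G r (NC_subset' G K T k' κ hall hsym)
    linarith
  · obtain ⟨N, z, hz0, hNρ, hzK, hzz, hz1, hz2, hz3, hnet⟩ := hline
    obtain ⟨k, hk⟩ : ∃ k : V → ℕ, k = fun v => ⌈lam * nn G * (G.degree v : ℝ)⌉₊ := ⟨_, rfl⟩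
    have hsub := NC_subset G K T k' κ ρ N z k hnet hsym
    obtain ⟨-, -, -, hRs0, -⟩ := hGr V G hG h2
    have hfar : Pr G r {w | ∃ i ≤ N, w ∈ Few (z i) K (k (z i))} ≤
        5 * i0 * lam / κ + (120 / κ + 32 * μ / ρ ^ 3) / Real.log (((i0 : ℝ) + 1) / L0) +
          4 * μ / ρ ^ 2 := by
      have h := hFar V G hG h2 r K N L0 i0 z κ ρ lam μ hκ0 hρ0 (by linarith) (by linarith)
        hμ0.le hμl hb3 hNρ hL0 hLi hzK hzz
        (fun i j hij hj => (hz1 i j hij hj).trans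
          (mul_le_mul_of_nonneg_right heμ (hRs0 _ _)))
        (fun i hi => (hz2 i hi).trans (mul_le_mul_of_nonneg_right (by linarith) (hRs0 _ _)))
        (fun k i hki hi => (hz3 k i hki hi).trans
          (mul_le_mul_of_nonneg_right heμ2 (hRs0 _ _)))
      rw [hk]; exact h
    have hnets : Pr G r (⋃ i ∈ Finset.range (N + 1),
        {w | ∃ y, Rs G (z i) y ≤ 2 * ρ * nn G ∧ w ∈ Unv (z i) (k (z i)) y}) ≤
        2 / ρ * (64 / (2 * ρ) * Real.exp (-(lam / (192 * (2 * ρ))))) + η / 8 := by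
      refine (Pr_biUnion_le G r _ _).trans ?_
      have hone : ∀ i ∈ Finset.range (N + 1),
          Pr G r {w | ∃ y, Rs G (z i) y ≤ 2 * ρ * nn G ∧ w ∈ Unv (z i) (k (z i)) y} ≤
          64 / (2 * ρ) * Real.exp (-(lam / (192 * (2 * ρ)))) +
            (nn G + 1) * Real.exp (-(lam * nn G / 4)) := by
        intro i _
        rw [hk]
        exact hCh1 V G hG h2 r (z i) (2 * ρ) lam (by positivity) hρ2 (by linarith) hb5
      refine (Finset.sum_le_sum hone).trans ?_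
      rw [Finset.sum_const, Finset.card_range, nsmul_eq_mul]
      have hN1 : ((N + 1 : ℕ) : ℝ) ≤ 2 / ρ := by
        push_cast
        rw [le_div_iff₀ hρ0]; linarith
      have hpos : 0 ≤ 64 / (2 * ρ) * Real.exp (-(lam / (192 * (2 * ρ)))) +
            (nn G + 1) * Real.exp (-(lam * nn G / 4)) := by positivity
      calc ((N + 1 : ℕ) : ℝ) * (64 / (2 * ρ) * Real.exp (-(lam / (192 * (2 * ρ)))) +
            (nn G + 1) * Real.exp (-(lam * nn G / 4)))
          ≤ 2 / ρ * (64 / (2 * ρ) * Real.exp (-(lam / (192 * (2 * ρ)))) +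
            (nn G + 1) * Real.exp (-(lam * nn G / 4))) := mul_le_mul_of_nonneg_right hN1 hpos
        _ = 2 / ρ * (64 / (2 * ρ) * Real.exp (-(lam / (192 * (2 * ρ))))) +
            2 / ρ * ((nn G + 1) * Real.exp (-(lam * nn G / 4))) := by ring
        _ ≤ _ := by linarith
    have h1 := Pr_mono G r hsub
    have h2' := Pr_union_le G r
      (Late K k' T ∪ {w | ∃ y, Rs G K y ≤ κ * nn G ∧ w ∈ Unv K k' y})
      ({w | ∃ i ≤ N, w ∈ Few (z i) K (k (z i))} ∪
        ⋃ i ∈ Finset.range (N + 1),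
          {w | ∃ y, Rs G (z i) y ≤ 2 * ρ * nn G ∧ w ∈ Unv (z i) (k (z i)) y})
    have h3' := Pr_union_le G r {w | ∃ i ≤ N, w ∈ Few (z i) K (k (z i))}
      (⋃ i ∈ Finset.range (N + 1),
          {w | ∃ y, Rs G (z i) y ≤ 2 * ρ * nn G ∧ w ∈ Unv (z i) (k (z i)) y})
    linarith

end Q287.CV
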