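import Pool.Agent.Q287.CV.Stm
import Pool.Agent.Q287.CV.Prb

/-!
# Cover cost: FAR
-/

set_option autoImplicit false
set_option linter.unusedSectionVars false

namespace Q287.CV

open MeasureTheory Finset
open scoped ENNReal

/-- `x / 2 ≤ 1 - exp (-x)` for `0 ≤ x ≤ 1` -/
lemma half_le_one_sub_exp_neg (x : ℝ) (h0 : 0 ≤ x) (h1 : x ≤ 1) : x / 2 ≤ 1 - Real.exp (-x) := by
  have h := Real.quadratic_le_exp_of_nonneg h0
  have h2 : Real.exp (-x) * Real.exp x = 1 := by rw [← Real.exp_add]; simp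
  have h3 : 0 < Real.exp (-x) := Real.exp_pos _
  have h4 : Real.exp (-x) * (1 + x + x ^ 2 / 2) ≤ 1 := by
    calc Real.exp (-x) * (1 + x + x ^ 2 / 2) ≤ Real.exp (-x) * Real.exp x :=
          mul_le_mul_of_nonneg_left h h3.le
      _ = 1 := h2
  have h5 : 1 ≤ (1 - x / 2) * (1 + x + x ^ 2 / 2) := by
    have : (1 - x / 2) * (1 + x + x ^ 2 / 2) = 1 + x / 2 - x ^ 3 / 4 := by ring
    rw [this]
    have h6 : x ^ 3 ≤ x := by
      have : x ^ 3 = x * x * x := by ring
      nlinarith [mul_nonneg h0 h0]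
    nlinarith
  have h6 : 0 < 1 + x + x ^ 2 / 2 := by positivity
  have h7 : Real.exp (-x) * (1 + x + x ^ 2 / 2) ≤ (1 - x / 2) * (1 + x + x ^ 2 / 2) :=
    h4.trans h5
  have := le_of_mul_le_mul_right h7 h6
  linarith

section

variable {V : Type} [DecidableEq V]

/-- the sets `Last i` are disjoint -/
lemma last_disj (z : ℕ → V) (k : ℕ → ℕ) (K : V) (N : ℕ) {i j : ℕ} (hi : i ≤ N) (hj : j ≤ N)
    (hij : i ≠ j) (w : ℕ → V) (h1 : w ∈ Last z k K N i) (h2 : w ∈ Last z k K N j) : False := by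
  rcases lt_or_gt_of_ne hij with h | h
  · exact h1.2 j h hj h2.1
  · exact h2.2 i h hi h1.1

/-- the largest failing index -/
lemma exists_last (z : ℕ → V) (k : ℕ → ℕ) (K : V) (N : ℕ) (w : ℕ → V)
    (h : ∃ i ≤ N, w ∈ Few (z i) K (k i)) : ∃ i ≤ N, w ∈ Last z k K N i := by
  classical
  obtain ⟨i, hi, hw⟩ := h
  have hne : ((Finset.range (N + 1)).filter (fun i => w ∈ Few (z i) K (k i))).Nonempty :=
    ⟨i, by simp [Nat.lt_succ_of_le hi, hw]⟩
  obtain ⟨j, hj, hmax⟩ := Finset.exists_max_image _ (fun i => i) hne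
  simp only [Finset.mem_filter, Finset.mem_range] at hj
  refine ⟨j, by omega, hj.2, fun l hl hlN hwl => ?_⟩
  have := hmax l (by simp [Nat.lt_succ_of_le hlN, hwl])
  omega

end

theorem t_FAR (hRes : S_Res) (hGr : S_Gr) (hHitp : S_Hitp) (hFew : S_Few) (hF2 : S_F2)
    (hLastU : S_LastU) (hLastL : S_LastL) (hFarR : S_FarR) : S_Far := by
  intro V _ _ _ _ G _ hG h2 r K N L0 i0 z κ ρ lam μ hκ hρ hρ1 hρl hμ hμl hln hNρ hL0 hLi
    hzK hzz hz1 hz2 hz3
  obtain ⟨hsym, hself, -, -, -, -, -, -, -, -⟩ := hRes V G hG h2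
  obtain ⟨-, -, hRpos, hR0, -, -, -, -, -, -, -, -, -⟩ := hGr V G hG h2
  obtain ⟨hHb, -⟩ := hHitp V G hG h2
  have hcard : (2 : ℝ) ≤ (Fintype.card V : ℝ) := by exact_mod_cast h2
  have hn1 : 1 ≤ nn G := by unfold nn; linarith
  have hnpos : 0 < nn G := by linarith
  have hlam : 0 < lam := by linarith
  have hdeg : ∀ v : V, (1 : ℝ) ≤ (G.degree v : ℝ) := fun v => by
    exact_mod_cast deg_pos G hG h2 v
  obtain ⟨Λ, hΛ⟩ : ∃ Λ : ℝ, Λ = lam / ρ := ⟨_, rfl⟩
  have hΛ1 : 1 ≤ Λ := by rw [hΛ, le_div_iff₀ hρ]; linarith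
  obtain ⟨k, hk⟩ : ∃ k : ℕ → ℕ, k = fun i => ⌈lam * nn G * (G.degree (z i) : ℝ)⌉₊ := ⟨_, rfl⟩
  -- `λ n ≤ k i / deg ≤ 2 λ n`
  have hk1 : ∀ i, lam * nn G * (G.degree (z i) : ℝ) ≤ (k i : ℝ) := by
    intro i; rw [hk]; exact Nat.le_ceil _
  have hk2 : ∀ i, (k i : ℝ) ≤ 2 * (lam * nn G) * (G.degree (z i) : ℝ) := by
    intro i
    have h := (Nat.ceil_lt_add_one
      (show 0 ≤ lam * nn G * (G.degree (z i) : ℝ) by positivity)).le
    rw [hk]; simp only
    nlinarith [hdeg (z i)]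
  have hzKne : ∀ i ≤ N, z i ≠ K := by
    intro i hi heq
    have h := hzK i hi
    rw [heq, hself] at h
    have : 0 < κ / 2 * nn G := by positivity
    linarith
  have hzzne : ∀ i j, i < j → j ≤ N → z i ≠ z j := by
    intro i j hij hj heq
    have h := (hzz i j hij hj).1
    rw [heq, hself] at h
    have h3 : (0 : ℝ) < ((j : ℝ) - i) / 2 := by
      have : (i : ℝ) < j := by exact_mod_cast hij
      linarith
    have : 0 < ((j : ℝ) - i) / 2 * (ρ * nn G) := by positivity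
    linarith
  have hP1 : ∀ i j, i < j → j ≤ N → Pr G r (Hb (z j) (z i)) ≤ μ := by
    intro i j hij hj
    have hne := hzzne i j hij hj
    rw [hHb r (z j) (z i) (Ne.symm hne), div_le_iff₀ (hRpos _ _ (Ne.symm hne))]
    exact hz1 i j hij hj
  have hP2 : ∀ i ≤ N, Pr G r (Hb K (z i)) ≤ μ := by
    intro i hi
    have hne := hzKne i hi
    rw [hHb r K (z i) (Ne.symm hne), div_le_iff₀ (hRpos _ _ (Ne.symm hne))]
    exact hz2 i hi
  have hNp : (N : ℝ) + 1 ≤ 2 / ρ := by rw [le_div_iff₀ hρ]; linarith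
  -- the sum of the small probabilities
  have hsmall : ∀ i ≤ N, Pr G r (Hb K (z i)) + ∑ j ∈ Finset.Ioc i N, Pr G r (Hb (z j) (z i)) ≤
      ((N : ℝ) + 1) * μ := by
    intro i hi
    have h3 : ∑ j ∈ Finset.Ioc i N, Pr G r (Hb (z j) (z i)) ≤ ∑ j ∈ Finset.Ioc i N, μ :=
      Finset.sum_le_sum (fun j hj => hP1 i j (Finset.mem_Ioc.mp hj).1 (Finset.mem_Ioc.mp hj).2)
    rw [Finset.sum_const, nsmul_eq_mul, Nat.card_Ioc] at h3
    have h4 : ((N - i : ℕ) : ℝ) ≤ (N : ℝ) := by exact_mod_cast Nat.sub_le N i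
    nlinarith [hP2 i hi, mul_le_mul_of_nonneg_right h4 hμ]
  -- (1)
  have hfrac : ∀ i ≤ N, (k i : ℝ) / ((G.degree (z i) : ℝ) * Rs G (z i) K) ≤ 4 * lam / κ := by
    intro i hi
    have hRK := hzK i hi
    have hRK0 : 0 < Rs G (z i) K := hRpos _ _ (hzKne i hi)
    have hd := hdeg (z i)
    rw [div_le_div_iff₀ (by positivity) hκ]
    calc (k i : ℝ) * κ ≤ (2 * (lam * nn G) * (G.degree (z i) : ℝ)) * κ :=
          mul_le_mul_of_nonneg_right (hk2 i) hκ.le
      _ = 4 * lam * ((G.degree (z i) : ℝ) * (κ / 2 * nn G)) := by ring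
      _ ≤ 4 * lam * ((G.degree (z i) : ℝ) * Rs G (z i) K) := by
          apply mul_le_mul_of_nonneg_left _ (by positivity)
          exact mul_le_mul_of_nonneg_left hRK (by positivity)
  have hone : ∀ i ≤ N, Pr G r (Few (z i) K (k i)) ≤ 5 * lam / κ := by
    intro i hi
    obtain ⟨-, -, h3⟩ := hFew V G hG h2 (z i) K (hzKne i hi) r (k i)
    have h4 : gr G (z i) r K / Rs G (z i) K ≤ μ := by
      rw [div_le_iff₀ (hRpos _ _ (hzKne i hi)), hsym (z i) K]
      exact hz2 i hi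
    have h5 := hfrac i hi
    have h6 : 5 * lam / κ = lam / κ + 4 * lam / κ := by ring
    rw [h6]; linarith
  -- (2)
  obtain ⟨q, hq⟩ : ∃ q : ℕ → ℝ, q = fun i => Pr G (z i) (Last z k K N i) := ⟨_, rfl⟩
  have hU : ∀ i ≤ N, Pr G r (Last z k K N i) ≤ q i + ((N : ℝ) + 1) * μ := by
    intro i hi
    have h3 := hLastU V G hG h2 r K N z k i hi hzKne
      (fun j hij hj => (hzzne i j hij hj).symm)
    rw [hq]; simp only
    linarith [hsmall i hi]
  -- (3)
  have hL : ∀ i l, i ≤ N → L0 ≤ l → l ≤ i →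
      lam / ρ / (4 * l) * (q i - 20 * (lam / ρ) * lam / (κ * l)) - ((N : ℝ) + 1) * μ ≤
        Pr G r (Last z k K N i ∩ Few (z (i - l)) K (k (i - l))) := by
    intro i l hi hl1 hl2
    rw [← hΛ]
    have hL0l : Λ ^ 2 ≤ (l : ℝ) := by
      rw [hΛ]; exact hL0.trans (by exact_mod_cast hl1)
    have hΛl : Λ ≤ (l : ℝ) := by nlinarith
    have hl0 : (0 : ℝ) < (l : ℝ) := by linarith
    have hlpos : 0 < l := by exact_mod_cast hl0
    obtain ⟨p, hp⟩ : ∃ p, p = i - l := ⟨_, rfl⟩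
    have hpi : p < i := by omega
    rw [← hp]
    have hcast : ((i : ℝ) - (p : ℝ)) = (l : ℝ) := by
      have : i = p + l := by omega
      rw [this]; push_cast; ring
    have hne : z p ≠ z i := hzzne p i hpi hi
    obtain ⟨hR1, hR2⟩ := hzz p i hpi hi
    rw [hcast] at hR1 hR2
    have hRp : 0 < Rs G (z p) (z i) := hRpos _ _ hne
    obtain ⟨P, B, hP0, hP1', hB0, hB1, hPlow, hBlow, hPB⟩ :=
      hLastL V G hG h2 r K N z k p i hpi hi hzKne
        (fun j hij hj => (hzzne i j hij hj).symm) hne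
    -- lower bound for `P`
    have hPl : Λ / (4 * l) - ((N : ℝ) + 1) * μ ≤ P := by
      obtain ⟨-, h3, -⟩ := hFew V G hG h2 (z p) (z i) hne r (k p)
      have h4 : Λ / (2 * l) ≤ (k p : ℝ) / ((G.degree (z p) : ℝ) * Rs G (z p) (z i)) := by
        rw [hΛ, div_div, div_le_div_iff₀ (by positivity)
          (mul_pos (by linarith [hdeg (z p)]) hRp)]
        calc lam * ((G.degree (z p) : ℝ) * Rs G (z p) (z i))
            ≤ lam * ((G.degree (z p) : ℝ) * (2 * l * (ρ * nn G))) := by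
              apply mul_le_mul_of_nonneg_left _ hlam.le
              exact mul_le_mul_of_nonneg_left hR2 (by positivity)
          _ = (lam * nn G * (G.degree (z p) : ℝ)) * (ρ * (2 * l)) := by ring
          _ ≤ (k p : ℝ) * (ρ * (2 * l)) := mul_le_mul_of_nonneg_right (hk1 p) (by positivity)
      have h5 : Λ / (2 * l) / 2 ≤ 1 - Real.exp (-(Λ / (2 * l))) := by
        apply half_le_one_sub_exp_neg _ (by positivity)
        rw [div_le_one (by positivity)]; linarith
      have h6 : Real.exp (-((k p : ℝ) / ((G.degree (z p) : ℝ) * Rs G (z p) (z i)))) ≤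
          Real.exp (-(Λ / (2 * l))) := Real.exp_le_exp.mpr (by linarith)
      have h7 : Λ / (2 * l) / 2 = Λ / (4 * l) := by
        rw [div_div]; congr 1; ring
      have h8 := hsmall i hi
      linarith
    -- lower bound for `B`
    have hBl : q i - 20 * Λ * lam / (κ * l) ≤ B := by
      have h3 := hF2 V G hG h2 (z i) (z p) K (Ne.symm hne) (hzKne i hi)
        (hzKne p (by omega)) (k i)
      have hd := hdeg (z i)
      have h4 : (k i : ℝ) / ((G.degree (z i) : ℝ) * Rs G (z i) (z p)) ≤ 4 * Λ / l := by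
        rw [hsym (z i) (z p), hΛ, div_le_div_iff₀ (mul_pos (by linarith) hRp) hl0]
        calc (k i : ℝ) * l ≤ (2 * (lam * nn G) * (G.degree (z i) : ℝ)) * l :=
              mul_le_mul_of_nonneg_right (hk2 i) hl0.le
          _ = 4 * (lam / ρ) * ((G.degree (z i) : ℝ) * (l / 2 * (ρ * nn G))) := by
              field_simp; ring
          _ ≤ 4 * (lam / ρ) * ((G.degree (z i) : ℝ) * Rs G (z p) (z i)) := by
              apply mul_le_mul_of_nonneg_left _ (by positivity)
              exact mul_le_mul_of_nonneg_left hR1 (by positivity)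
      have h5 : gr G (z i) (z p) K / Rs G (z i) K ≤ μ := by
        rw [div_le_iff₀ (hRpos _ _ (hzKne i hi)), hsym (z i) K]
        exact hz3 p i hpi hi
      have h6 := hfrac i hi
      have h7 : gr G (z i) (z p) K / Rs G (z i) K +
          (k i : ℝ) / ((G.degree (z i) : ℝ) * Rs G (z i) K) ≤ 5 * lam / κ := by
        have : 5 * lam / κ = lam / κ + 4 * lam / κ := by ring
        rw [this]; linarith
      obtain ⟨hgr0, -⟩ := hGr V G hG h2
      have h8 : 0 ≤ gr G (z i) (z p) K / Rs G (z i) K +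
          (k i : ℝ) / ((G.degree (z i) : ℝ) * Rs G (z i) K) := by
        have h9 : 0 ≤ gr G (z i) (z p) K / Rs G (z i) K := div_nonneg (hgr0 _ _ _) (hR0 _ _)
        have h10 : 0 ≤ (k i : ℝ) / ((G.degree (z i) : ℝ) * Rs G (z i) K) :=
          div_nonneg (Nat.cast_nonneg _) (mul_nonneg (Nat.cast_nonneg _) (hR0 _ _))
        linarith
      have h9 : Pr G (z i) (Few (z i) K (k i) ∩ Hb (z p) K) ≤ 20 * Λ * lam / (κ * l) := by
        calc _ ≤ _ := h3
          _ ≤ (4 * Λ / l) * (5 * lam / κ) :=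
              mul_le_mul h4 h7 h8 (by positivity)
          _ = 20 * Λ * lam / (κ * l) := by field_simp; ring
      rw [hq]; simp only
      linarith
    have hmul : P * B ≥ (Λ / (4 * l) - ((N : ℝ) + 1) * μ) * B :=
      mul_le_mul_of_nonneg_right hPl hB0
    have hmul2 : Λ / (4 * l) * (q i - 20 * Λ * lam / (κ * l)) ≤ Λ / (4 * l) * B :=
      mul_le_mul_of_nonneg_left hBl (by positivity)
    have hmul3 : ((N : ℝ) + 1) * μ * B ≤ ((N : ℝ) + 1) * μ := by
      have : 0 ≤ ((N : ℝ) + 1) * μ := by positivity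
      nlinarith
    have : (Λ / (4 * l) - ((N : ℝ) + 1) * μ) * B =
        Λ / (4 * l) * B - ((N : ℝ) + 1) * μ * B := by ring
    linarith
  -- (4)
  have hdisj : ∀ p ≤ N, ∑ i ∈ Finset.range (N + 1),
      Pr G r (Last z k K N i ∩ Few (z p) K (k p)) ≤ 5 * lam / κ := by
    intro p hp
    have hmeasF : ∀ i, MeasurableSet (Last z k K N i ∩ Few (z p) K (k p)) := by
      intro i
      have h3 : (Last z k K N i : Set (ℕ → V)) = Few (z i) K (k i) ∩
          ⋂ j ∈ Finset.Ioc i N, (Few (z j) K (k j))ᶜ := by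
        ext w
        simp only [Last, Set.mem_ofPred_eq, Set.mem_inter_iff, Set.mem_iInter, Finset.mem_Ioc,
          Set.mem_compl_iff]
        constructor
        · rintro ⟨a, b⟩; exact ⟨a, fun j hj => b j hj.1 hj.2⟩
        · rintro ⟨a, b⟩; exact ⟨a, fun j h1 h2 => b j ⟨h1, h2⟩⟩
      rw [h3]
      refine ((meas_Few _ _ _).inter ?_).inter (meas_Few _ _ _)
      exact Finset.measurableSet_biInter _ (fun j _ => (meas_Few _ _ _).compl)
    have h4 : ∑ i ∈ Finset.range (N + 1), Pr G r (Last z k K N i ∩ Few (z p) K (k p)) =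
        Pr G r (⋃ i ∈ Finset.range (N + 1), Last z k K N i ∩ Few (z p) K (k p)) := by
      unfold Pr
      rw [measureReal_biUnion_finset]
      · intro i hi j hj hij
        simp only [Function.onFun]
        rw [Set.disjoint_left]
        rintro w ⟨ha, -⟩ ⟨hb, -⟩
        exact last_disj z k K N (by simpa [Nat.lt_succ_iff] using hi)
          (by simpa [Nat.lt_succ_iff] using hj) hij w ha hb
      · intro i _; exact hmeasF i
    rw [h4]
    refine (Pr_mono G r ?_).trans (hone p hp)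
    intro w hw
    simp only [Set.mem_iUnion] at hw
    obtain ⟨i, -, hwi⟩ := hw
    exact hwi.2
  have hR := hFarR N L0 i0 κ ρ lam μ q
    (fun i p => Pr G r (Last z k K N i ∩ Few (z p) K (k p))) hκ hρ hρ1 hρl hμ hNρ hL0 hLi
    (fun i _ => by rw [hq]; exact Pr_nonneg G _ _)
    (fun i p => Pr_nonneg G _ _) hdisj hL
  -- (5)
  have hsub : {w | ∃ i ≤ N, w ∈ Few (z i) K (k i)} ⊆
      (⋃ i ∈ (Finset.range i0).filter (fun i => i ≤ N), Few (z i) K (k i)) ∪
        (⋃ i ∈ Finset.Icc i0 N, Last z k K N i) := by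
    intro w hw
    obtain ⟨i, hi, hwi⟩ := exists_last z k K N w hw
    by_cases hii : i < i0
    · left
      simp only [Set.mem_iUnion, Finset.mem_filter, Finset.mem_range]
      exact ⟨i, ⟨hii, hi⟩, hwi.1⟩
    · right
      simp only [Set.mem_iUnion, Finset.mem_Icc]
      exact ⟨i, ⟨by omega, hi⟩, hwi⟩
  have h5 := Pr_mono G r hsub
  have h6 := Pr_union_le G r
    (⋃ i ∈ (Finset.range i0).filter (fun i => i ≤ N), Few (z i) K (k i))
    (⋃ i ∈ Finset.Icc i0 N, Last z k K N i)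
  have h7 : Pr G r (⋃ i ∈ (Finset.range i0).filter (fun i => i ≤ N), Few (z i) K (k i)) ≤
      5 * i0 * lam / κ := by
    refine (Pr_biUnion_le G r _ _).trans ?_
    refine (Finset.sum_le_sum (fun i hi => hone i (Finset.mem_filter.mp hi).2)).trans ?_
    rw [Finset.sum_const, nsmul_eq_mul]
    have h8 : ((((Finset.range i0).filter (fun i => i ≤ N)).card : ℕ) : ℝ) ≤ (i0 : ℝ) := by
      have := Finset.card_filter_le (Finset.range i0) (fun i => i ≤ N)
      rw [Finset.card_range] at this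
      exact_mod_cast this
    calc _ ≤ (i0 : ℝ) * (5 * lam / κ) := mul_le_mul_of_nonneg_right h8 (by positivity)
      _ = 5 * i0 * lam / κ := by ring
  have h8 : Pr G r (⋃ i ∈ Finset.Icc i0 N, Last z k K N i) ≤
      (120 / κ + 32 * μ / ρ ^ 3) / Real.log (((i0 : ℝ) + 1) / L0) + 4 * μ / ρ ^ 2 := by
    refine (Pr_biUnion_le G r _ _).trans ?_
    refine (Finset.sum_le_sum (fun i hi => hU i (Finset.mem_Icc.mp hi).2)).trans ?_
    rw [Finset.sum_add_distrib, Finset.sum_const, nsmul_eq_mul, Nat.card_Icc]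
    have h9 : ((N + 1 - i0 : ℕ) : ℝ) ≤ (N : ℝ) + 1 := by
      have : N + 1 - i0 ≤ N + 1 := Nat.sub_le _ _
      exact_mod_cast this
    have h10 : ((N + 1 - i0 : ℕ) : ℝ) * (((N : ℝ) + 1) * μ) ≤ 4 * μ / ρ ^ 2 := by
      calc ((N + 1 - i0 : ℕ) : ℝ) * (((N : ℝ) + 1) * μ)
          ≤ (2 / ρ) * ((2 / ρ) * μ) := by
            apply mul_le_mul (h9.trans hNp) (mul_le_mul_of_nonneg_right hNp hμ)
              (by positivity) (by positivity)
        _ = 4 * μ / ρ ^ 2 := by field_simp; ring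
    linarith
  have h9 : {w | ∃ i ≤ N, w ∈ Few (z i) K ⌈lam * nn G * (G.degree (z i) : ℝ)⌉₊} =
      {w | ∃ i ≤ N, w ∈ Few (z i) K (k i)} := by rw [hk]
  rw [h9]
  linarith

end Q287.CV
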