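import Pool.Agent.Q287.CV.Stm

/-!
# Cover cost: assembly
-/

set_option autoImplicit false

namespace Q287.CV

open MeasureTheory Finset
open scoped ENNReal

/-- one vertex: the cover time is zero -/
lemma CT_eq_zero_of_card_le_one {V : Type} [Fintype V] [DecidableEq V] (G : SimpleGraph V)
    [DecidableRel G.Adj] (h1 : Fintype.card V ≤ 1) (r : V) : CT G r = 0 := by
  have huniv : ∀ S : Finset V, r ∈ S → S = univ := by
    intro S hS
    ext y
    simp only [mem_univ, iff_true]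
    have : y = r := Fintype.card_le_one_iff.mp h1 y r
    rw [this]; exact hS
  have key : ∀ (t : ℕ) (S : Finset V) (x : V), r ∈ S →
      ex G t (fun S => if S = univ then 0 else 1) S x = 0 := by
    intro t
    induction t with
    | zero => intro S x hS; simp [ex, huniv S hS]
    | succ t ih =>
      intro S x hS
      simp only [ex]
      rw [Finset.sum_eq_zero (fun y _ => ih _ _ (Finset.mem_insert_of_mem hS))]
      simp
  unfold CT
  simp [key _ _ _ (Finset.mem_singleton_self r)]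

theorem t_FIN (hRes : S_Res) (hGr : S_Gr) (hCtl : S_Ctl) (hHitt : S_Hitt) (hGen : S_Gen)
    (hCov : S_Cov) (hPt1 : S_Pt1) (hCtb : S_Ctb) : S_Fin := by
  intro M hM
  obtain ⟨A, hA, n1, hG1⟩ := hGen (1 / 4) (by norm_num)
  obtain ⟨τ, hτ⟩ : ∃ τ : ℝ, τ = M / 8 := ⟨_, rfl⟩
  have hτ0 : 0 < τ := by rw [hτ]; positivity
  obtain ⟨η, hη⟩ : ∃ η : ℝ, η = M / (8 * (16 * A + 4)) := ⟨_, rfl⟩
  have hη0 : 0 < η := by rw [hη]; positivity
  have hηM : 2 * η * (16 * A + 4) = M / 4 := by
    rw [hη]; field_simp; ring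
  obtain ⟨A', hA', n2, hG2⟩ := hGen η hη0
  obtain ⟨ε, hε⟩ : ∃ ε : ℝ, ε = η * τ / A' := ⟨_, rfl⟩
  have hε0 : 0 < ε := by rw [hε]; positivity
  obtain ⟨δ, hδ, n3, hC1⟩ := hCov ε η τ hε0 hη0 hτ0
  obtain ⟨n4, hn4⟩ := exists_nat_ge (2 / τ)
  obtain ⟨n0, hn0⟩ : ∃ n0 : ℕ, n0 = max (max n1 n2) (max n3 n4) := ⟨_, rfl⟩
  have hn01 : n1 ≤ n0 := by rw [hn0]; exact le_max_of_le_left (le_max_left _ _)
  have hn02 : n2 ≤ n0 := by rw [hn0]; exact le_max_of_le_left (le_max_right _ _)
  have hn03 : n3 ≤ n0 := by rw [hn0]; exact le_max_of_le_right (le_max_left _ _)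
  have hn04 : n4 ≤ n0 := by rw [hn0]; exact le_max_of_le_right (le_max_right _ _)
  obtain ⟨d, hd⟩ : ∃ d : ℝ, d = min δ 4 := ⟨_, rfl⟩
  have hd0 : 0 < d := by rw [hd]; exact lt_min hδ (by norm_num)
  have hd4 : d ≤ 4 := by rw [hd]; exact min_le_right _ _
  have hdδ : d ≤ δ := by rw [hd]; exact min_le_left _ _
  obtain ⟨c, hc⟩ : ∃ c : ℝ, c = min (d ^ 2 / 16) (1 / (2 * (n0 : ℝ) ^ 3 + 2)) := ⟨_, rfl⟩
  have hc0 : 0 < c := by rw [hc]; exact lt_min (by positivity) (by positivity)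
  have hc1 : c ≤ d ^ 2 / 16 := by rw [hc]; exact min_le_left _ _
  have hc2 : c ≤ 1 / (2 * (n0 : ℝ) ^ 3 + 2) := by rw [hc]; exact min_le_right _ _
  refine ⟨c, hc0, ?_⟩
  intro V _ _ G _ hG r hCT
  have h2 : 2 ≤ Fintype.card V := by
    by_contra h
    rw [CT_eq_zero_of_card_le_one G (by omega) r] at hCT
    exact absurd hCT (by simp)
  letI : MeasurableSpace V := ⊤
  haveI : DiscreteMeasurableSpace V := ⟨fun _ => trivial⟩
  obtain ⟨hCT', hcc⟩ := hCtl V G hG h2 r
  have hhit := hHitt V G hG h2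
  obtain ⟨-, -, -, -, -, -, -, -, -, -, hDD, hHit0, -⟩ := hGr V G hG h2
  obtain ⟨-, -, -, -, -, -, -, hHeq, -, -⟩ := hRes V G hG h2
  have hcard : (2 : ℝ) ≤ (Fintype.card V : ℝ) := by exact_mod_cast h2
  have hn1 : 1 ≤ nn G := by unfold nn; linarith
  have hnpos : 0 < nn G := by linarith
  change ENNReal.ofReal (M * nn G ^ 3) < CT G r at hCT
  change ENNReal.ofReal (c * nn G ^ 3) < cc G r
  have hcc' : cc G r = ENNReal.ofReal ((∑ y : V, Hit G r y) / nn G) := by
    rw [hcc, ENNReal.ofReal_div_of_pos hnpos, ENNReal.ofReal_sum_of_nonneg (fun y _ => hHit0 r y)]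
    simp only [hhit]
  have hn3 : 1 ≤ nn G ^ 3 := one_le_pow₀ hn1
  rw [hcc']
  rw [ENNReal.ofReal_lt_ofReal_iff_of_nonneg (by positivity), lt_div_iff₀ hnpos]
  by_cases hsmall : nn G < (n0 : ℝ)
  · -- few vertices
    have hH1 : ∀ y, y ≠ r → 1 ≤ Hit G r y := by
      intro y hy
      have h := hHeq y r
      rw [if_neg (Ne.symm hy)] at h
      have hs : 0 ≤ ∑ z ∈ G.neighborFinset r, Hit G z y := Finset.sum_nonneg (fun z _ => hHit0 z y)
      have hdeg : (0 : ℝ) < (G.degree r : ℝ) := by exact_mod_cast deg_pos G hG h2 r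
      have : (G.degree r : ℝ) * 1 ≤ (G.degree r : ℝ) * Hit G r y := by linarith
      exact le_of_mul_le_mul_left this hdeg
    have hsum : nn G ≤ ∑ y : V, Hit G r y := by
      calc nn G = ∑ y ∈ (univ : Finset V).erase r, (1 : ℝ) := by
            rw [Finset.sum_const, nsmul_eq_mul, mul_one, Finset.card_erase_of_mem (mem_univ r),
              Finset.card_univ]
            unfold nn
            rw [Nat.cast_sub (by omega)]; simp
        _ ≤ ∑ y ∈ (univ : Finset V).erase r, Hit G r y :=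
            Finset.sum_le_sum (fun y hy => hH1 y (Finset.ne_of_mem_erase hy))
        _ ≤ ∑ y : V, Hit G r y :=
            Finset.sum_le_sum_of_subset_of_nonneg (Finset.erase_subset _ _)
              (fun y _ _ => hHit0 r y)
    have hlt : c * nn G ^ 3 < 1 := by
      have h3 : nn G ^ 3 ≤ (n0 : ℝ) ^ 3 := pow_le_pow_left₀ hnpos.le hsmall.le 3
      have h4 : c * nn G ^ 3 ≤ 1 / (2 * (n0 : ℝ) ^ 3 + 2) * (n0 : ℝ) ^ 3 :=
        mul_le_mul hc2 h3 (by positivity) (by positivity)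
      refine lt_of_le_of_lt h4 ?_
      rw [div_mul_eq_mul_div, one_mul, div_lt_one (by positivity)]
      have : (0 : ℝ) ≤ (n0 : ℝ) ^ 3 := by positivity
      linarith
    calc c * nn G ^ 3 * nn G < 1 * nn G := by
          exact mul_lt_mul_of_pos_right hlt hnpos
      _ ≤ ∑ y : V, Hit G r y := by rw [one_mul]; exact hsum
  · push Not at hsmall
    have hs1 : (n1 : ℝ) ≤ nn G := le_trans (by exact_mod_cast hn01) hsmall
    have hs2 : (n2 : ℝ) ≤ nn G := le_trans (by exact_mod_cast hn02) hsmall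
    have hs3 : (n3 : ℝ) ≤ nn G := le_trans (by exact_mod_cast hn03) hsmall
    have hs4 : 2 / τ ≤ nn G := le_trans hn4 (le_trans (by exact_mod_cast hn04) hsmall)
    by_cases hx : ∃ x₀, d * nn G ^ 3 ≤ Hit G r x₀
    · obtain ⟨x₀, hx₀⟩ := hx
      have h := hPt1 V G hG h2 r x₀ d hd0.le hd4 hx₀
      refine lt_of_lt_of_le ?_ h
      have h5 : 0 < d ^ 2 * nn G ^ 4 := by positivity
      calc c * nn G ^ 3 * nn G ≤ d ^ 2 / 16 * nn G ^ 3 * nn G := by
            apply mul_le_mul_of_nonneg_right _ hnpos.le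
            exact mul_le_mul_of_nonneg_right hc1 (by positivity)
        _ = d ^ 2 * nn G ^ 4 / 16 := by ring
        _ < d ^ 2 * nn G ^ 4 / 8 := by linarith
    · exfalso
      push Not at hx
      have hn3p : 0 < nn G ^ 3 := by positivity
      -- the time `T₂` after which the walk has covered with probability `1 / 2` from everywhere
      obtain ⟨T₂, hT₂⟩ : ∃ T₂ : ℕ, T₂ = ⌈8 * A * nn G ^ 3⌉₊ := ⟨_, rfl⟩
      have hT₂1 : 8 * A * nn G ^ 3 ≤ (T₂ : ℝ) + 1 := by
        rw [hT₂]; linarith [Nat.le_ceil (8 * A * nn G ^ 3)]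
      have hT₂2 : (T₂ : ℝ) + 1 ≤ (8 * A + 2) * nn G ^ 3 := by
        rw [hT₂]
        have := (Nat.ceil_lt_add_one (show 0 ≤ 8 * A * nn G ^ 3 by positivity)).le
        nlinarith
      have hDn : DD G * nn G ≤ 2 * nn G ^ 3 := by
        calc DD G * nn G ≤ 2 * nn G ^ 2 * nn G := mul_le_mul_of_nonneg_right hDD hnpos.le
          _ = 2 * nn G ^ 3 := by ring
      have hhalf : ∀ x, Pr G x (NC T₂) ≤ 1 / 2 := by
        intro x
        have h := hG1 V G hG h2 hs1 x T₂
        have h6 : A * DD G * nn G / ((T₂ : ℝ) + 1) ≤ 1 / 4 := by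
          rw [div_le_iff₀ (by positivity)]
          nlinarith [mul_le_mul_of_nonneg_left hDn hA.le]
        linarith
      obtain ⟨T, hT⟩ : ∃ T : ℕ, T = ⌈τ * nn G ^ 3⌉₊ := ⟨_, rfl⟩
      have hT1 : τ * nn G ^ 3 ≤ (T : ℝ) + 1 := by
        rw [hT]; linarith [Nat.le_ceil (τ * nn G ^ 3)]
      have hT2 : (T : ℝ) + 1 ≤ M * nn G ^ 3 / 4 := by
        have h7 := (Nat.ceil_lt_add_one (show 0 ≤ τ * nn G ^ 3 by positivity)).le
        have h8 : 2 ≤ τ * nn G ^ 3 := by
          have h9 : 2 ≤ nn G * τ := (div_le_iff₀ hτ0).mp hs4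
          have h10 : nn G ≤ nn G ^ 3 := by
            calc nn G = nn G ^ 1 := (pow_one _).symm
              _ ≤ nn G ^ 3 := pow_le_pow_right₀ hn1 (by norm_num)
          nlinarith
        rw [hT]
        have h11 : M * nn G ^ 3 / 4 = 2 * (τ * nn G ^ 3) := by rw [hτ]; ring
        rw [h11]; linarith
      have hPr : Pr G r (NC T) ≤ 2 * η := by
        by_cases hD : ε * nn G ^ 2 ≤ DD G
        · have := hC1 V G hG h2 hs3 hD r
            (fun x => (hx x).le.trans (mul_le_mul_of_nonneg_right hdδ (by positivity))) T hT1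
          linarith
        · push Not at hD
          have h := hG2 V G hG h2 hs2 r T
          have h12 : A' * DD G * nn G / ((T : ℝ) + 1) ≤ η := by
            rw [div_le_iff₀ (by positivity)]
            calc A' * DD G * nn G = A' * (DD G * nn G) := by ring
              _ ≤ A' * (ε * nn G ^ 2 * nn G) := by
                  apply mul_le_mul_of_nonneg_left _ hA'.le
                  exact mul_le_mul_of_nonneg_right hD.le hnpos.le
              _ = η * (τ * nn G ^ 3) := by rw [hε]; field_simp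
              _ ≤ η * ((T : ℝ) + 1) := mul_le_mul_of_nonneg_left hT1 hη0.le
          linarith
      have hfin := hCtb V G hG h2 r T T₂ hhalf
      rw [← hCT'] at hfin
      have h13 : (T : ℝ) + 1 + Pr G r (NC T) * (2 * ((T₂ : ℝ) + 1)) ≤ M * nn G ^ 3 := by
        have h14 : Pr G r (NC T) * (2 * ((T₂ : ℝ) + 1)) ≤ 2 * η * ((16 * A + 4) * nn G ^ 3) := by
          apply mul_le_mul hPr (by linarith) (by positivity) (by positivity)
        have h15 : 2 * η * ((16 * A + 4) * nn G ^ 3) = M * nn G ^ 3 / 4 := by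
          calc 2 * η * ((16 * A + 4) * nn G ^ 3) = (2 * η * (16 * A + 4)) * nn G ^ 3 := by ring
            _ = M * nn G ^ 3 / 4 := by rw [hηM]; ring
        have : 0 < M * nn G ^ 3 := by positivity
        linarith
      exact absurd (lt_of_lt_of_le hCT (hfin.trans (ENNReal.ofReal_le_ofReal h13))) (lt_irrefl _)

end Q287.CV
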