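import Pool.Agent.Q287.CV.Base

/-!
# Cover cost: small lemmas for everybody (maximum principle, measurability of the events)
-/

set_option autoImplicit false
set_option linter.unusedSectionVars false

namespace Q287.CV

open MeasureTheory Finset
open scoped ENNReal

section Max

variable {V : Type} [Fintype V] [DecidableEq V] (G : SimpleGraph V) [DecidableRel G.Adj]

/-- in a connected graph with at least two vertices all degrees are positive -/
theorem deg_pos (hG : G.Connected) (h2 : 2 ≤ Fintype.card V) (x : V) : 0 < G.degree x := by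
  have : Nontrivial V := Fintype.one_lt_card_iff_nontrivial.mp (by omega)
  exact hG.preconnected.degree_pos_of_nontrivial x

/-- **Maximum principle.** A function which is subharmonic off a nonempty set `A` and nonpositive on
`A` is nonpositive. -/
theorem max_principle (hG : G.Connected) (h2 : 2 ≤ Fintype.card V) (A : Set V) (hA : A.Nonempty)
    (f : V → ℝ) (hf : ∀ x, x ∉ A → (G.degree x : ℝ) * f x ≤ ∑ y ∈ G.neighborFinset x, f y)
    (h0 : ∀ x ∈ A, f x ≤ 0) (x : V) : f x ≤ 0 := by
  classical
  obtain ⟨a, ha⟩ := hA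
  haveI : Nonempty V := ⟨a⟩
  obtain ⟨m, -, hm⟩ := Finset.exists_max_image (univ : Finset V) f ⟨a, mem_univ a⟩
  by_contra hx
  push Not at hx
  have hmpos : 0 < f m := lt_of_lt_of_le hx (hm x (mem_univ x))
  -- the set of maximum points is closed under neighbours
  have hstep : ∀ u, f u = f m → ∀ v, G.Adj u v → f v = f m := by
    intro u hu v huv
    have huA : u ∉ A := fun h => absurd (h0 u h) (not_le.mpr (hu ▸ hmpos))
    have h1 := hf u huA
    have h2' : ∑ y ∈ G.neighborFinset u, f y ≤ ∑ y ∈ G.neighborFinset u, f m :=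
      Finset.sum_le_sum (fun y _ => hm y (mem_univ y))
    have h3 : ∑ y ∈ G.neighborFinset u, f m = (G.degree u : ℝ) * f m := by
      rw [Finset.sum_const, G.card_neighborFinset_eq_degree, nsmul_eq_mul]
    have h4 : ∑ y ∈ G.neighborFinset u, (f m - f y) = 0 := by
      rw [Finset.sum_sub_distrib, h3]
      rw [hu] at h1
      linarith
    have h5 := (Finset.sum_eq_zero_iff_of_nonneg (fun y _ => sub_nonneg.mpr (hm y (mem_univ y)))).mp
      h4 v (by rw [SimpleGraph.mem_neighborFinset]; exact huv)
    linarith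
  have hall : ∀ v, G.Reachable m v → f v = f m := by
    intro v hv
    obtain ⟨p⟩ := hv
    have key : ∀ {u v : V} (p : G.Walk u v), f u = f m → f v = f m := by
      intro u v p
      induction p with
      | nil => exact id
      | cons h p ih => intro hu; exact ih (hstep _ hu _ h)
    exact key p rfl
  have hma := hall a (hG.preconnected m a)
  have := h0 a ha
  rw [hma] at this
  linarith

/-- **Maximum principle, two functions**: `f` subharmonic and `g` superharmonic off `A`, `f ≤ g` on
`A`, then `f ≤ g`. The averages are written with division, as `Pr` is computed. -/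
theorem max_principle' (hG : G.Connected) (h2 : 2 ≤ Fintype.card V) (A : Set V) (hA : A.Nonempty)
    (f g : V → ℝ)
    (hf : ∀ x, x ∉ A → f x ≤ (∑ y ∈ G.neighborFinset x, f y) / (G.degree x : ℝ))
    (hg : ∀ x, x ∉ A → (∑ y ∈ G.neighborFinset x, g y) / (G.degree x : ℝ) ≤ g x)
    (h0 : ∀ x ∈ A, f x ≤ g x) (x : V) : f x ≤ g x := by
  have := max_principle G hG h2 A hA (fun x => f x - g x) (fun y hy => ?_)
    (fun y hy => sub_nonpos.mpr (h0 y hy)) x
  · exact sub_nonpos.mp this
  · have hd : (0 : ℝ) < (G.degree y : ℝ) := by exact_mod_cast deg_pos G hG h2 y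
    have h1 := hf y hy
    have h2' := hg y hy
    rw [le_div_iff₀ hd] at h1
    rw [div_le_iff₀ hd] at h2'
    simp only [Finset.sum_sub_distrib]
    nlinarith [h1, h2']

end Max

section Meas

variable {V : Type} [Fintype V] [DecidableEq V] [MeasurableSpace V] [DiscreteMeasurableSpace V]

/-- a set of paths which is determined by the positions up to time `t` is measurable -/
theorem Det.measurableSet {t : ℕ} {D : Set (ℕ → V)} (h : Det t D) : MeasurableSet D := by
  classical
  have h1 : Measurable (fun w : ℕ → V => fun s : Fin (t + 1) => w s) :=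
    measurable_pi_iff.mpr (fun s => measurable_pi_apply _)
  have h2 : D = (fun w : ℕ → V => fun s : Fin (t + 1) => w s) ⁻¹'
      ((fun w : ℕ → V => fun s : Fin (t + 1) => w s) '' D) := by
    ext w
    constructor
    · intro hw; exact ⟨w, hw, rfl⟩
    · rintro ⟨w', hw', he⟩
      refine h w' w (fun s hs => ?_) hw'
      exact congrFun he ⟨s, Nat.lt_succ_of_le hs⟩
  rw [h2]
  exact h1 (Set.toFinite _).measurableSet

theorem Det.mono {t t' : ℕ} {D : Set (ℕ → V)} (h : Det t D) (htt : t ≤ t') : Det t' D :=
  fun w w' hw hD => h w w' (fun s hs => hw s (hs.trans htt)) hD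

theorem Det.inter {t : ℕ} {D E : Set (ℕ → V)} (h : Det t D) (h' : Det t E) : Det t (D ∩ E) :=
  fun w w' hw hD => ⟨h w w' hw hD.1, h' w w' hw hD.2⟩

theorem Det.compl {t : ℕ} {D : Set (ℕ → V)} (h : Det t D) : Det t Dᶜ :=
  fun w w' hw hD hD' => hD (h w' w (fun s hs => (hw s hs).symm) hD')

theorem Det.union {t : ℕ} {D E : Set (ℕ → V)} (h : Det t D) (h' : Det t E) : Det t (D ∪ E) :=
  fun w w' hw hD => hD.elim (fun a => Or.inl (h w w' hw a)) (fun a => Or.inr (h' w w' hw a))

theorem cnt_congr {w w' : ℕ → V} {t : ℕ} (h : ∀ s < t, w s = w' s) (v : V) :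
    cnt w v t = cnt w' v t := by
  unfold cnt
  congr 1
  apply Finset.filter_congr
  intro s hs
  rw [h s (Finset.mem_range.mp hs)]

theorem det_at (t : ℕ) (z : V) : Det t {w : ℕ → V | w t = z} := by
  intro w w' h hw
  simp only [Set.mem_setOf_eq] at hw ⊢
  rw [← h t le_rfl]; exact hw

theorem det_avoid (t : ℕ) (z : V) : Det t {w : ℕ → V | ∀ s ≤ t, w s ≠ z} := by
  intro w w' h hw s hs
  rw [← h s hs]; exact hw s hs

theorem det_avoid' (t : ℕ) (z : V) : Det t {w : ℕ → V | ∀ s < t, w s ≠ z} := by
  intro w w' h hw s hs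
  rw [← h s hs.le]; exact hw s hs

theorem det_fst (t : ℕ) (z : V) : Det t {w : ℕ → V | Fst w z t} := by
  intro w w' h hw
  obtain ⟨h1, h2⟩ := hw
  refine ⟨by rw [← h t le_rfl]; exact h1, fun s hs => ?_⟩
  rw [← h s hs.le]; exact h2 s hs

theorem det_cnt (t : ℕ) (v : V) (P : ℕ → Prop) : Det t {w : ℕ → V | P (cnt w v t)} := by
  intro w w' h hw
  simp only [Set.mem_setOf_eq] at hw ⊢
  rw [← cnt_congr (fun s hs => h s hs.le) v]; exact hw

theorem det_cnt' (t : ℕ) (v : V) (P : ℕ → Prop) : Det t {w : ℕ → V | P (cnt w v (t + 1))} := by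
  intro w w' h hw
  simp only [Set.mem_setOf_eq] at hw ⊢
  rw [← cnt_congr (fun s hs => h s (Nat.lt_succ_iff.mp hs)) v]; exact hw

theorem det_NC (t : ℕ) : Det t (NC t : Set (ℕ → V)) := by
  rintro w w' h ⟨y, hy⟩
  exact ⟨y, fun s hs => by rw [← h s hs]; exact hy s hs⟩

theorem det_Late (K : V) (k T : ℕ) : Det T (Late K k T : Set (ℕ → V)) :=
  det_cnt' T K (fun m => m ≤ k)

theorem meas_iUnion_det {P : ℕ → (ℕ → V) → Prop} (h : ∀ t, Det t {w | P t w}) :
    MeasurableSet {w : ℕ → V | ∃ t, P t w} := by
  have : {w : ℕ → V | ∃ t, P t w} = ⋃ t, {w | P t w} := by ext w; simp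
  rw [this]
  exact MeasurableSet.iUnion (fun t => (h t).measurableSet)

theorem meas_Hb (v z : V) : MeasurableSet (Hb v z : Set (ℕ → V)) :=
  meas_iUnion_det (fun t => (det_at t v).inter (det_avoid t z))

theorem meas_Few (v K : V) (k : ℕ) : MeasurableSet (Few v K k : Set (ℕ → V)) :=
  meas_iUnion_det (fun t => (det_fst t K).inter (det_cnt t v (fun m => m ≤ k)))

theorem meas_Low (u : V) (k : ℕ) (y : V) (a : ℕ) : MeasurableSet (Low u k y a : Set (ℕ → V)) :=
  meas_iUnion_det (fun t => (det_at t u).inter ((det_cnt t u (fun m => m = k)).inter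
    (det_cnt t y (fun m => m ≤ a))))

theorem meas_Unv (u : V) (k : ℕ) (y : V) : MeasurableSet (Unv u k y : Set (ℕ → V)) :=
  meas_iUnion_det (fun t => (det_at t u).inter ((det_cnt t u (fun m => m = k)).inter
    (det_avoid t y)))

theorem meas_NC (t : ℕ) : MeasurableSet (NC t : Set (ℕ → V)) := (det_NC t).measurableSet

theorem meas_Late (K : V) (k T : ℕ) : MeasurableSet (Late K k T : Set (ℕ → V)) :=
  (det_Late K k T).measurableSet

theorem measurable_sh (t : ℕ) : Measurable (fun w : ℕ → V => sh t w) :=
  measurable_pi_iff.mpr (fun _ => measurable_pi_apply _)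

/-- the number of visits up to time `t + s` is the number up to time `t` plus the number for the
shifted path -/
theorem cnt_sh (w : ℕ → V) (v : V) (t s : ℕ) : cnt w v (t + s) = cnt w v t + cnt (sh t w) v s := by
  induction s with
  | zero => simp [cnt]
  | succ s ih =>
    have h1 : cnt w v (t + (s + 1)) = cnt w v (t + s) + if w (t + s) = v then 1 else 0 := by
      unfold cnt
      rw [← add_assoc, Finset.range_add_one, Finset.filter_insert]
      split_ifs with h
      · rw [Finset.card_insert_of_notMem (by simp)]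
      · simp
    have h2 : cnt (sh t w) v (s + 1) = cnt (sh t w) v s + if w (t + s) = v then 1 else 0 := by
      unfold cnt
      rw [Finset.range_add_one, Finset.filter_insert]
      by_cases h : w (t + s) = v
      · rw [if_pos (show sh t w s = v from h), Finset.card_insert_of_notMem (by simp), if_pos h]
      · rw [if_neg (show ¬ sh t w s = v from h), if_neg h]; simp
    rw [h1, h2, ih, add_assoc]

theorem cnt_succ (w : ℕ → V) (v : V) (t : ℕ) :
    cnt w v (t + 1) = cnt w v t + if w t = v then 1 else 0 := by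
  unfold cnt
  rw [Finset.range_add_one, Finset.filter_insert]
  split_ifs with h
  · rw [Finset.card_insert_of_notMem (by simp)]
  · simp

theorem cnt_mono (w : ℕ → V) (v : V) {s t : ℕ} (h : s ≤ t) : cnt w v s ≤ cnt w v t := by
  unfold cnt
  apply Finset.card_le_card
  apply Finset.filter_subset_filter
  exact Finset.range_mono h

theorem cnt_zero (w : ℕ → V) (v : V) : cnt w v 0 = 0 := by simp [cnt]

/-- if `v` is visited more than `k` times before time `t`, then there is a time `s < t` of visit
number `k + 1` to `v` -/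
theorem exists_visit (w : ℕ → V) (v : V) (t k : ℕ) (h : k < cnt w v t) :
    ∃ s < t, w s = v ∧ cnt w v s = k := by
  induction t with
  | zero => simp [cnt] at h
  | succ t ih =>
    by_cases hk : k < cnt w v t
    · obtain ⟨s, hs, h1⟩ := ih hk
      exact ⟨s, by omega, h1⟩
    · refine ⟨t, by omega, ?_⟩
      rw [cnt_succ] at h
      split_ifs at h with hw
      · exact ⟨hw, by omega⟩
      · omega

end Meas

end Q287.CV
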