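import Pool.Agent.Q287.CV.Stm
import Pool.Agent.Q287.CV.Prb

/-!
# Cover cost: NET, BALL, CTB
-/

set_option autoImplicit false
set_option linter.unusedSectionVars false

namespace Q287.CV

open MeasureTheory Finset
open scoped ENNReal

section Ball

variable {V : Type} [Fintype V] [DecidableEq V] (G : SimpleGraph V)

lemma dist_getVert (hG : G.Connected) {v x : V} (p : G.Walk v x) (hp : p.length = G.dist v x)
    (i : ℕ) (hi : i ≤ p.length) : G.dist v (p.getVert i) = i := by
  apply le_antisymm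
  · have h1 := G.dist_le (p.take i)
    rw [SimpleGraph.Walk.take_length] at h1
    exact h1.trans (min_le_left _ _)
  · have h1 := hG.dist_triangle (u := v) (v := p.getVert i) (w := x)
    have h2 := G.dist_le (p.drop i)
    rw [SimpleGraph.Walk.drop_length] at h2
    omega

open Classical in
lemma card_ball (hG : G.Connected) (v : V) (k : ℕ) :
    min (k + 1) (Fintype.card V) ≤ ((univ : Finset V).filter (fun z => G.dist v z ≤ k)).card := by
  by_cases h : ∃ x, k < G.dist v x
  · obtain ⟨x, hx⟩ := h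
    obtain ⟨p, hp⟩ := hG.exists_walk_length_eq_dist v x
    refine (min_le_left _ _).trans ?_
    have h1 : (Finset.range (k + 1)).card ≤
        ((univ : Finset V).filter (fun z => G.dist v z ≤ k)).card := by
      apply Finset.card_le_card_of_injOn (fun i => p.getVert i)
      · intro i hi
        simp only [Finset.coe_range, Set.mem_Iio] at hi
        simp only [Finset.coe_filter, mem_univ, true_and, Set.mem_ofPred_eq]
        rw [dist_getVert G hG p hp i (by omega)]; omega
      · intro i hi j hj hij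
        simp only [Finset.coe_range, Set.mem_Iio] at hi hj
        simp only at hij
        have h2 := dist_getVert G hG p hp i (by omega)
        have h3 := dist_getVert G hG p hp j (by omega)
        rw [← h2, ← h3, hij]
    rwa [Finset.card_range] at h1
  · push Not at h
    rw [Finset.filter_true_of_mem (fun z _ => h z), Finset.card_univ]
    exact min_le_right _ _

end Ball

open Classical in
theorem t_NET (hGr : S_Gr) : S_Net := by
  intro V _ _ G _ hG h2 s hs0 hs
  obtain ⟨-, -, -, -, -, -, hRd, -, -, -, -, -, -⟩ := hGr V G hG h2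
  obtain ⟨F, hF⟩ : ∃ F : Finset (Finset V), F = (univ : Finset (Finset V)).filter
    (fun S => ∀ a ∈ S, ∀ b ∈ S, a ≠ b → s < (G.dist a b : ℝ)) := ⟨_, rfl⟩
  have hFne : F.Nonempty := ⟨∅, by rw [hF]; simp⟩
  obtain ⟨S, hSF, hmax⟩ := Finset.exists_max_image F (fun S => S.card) hFne
  have hS : ∀ a ∈ S, ∀ b ∈ S, a ≠ b → s < (G.dist a b : ℝ) := by
    rw [hF] at hSF; exact (Finset.mem_filter.mp hSF).2
  refine ⟨S, ?_, ?_⟩
  · intro y
    by_contra hcon
    push Not at hcon
    have hfar : ∀ v ∈ S, s < (G.dist y v : ℝ) := fun v hv => (hcon v hv).trans_le (hRd y v)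
    have hyS : y ∉ S := by
      intro hy
      have := hfar y hy
      simp at this
      linarith
    have hins : insert y S ∈ F := by
      rw [hF]
      simp only [Finset.mem_filter, mem_univ, true_and, Finset.mem_insert]
      rintro a (rfl | ha) b (rfl | hb) hab
      · exact absurd rfl hab
      · exact hfar b hb
      · rw [G.dist_comm]; exact hfar a ha
      · exact hS a ha b hb hab
    have := hmax _ hins
    rw [Finset.card_insert_of_notMem hyS] at this
    omega
  · obtain ⟨k, hk⟩ : ∃ k : ℕ, k = ⌊s / 2⌋₊ := ⟨_, rfl⟩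
    have hk1 : (k : ℝ) ≤ s / 2 := by rw [hk]; exact Nat.floor_le (by positivity)
    have hk2 : s / 2 ≤ (k : ℝ) + 1 := by rw [hk]; exact (Nat.lt_floor_add_one _).le
    have hdisj : ∀ a ∈ S, ∀ b ∈ S, a ≠ b → Disjoint
        ((univ : Finset V).filter (fun z => G.dist a z ≤ k))
        ((univ : Finset V).filter (fun z => G.dist b z ≤ k)) := by
      intro a ha b hb hab
      rw [Finset.disjoint_left]
      intro z hz1 hz2
      simp only [Finset.mem_filter, mem_univ, true_and] at hz1 hz2
      have h1 := hS a ha b hb hab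
      have h3 := hG.dist_triangle (u := a) (v := z) (w := b)
      rw [G.dist_comm (u := z)] at h3
      have h4 : (G.dist a b : ℝ) ≤ 2 * (k : ℝ) := by
        have : G.dist a b ≤ 2 * k := by omega
        exact_mod_cast this
      linarith
    have hcardU := Finset.card_biUnion hdisj
    have hle : (S.biUnion (fun a => (univ : Finset V).filter (fun z => G.dist a z ≤ k))).card ≤
        Fintype.card V := Finset.card_le_univ _
    have hball : ∀ a : V, s / 2 ≤
        (((univ : Finset V).filter (fun z => G.dist a z ≤ k)).card : ℝ) := by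
      intro a
      have h1 := card_ball G hG a k
      have h3 : s / 2 ≤ ((min (k + 1) (Fintype.card V) : ℕ) : ℝ) := by
        rw [Nat.cast_min]
        apply le_min
        · push_cast; exact hk2
        · linarith
      exact h3.trans (by exact_mod_cast h1)
    calc (S.card : ℝ) * (s / 2) = ∑ a ∈ S, s / 2 := by rw [Finset.sum_const, nsmul_eq_mul]
      _ ≤ ∑ a ∈ S, (((univ : Finset V).filter (fun z => G.dist a z ≤ k)).card : ℝ) :=
          Finset.sum_le_sum (fun a _ => hball a)
      _ = ((S.biUnion (fun a => (univ : Finset V).filter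
            (fun z => G.dist a z ≤ k))).card : ℝ) := by
          rw [hcardU]; push_cast; rfl
      _ ≤ (Fintype.card V : ℝ) := by exact_mod_cast hle

open Classical in
theorem t_BALL (hGr : S_Gr) : S_Ball := by
  intro V _ _ G _ hG h2 v s hs0 hs
  obtain ⟨-, -, -, -, -, -, hRd, -, -, -, -, -, -⟩ := hGr V G hG h2
  obtain ⟨k, hk⟩ : ∃ k : ℕ, k = ⌊s⌋₊ := ⟨_, rfl⟩
  have hk1 : (k : ℝ) ≤ s := by rw [hk]; exact Nat.floor_le hs0
  have hk2 : s ≤ (k : ℝ) + 1 := by rw [hk]; exact (Nat.lt_floor_add_one _).le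
  refine ⟨(univ : Finset V).filter (fun z => G.dist v z ≤ k), ?_, ?_⟩
  · intro y hy
    simp only [Finset.mem_filter, mem_univ, true_and] at hy
    calc Rs G y v ≤ (G.dist y v : ℝ) := hRd y v
      _ ≤ (k : ℝ) := by rw [G.dist_comm]; exact_mod_cast hy
      _ ≤ s := hk1
  · have h1 := card_ball G hG v k
    have h3 : s ≤ ((min (k + 1) (Fintype.card V) : ℕ) : ℝ) := by
      rw [Nat.cast_min]
      apply le_min
      · push_cast; exact hk2
      · exact hs
    exact h3.trans (by exact_mod_cast h1)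

section Ctb

variable {V : Type} [Fintype V] [DecidableEq V] [MeasurableSpace V] [DiscreteMeasurableSpace V]
  (G : SimpleGraph V) [DecidableRel G.Adj]

/-- Markov property at a fixed time for `NC` -/
lemma markov_NC (hStop : S_Stop) (hG : G.Connected) (h2 : 2 ≤ Fintype.card V) (r : V) (t T₂ : ℕ)
    (hhalf : ∀ x, Pr G x (NC T₂) ≤ 1 / 2) :
    Pr G r {w | w ∈ NC t ∧ sh (t + 1) w ∈ NC T₂} ≤ Pr G r (NC t) / 2 := by
  have hz : ∀ z : V, Pr G r {w | (w ∈ NC t ∧ w (t + 1) = z) ∧ sh (t + 1) w ∈ NC T₂} ≤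
      Pr G r {w | w ∈ NC t ∧ w (t + 1) = z} * (1 / 2) := by
    intro z
    obtain ⟨D, hD⟩ : ∃ D : ℕ → Set (ℕ → V), D = fun s =>
      if s = t + 1 then {w | w ∈ NC t ∧ w (t + 1) = z} else ∅ := ⟨_, rfl⟩
    have hDt : D (t + 1) = {w | w ∈ NC t ∧ w (t + 1) = z} := by rw [hD]; simp
    have hDn : ∀ s, s ≠ t + 1 → D s = ∅ := by
      intro s hs; rw [hD]; simp [hs]
    have h := hStop V G hG h2 r z D ?_ ?_ ?_ (NC T₂) (meas_NC T₂)
    · have h1 : {w | ∃ s, w ∈ D s ∧ sh s w ∈ NC T₂} =
          {w | (w ∈ NC t ∧ w (t + 1) = z) ∧ sh (t + 1) w ∈ NC T₂} := by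
        ext w
        constructor
        · rintro ⟨s, hs1, hs2⟩
          by_cases hs : s = t + 1
          · subst hs
            rw [hDt] at hs1
            exact ⟨hs1, hs2⟩
          · rw [hDn s hs] at hs1; exact absurd hs1 (Set.notMem_empty _)
        · rintro ⟨h3, h4⟩
          exact ⟨t + 1, by rw [hDt]; exact h3, h4⟩
      have h3 : (⋃ s, D s) = {w | w ∈ NC t ∧ w (t + 1) = z} := by
        ext w
        simp only [Set.mem_iUnion]
        constructor
        · rintro ⟨s, hs1⟩
          by_cases hs : s = t + 1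
          · subst hs
            rw [hDt] at hs1
            exact hs1
          · rw [hDn s hs] at hs1; exact absurd hs1 (Set.notMem_empty _)
        · intro h4
          exact ⟨t + 1, by rw [hDt]; exact h4⟩
      rw [h1, h3] at h
      rw [h]
      exact mul_le_mul_of_nonneg_left (hhalf z) (Pr_nonneg G _ _)
    · intro s
      by_cases hs : s = t + 1
      · subst hs
        rw [hDt]
        exact ((det_NC t).mono (Nat.le_succ t)).inter (det_at (t + 1) z)
      · rw [hDn s hs]
        intro w w' _ hw; exact absurd hw (Set.notMem_empty _)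
    · intro s s' hss
      by_cases hs : s = t + 1
      · rw [hDn s' (by omega)]; exact Set.disjoint_empty _
      · rw [hDn s hs]; exact Set.empty_disjoint _
    · intro s w hw
      by_cases hs : s = t + 1
      · subst hs
        rw [hDt] at hw
        exact hw.2
      · rw [hDn s hs] at hw; exact absurd hw (Set.notMem_empty _)
  have hcov : {w | w ∈ NC t ∧ sh (t + 1) w ∈ NC T₂} ⊆
      ⋃ z ∈ (univ : Finset V), {w | (w ∈ NC t ∧ w (t + 1) = z) ∧ sh (t + 1) w ∈ NC T₂} := by
    rintro w ⟨h1, h3⟩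
    simp only [Set.mem_iUnion]
    exact ⟨w (t + 1), mem_univ _, ⟨h1, rfl⟩, h3⟩
  have hsum : ∑ z : V, Pr G r {w | w ∈ NC t ∧ w (t + 1) = z} = Pr G r (NC t) := by
    have h1 : (NC t : Set (ℕ → V)) = ⋃ z ∈ (univ : Finset V), {w | w ∈ NC t ∧ w (t + 1) = z} := by
      ext w
      simp only [Set.mem_iUnion]
      constructor
      · intro h; exact ⟨w (t + 1), mem_univ _, h, rfl⟩
      · rintro ⟨z, -, h, -⟩; exact h
    unfold Pr
    conv_rhs => rw [h1]
    rw [measureReal_biUnion_finset]
    · intro z _ z' _ hzz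
      simp only [Function.onFun]
      rw [Set.disjoint_left]
      rintro w ⟨-, ha⟩ ⟨-, hb⟩
      exact hzz (ha.symm.trans hb)
    · intro z _
      exact (((det_NC t).mono (Nat.le_succ t)).inter (det_at (t + 1) z)).measurableSet
  calc Pr G r {w | w ∈ NC t ∧ sh (t + 1) w ∈ NC T₂}
      ≤ ∑ z : V, Pr G r {w | (w ∈ NC t ∧ w (t + 1) = z) ∧ sh (t + 1) w ∈ NC T₂} :=
        (Pr_mono G r hcov).trans (Pr_biUnion_le G r _ _)
    _ ≤ ∑ z : V, Pr G r {w | w ∈ NC t ∧ w (t + 1) = z} * (1 / 2) :=
        Finset.sum_le_sum (fun z _ => hz z)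
    _ = Pr G r (NC t) / 2 := by rw [← Finset.sum_mul, hsum]; ring

lemma NC_anti {s t : ℕ} (h : s ≤ t) : (NC t : Set (ℕ → V)) ⊆ NC s := by
  rintro w ⟨y, hy⟩
  exact ⟨y, fun u hu => hy u (hu.trans h)⟩

end Ctb

theorem t_CTB (hStop : S_Stop) : S_Ctb := by
  intro V _ _ _ _ G _ hG h2 r T T₂ hhalf
  obtain ⟨m, hm⟩ : ∃ m, m = T₂ + 1 := ⟨_, rfl⟩
  obtain ⟨b, hb⟩ : ∃ b : ℕ → ℝ, b = fun j => Pr G r (NC (T + j * m)) := ⟨_, rfl⟩
  have hb0 : ∀ j, 0 ≤ b j := fun j => by rw [hb]; exact Pr_nonneg G _ _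
  have hstep : ∀ j, b (j + 1) ≤ b j / 2 := by
    intro j
    rw [hb]
    simp only
    refine (Pr_mono G r ?_).trans (markov_NC G hStop hG h2 r (T + j * m) T₂ hhalf)
    rintro w ⟨y, hy⟩
    have he : T + (j + 1) * m = T + j * m + 1 + T₂ := by rw [hm]; ring
    rw [he] at hy
    exact ⟨⟨y, fun s hs => hy s (by omega)⟩, ⟨y, fun s hs => hy _ (by omega)⟩⟩
  have hgeo : ∀ j, b j ≤ b 0 * (1 / 2) ^ j := by
    intro j
    induction j with
    | zero => simp
    | succ j ih => rw [pow_succ]; linarith [hstep j]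
  have hblock : ∀ j, ∑ t ∈ Finset.range (j * m), Pr G r (NC (T + 1 + t)) ≤
      (m : ℝ) * b 0 * (2 - 2 * (1 / 2) ^ j) := by
    intro j
    induction j with
    | zero => simp
    | succ j ih =>
      rw [Nat.succ_mul, Finset.sum_range_add]
      have h1 : ∑ t ∈ Finset.range m, Pr G r (NC (T + 1 + (j * m + t))) ≤
          ∑ t ∈ Finset.range m, b j := by
        apply Finset.sum_le_sum
        intro t _
        rw [hb]
        exact Pr_mono G r (NC_anti (by omega))
      rw [Finset.sum_const, Finset.card_range, nsmul_eq_mul] at h1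
      have h3 : (m : ℝ) * b j ≤ (m : ℝ) * (b 0 * (1 / 2) ^ j) :=
        mul_le_mul_of_nonneg_left (hgeo j) (Nat.cast_nonneg _)
      have h4 : (m : ℝ) * b 0 * (2 - 2 * (1 / 2) ^ (j + 1)) =
          (m : ℝ) * b 0 * (2 - 2 * (1 / 2) ^ j) + (m : ℝ) * (b 0 * (1 / 2) ^ j) := by
        rw [pow_succ]; ring
      rw [h4]; linarith
  have hpart : ∀ M, ∑ t ∈ Finset.range M, Pr G r (NC t) ≤
      (T : ℝ) + 1 + Pr G r (NC T) * (2 * ((T₂ : ℝ) + 1)) := by
    intro M
    have hM : M ≤ T + 1 + M * m := by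
      have : M * 1 ≤ M * m := Nat.mul_le_mul_left _ (by omega)
      omega
    calc ∑ t ∈ Finset.range M, Pr G r (NC t)
        ≤ ∑ t ∈ Finset.range (T + 1 + M * m), Pr G r (NC t) :=
          Finset.sum_le_sum_of_subset_of_nonneg (Finset.range_mono hM)
            (fun t _ _ => Pr_nonneg G _ _)
      _ = ∑ t ∈ Finset.range (T + 1), Pr G r (NC t) +
          ∑ t ∈ Finset.range (M * m), Pr G r (NC (T + 1 + t)) := by
          rw [Finset.sum_range_add]
      _ ≤ ∑ t ∈ Finset.range (T + 1), (1 : ℝ) + (m : ℝ) * b 0 * (2 - 2 * (1 / 2) ^ M) := by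
          apply add_le_add (Finset.sum_le_sum (fun t _ => Pr_le_one G _ _)) (hblock M)
      _ ≤ (T : ℝ) + 1 + Pr G r (NC T) * (2 * ((T₂ : ℝ) + 1)) := by
          rw [Finset.sum_const, Finset.card_range, nsmul_eq_mul, mul_one]
          have h3 : (m : ℝ) * b 0 * (2 - 2 * (1 / 2) ^ M) ≤ (m : ℝ) * b 0 * 2 := by
            apply mul_le_mul_of_nonneg_left _ (mul_nonneg (Nat.cast_nonneg _) (hb0 0))
            have : (0 : ℝ) ≤ (1 / 2) ^ M := by positivity
            linarith
          have h4 : b 0 = Pr G r (NC T) := by rw [hb]; simp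
          have h5 : (m : ℝ) = (T₂ : ℝ) + 1 := by rw [hm]; push_cast; ring
          rw [h4, h5] at h3
          rw [h4, h5]
          push_cast
          linarith
  rw [ENNReal.tsum_eq_iSup_nat]
  apply iSup_le
  intro M
  calc ∑ t ∈ Finset.range M, Lw G r (NC t)
      = ENNReal.ofReal (∑ t ∈ Finset.range M, Pr G r (NC t)) := by
        rw [ENNReal.ofReal_sum_of_nonneg (fun t _ => Pr_nonneg G _ _)]
        exact Finset.sum_congr rfl (fun t _ => Lw_eq_ofReal G r _)
    _ ≤ _ := ENNReal.ofReal_le_ofReal (hpart M)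

end Q287.CV
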