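import Pool.Agent.Q287.CV.Base
import Pool.Agent.Q287.CV.Lem

/-!
# Cover cost of graphs with cubic cover time (MP_c99e7e_pr): the statements of the jobs

Final theorem: for every `M > 0` there is `c > 0` such that for every finite connected graph `G` with
`n + 1` vertices and every vertex `r`, `CT G r > M n ^ 3` implies `cc G r > c n ^ 3`.

Conventions. `G` is connected and has at least two vertices (so all degrees are positive, `deg_pos`
in `Lem`). `n = nn G = card V - 1 ≥ 1`, `D_G = DD G` = sum of the degrees, `D_G ≤ 2 n ^ 2`.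
`Rs x y` is the effective resistance, `gr z x v` the Green function of the walk killed at `z`.
`Lw G x` is the law of the path `w : ℕ → V` of simple random walk from `x`, `Pr G x A` the
probability of `A` as a real number. The average (avg) over the neighbours of `x` of `f` always means
`(∑ y ∈ G.neighborFinset x, f y) / (G.degree x : ℝ)`.

THE METHOD used in most jobs about probabilities: a probability `f x = Pr G x A` satisfies a one-step
equation by `S_One` (condition on the first step) off a set of special points, and the bound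
`g x` in terms of Green functions satisfies the corresponding equation or inequality by `S_Res`;
compare them with `max_principle'` of `Lem` (no recurrence needed). `Lem` also has the measurability
of all the events and the elementary lemmas on `cnt`.
-/

set_option autoImplicit false

namespace Q287.CV

open MeasureTheory Finset
open scoped ENNReal

/-! ## Part 1: the random walk -/

/-- **(ONE)** One step of the walk.

Proof. (1) `w 0 = x`: `walk x ω 0 = x` by definition, `Measure.map`.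
(2) First `Pm G` is the law of `(ω 0, ω 1, …)`; the map `ω ↦ (ω 0, fun s => ω (s + 1))` has law
`(Measure.pi (st G ·)) × (Pm G)` (e.g. show that the image of the product measure under
`(a, ω') ↦ (0 ↦ a, s + 1 ↦ ω' s)` is `Pm G`, by `Measure.eq_infinitePi` or the uniqueness on boxes).
By induction on `t`, `walk x ω (t + 1) = walk (ω 0 x) (fun s => ω (s + 1)) t`, i.e.
`sh 1 (walk x ω) = walk (ω 0 x) (shifted ω)`. So, by Fubini (`Measure.prod_apply`),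
`Lw x {w | sh 1 w ∈ B} = ∫ Lw (a x) B d(pi st)(a) = ∫ Lw y B d(st x)(y)`, as the coordinate `a x` has
law `st G x` (`measurePreserving_eval`), and `st G x = ∑_{y ∈ N(x)} (deg x)⁻¹ • dirac y`. -/
def S_One : Prop :=
  ∀ (V : Type) [Fintype V] [DecidableEq V] [MeasurableSpace V] [DiscreteMeasurableSpace V]
    (G : SimpleGraph V) [DecidableRel G.Adj], G.Connected → 2 ≤ Fintype.card V →
    ∀ x : V, (∀ᵐ w ∂(Lw G x), w 0 = x) ∧
      ∀ B : Set (ℕ → V), MeasurableSet B →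
        Pr G x {w | sh 1 w ∈ B} = (∑ y ∈ G.neighborFinset x, Pr G y B) / (G.degree x : ℝ)

/-- **(STOP)** Strong Markov property for a stopping rule which stops at the vertex `z`.

Proof. It is enough to prove, by induction on `t`, for all `x`: if `Det t D`, `w ∈ D → w t = z` then
`Pr x {w | w ∈ D ∧ sh t w ∈ B} = Pr x D * Pr z B`; the statement follows by countable additivity
(the sets `{w | w ∈ D t ∧ sh t w ∈ B}` are measurable and pairwise disjoint).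
`t = 0`: almost surely `w 0 = x`; `D` depends only on `w 0`. If the constant path `fun _ => x` is in
`D`, then `x = z` and almost surely `w ∈ D`, and `sh 0 w = w`, so both sides are `Pr z B`. Otherwise
almost surely `w ∉ D` and both sides are `0`.
`t + 1`: put `D' = {w' | (0 ↦ x, s + 1 ↦ w' s) ∈ D}`. Then `Det t D'`, `w' ∈ D' → w' t = z`, and for
`w` with `w 0 = x`: `w ∈ D ↔ sh 1 w ∈ D'`; `sh (t + 1) w = sh t (sh 1 w)`. By `S_One` and the
induction hypothesis `Pr x {w ∈ D, sh (t+1) w ∈ B} = avg_y Pr y {w' ∈ D', sh t w' ∈ B} =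
avg_y Pr y D' * Pr z B = Pr x D * Pr z B`. -/
def S_Stop : Prop :=
  ∀ (V : Type) [Fintype V] [DecidableEq V] [MeasurableSpace V] [DiscreteMeasurableSpace V]
    (G : SimpleGraph V) [DecidableRel G.Adj], G.Connected → 2 ≤ Fintype.card V →
    ∀ (x z : V) (D : ℕ → Set (ℕ → V)), (∀ t, Det t (D t)) →
      (∀ s t, s ≠ t → Disjoint (D s) (D t)) → (∀ t, ∀ w ∈ D t, w t = z) →
      ∀ B : Set (ℕ → V), MeasurableSet B →
        Pr G x {w | ∃ t, w ∈ D t ∧ sh t w ∈ B} = Pr G x (⋃ t, D t) * Pr G z B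

/-- **(CTL)** Cover time and cover cost in terms of the law of the path.

Proof. By induction on `t`, for all `F`, `S`, `x`:
`ex G t F S x = ∫ F (S ∪ {w 1, …, w t}) d(Lw x)` (`S_One`; for the step, `Lw y`-almost surely
`w 0 = y`, so `insert y S ∪ {w 1, …, w t} = S ∪ {w 0, …, w t}`; the functions under the integral take
finitely many values, and integrals can be written as finite sums
`∑_{S'} F S' * Pr x {w | S ∪ {w 1, …, w t} = S'}`, which makes it a statement on probabilities).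
With `S = {r}`: `S ∪ {w 1, …, w t} = {w 0, …, w t}` almost surely under `Lw r`. With
`F = (if S = univ then 0 else 1)` this gives `Pr r (NC t)`, with `F S = 1 - card (S.erase r) / n`
(for `r ∈ S` this is `card (univ \ S) / n`) it gives `∑_y Pr r {w | ∀ s ≤ t, w s ≠ y} / n`.
Sum over `t` in `ℝ≥0∞` (`ENNReal.tsum_comm`, `tsum_finsetSum`…). -/
def S_Ctl : Prop :=
  ∀ (V : Type) [Fintype V] [DecidableEq V] [MeasurableSpace V] [DiscreteMeasurableSpace V]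
    (G : SimpleGraph V) [DecidableRel G.Adj], G.Connected → 2 ≤ Fintype.card V →
    ∀ r : V, CT G r = ∑' t : ℕ, Lw G r (NC t) ∧
      cc G r = (∑ y : V, ∑' t : ℕ, Lw G r {w | ∀ s ≤ t, w s ≠ y}) / ENNReal.ofReal (nn G)

/-! ## Part 2: resistances and Green functions -/

/-- **(RES)** Algebra of `QQ`, `Rs`, `gr`.

Proof. `L = G.lapMatrix ℝ`, `J` the all ones matrix. `L + J` is symmetric and positive definite
(`xᵀ L x ≥ 0` with equality only for constant `x`, as `G` is connected,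
`SimpleGraph.lapMatrix_toLinearMap₂'`, `SimpleGraph.lapMatrix_mulVec_eq_zero_iff_forall_reachable`;
`xᵀ J x = (∑ x) ^ 2`), so it is invertible and `QQ` is its (symmetric) inverse. As
`(L + J) 1 = card V • 1`, `QQ 1 = (card V)⁻¹ • 1` and so (symmetry) `J QQ = (card V)⁻¹ J`, and
`L QQ = 1 - J QQ = 1 - (card V)⁻¹ J`. The function `f x = gr z x v` differs from
`x ↦ QQ x v - QQ x z` by a constant, and `L` kills constants; so
`(L f) x = 1{x = v} - 1{x = z}`, where `(L f) x = deg x * f x - ∑_{y ∈ N(x)} f y`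
(`SimpleGraph.lapMatrix_mulVec_apply`). The other equations are algebra with the definitions and the
symmetry of `QQ`. The statements on `Hit` follow by summing over `v` with the weights `deg v`
(`∑_v deg v * 1{x = v} = deg x`). -/
def S_Res : Prop :=
  ∀ (V : Type) [Fintype V] [DecidableEq V] (G : SimpleGraph V) [DecidableRel G.Adj],
    G.Connected → 2 ≤ Fintype.card V →
    (∀ x y : V, Rs G x y = Rs G y x) ∧ (∀ x : V, Rs G x x = 0) ∧
    (∀ z x v : V, gr G z x v = gr G z v x) ∧ (∀ z v : V, gr G z z v = 0) ∧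
    (∀ z v : V, gr G z v v = Rs G v z) ∧
    (∀ z x v : V, gr G z x v = (Rs G x z + Rs G v z - Rs G x v) / 2) ∧
    (∀ z v x : V, (G.degree x : ℝ) * gr G z x v - ∑ y ∈ G.neighborFinset x, gr G z y v =
      (if x = v then 1 else 0) - (if x = z then 1 else 0)) ∧
    (∀ z x : V, (G.degree x : ℝ) * Hit G x z - ∑ y ∈ G.neighborFinset x, Hit G y z =
      (G.degree x : ℝ) - (if x = z then DD G else 0)) ∧
    (∀ z : V, Hit G z z = 0) ∧
    (∀ r x y : V, Hit G r y + Hit G y x - Hit G r x = DD G * gr G y r x)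

/-- **(GR)** Inequalities for Green functions and resistances.

Proof. Fix `z ≠ v` and put `f x = gr z x v`; `f z = 0` and `L f = 1_v - 1_z` by `S_Res`.
* `0 ≤ f`: `max_principle` for `-f`, `A = {z}` (`-f` is subharmonic off `z`). `f x ≤ f v`:
  `max_principle` for `f - f v`, `A = {v}` (off `v`, `L f ≤ 0`). (If `z = v`, `f = 0`: by symmetry
  `gr z x z = gr z z x = 0`.)
* `0 < Rs v z` for `v ≠ z`: otherwise `f v = gr z v v = Rs v z = 0`, so `f = 0` and `L f = 0`.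
* triangle inequality: `0 ≤ gr z x v = (Rs x z + Rs v z - Rs x v) / 2`.
* adjacent `x ≠ z`: `f = gr z · x`, `1 = (L f) x = ∑_{w ∈ N(x)} (f x - f w) ≥ f x - f z = Rs x z`, as
  all terms are nonnegative.
* `Rs x y ≤ dist x y` along a shortest path; and `dist x y ≤ n` (a path has at most `card V`
  vertices), `SimpleGraph.dist`. For the last one it is enough to have `Rs x y ≤ n`.
* `1 ≤ deg x * Rs x y` for `x ≠ y`: `f = gr y · x`, `1 = (L f) x = deg x * f x - ∑ f w ≤ deg x * f x`.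
* product inequality: for fixed `x`, `K`, `v` put
  `h r = gr x r v * Rs K x - gr x r K * gr x K v`. `h x = 0`, `h K = 0` (`gr x K K = Rs K x`), and off
  `{x, K}`: `(L h) r = 1{r = v} * Rs K x ≥ 0`; so `-h ≤ 0` by `max_principle` with `A = {x, K}`.
* `DD G ≤ 2 n ^ 2`: `deg v ≤ n`, `card V = n + 1 ≤ 2 n`.
* `Hit x y ≤ DD G * Rs x y`: `gr y x v = gr y v x ≤ gr y x x = Rs x y`; `0 ≤ Hit`. -/
def S_Gr : Prop :=
  ∀ (V : Type) [Fintype V] [DecidableEq V] (G : SimpleGraph V) [DecidableRel G.Adj],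
    G.Connected → 2 ≤ Fintype.card V →
    (∀ z x v : V, 0 ≤ gr G z x v) ∧ (∀ z x v : V, gr G z x v ≤ gr G z v v) ∧
    (∀ x y : V, x ≠ y → 0 < Rs G x y) ∧ (∀ x y : V, 0 ≤ Rs G x y) ∧
    (∀ x y z : V, Rs G x y ≤ Rs G x z + Rs G z y) ∧
    (∀ x y : V, G.Adj x y → Rs G x y ≤ 1) ∧ (∀ x y : V, Rs G x y ≤ (G.dist x y : ℝ)) ∧
    (∀ x y : V, Rs G x y ≤ nn G) ∧ (∀ x y : V, x ≠ y → 1 ≤ (G.degree x : ℝ) * Rs G x y) ∧
    (∀ x r K v : V, gr G x r K * gr G x K v ≤ gr G x r v * Rs G K x) ∧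
    (DD G ≤ 2 * nn G ^ 2) ∧ (∀ x y : V, 0 ≤ Hit G x y) ∧
    (∀ x y : V, Hit G x y ≤ DD G * Rs G x y)

/-! ## Part 3: exact formulas for the walk -/

/-- **(HITP)** Hitting probabilities and escape probabilities.

Proof. First: `f x = Pr x (Hb v z)`. Almost surely `w 0 = x`, so `f z = 0`, `f v = 1` (time `0`), and for
`x ∉ {v, z}` almost surely `w ∈ Hb v z ↔ sh 1 w ∈ Hb v z`, so `f x = avg f` by `S_One`. The function
`gr z x v / Rs v z` has the same properties by `S_Res`; apply `max_principle'` twice with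
`A = {v, z}`.
Second: by `S_One` the left side is `avg_{u ∈ N(x)} Pr u (Hb y x) = avg gr x u y / Rs x y`, and
`∑_{u ∈ N(x)} gr x u y = 1` by `S_Res` at the point `x` (`z = x`, `v = y`, `gr x x y = 0`). -/
def S_Hitp : Prop :=
  ∀ (V : Type) [Fintype V] [DecidableEq V] [MeasurableSpace V] [DiscreteMeasurableSpace V]
    (G : SimpleGraph V) [DecidableRel G.Adj], G.Connected → 2 ≤ Fintype.card V →
    (∀ x v z : V, v ≠ z → Pr G x (Hb v z) = gr G z x v / Rs G v z) ∧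
    (∀ x y : V, x ≠ y →
      Pr G x {w | sh 1 w ∈ Hb y x} = 1 / ((G.degree x : ℝ) * Rs G x y))

/-- **(HITT)** Expected hitting times.

Proof. `a t x = Pr x {w | ∀ s ≤ t, w s ≠ z}`. `a t z = 0`; for `x ≠ z`, `a 0 x = 1` and
`a (t + 1) x = avg (a t)` by `S_One`. `T m x = ∑_{t < m} a t x` satisfies `T m z = 0` and
`T (m + 1) x = 1 + avg (T m)` for `x ≠ z`. By `S_Res`, `Hit x z = 1 + avg Hit` for `x ≠ z` and
`Hit z z = 0`; by induction `T m x ≤ Hit x z`. So the series converges to `T∞ x ≤ Hit x z` with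
`T∞ x = 1 + avg T∞` off `z`, `T∞ z = 0`, and `T∞ = Hit · z` by `max_principle'` (`A = {z}`).
Finally `Lw x A = ENNReal.ofReal (Pr x A)`. -/
def S_Hitt : Prop :=
  ∀ (V : Type) [Fintype V] [DecidableEq V] [MeasurableSpace V] [DiscreteMeasurableSpace V]
    (G : SimpleGraph V) [DecidableRel G.Adj], G.Connected → 2 ≤ Fintype.card V →
    ∀ x z : V, ∑' t : ℕ, Lw G x {w | ∀ s ≤ t, w s ≠ z} = ENNReal.ofReal (Hit G x z)

/-- **(LATE)** The time of visit number `k + 1` to `K` has expectation `Hit r K + k D_G / deg K`;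
Markov's inequality.

Proof. `b k t x = Pr x {w | cnt w K t ≤ k}` (visits at the times `0, …, t - 1`). `b k 0 x = 1`.
By `S_One` (`cnt_sh` with `t = 1`): for `x ≠ K`, `b k (t + 1) x = avg (b k t)`; `b 0 (t + 1) K = 0`;
`b (k + 1) (t + 1) K = avg (b k t)`. Put `B k m x = ∑_{t=1}^{m} b k t x`. Claim:
`B k m x ≤ Hit x K + k * DD / deg K` for all `x`, `k`, by induction on `m`. `m = 0` is clear.
Step: for `x ≠ K`, `B k (m+1) x = ∑_{t=0}^{m} avg (b k t) = 1 + avg (B k m) ≤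
1 + avg (Hit · K) + k DD / deg K = Hit x K + k DD / deg K` (`S_Res`). For `x = K`, `k = 0`:
`B 0 (m+1) K = 0`. For `x = K` and `k + 1`: `B (k+1) (m+1) K = 1 + avg_{y ∈ N(K)} (B k m y) ≤
1 + avg (Hit · K) + k DD / deg K = DD / deg K + k DD / deg K`, as by `S_Res` at `x = z = K`:
`∑_{y ∈ N(K)} Hit y K = DD - deg K`, i.e. `1 + avg (Hit · K) = DD / deg K`.
As `b k t r` is decreasing in `t`, `(T + 1) * b k (T + 1) r ≤ B k (T + 1) r`. -/
def S_Late : Prop :=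
  ∀ (V : Type) [Fintype V] [DecidableEq V] [MeasurableSpace V] [DiscreteMeasurableSpace V]
    (G : SimpleGraph V) [DecidableRel G.Adj], G.Connected → 2 ≤ Fintype.card V →
    ∀ (r K : V) (k T : ℕ), Pr G r (Late K k T) * ((T : ℝ) + 1) ≤
      Hit G r K + (k : ℝ) * (DD G / (G.degree K : ℝ))

/-- **(FEW)** Number of visits to `v` before hitting `K`: geometric.

Proof. `q x = gr K x v / Rs v K` (`= Pr x (Hb v K)`), `p = 1 / (deg v * Rs v K) ∈ (0, 1]`. Put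
`F k x = Pr x (Few v K k)`. By `S_One` (look at time `0`; `cnt_sh` with `t = 1`): `F k K = 1`;
`F k x = avg (F k)` for `x ∉ {v, K}`; `F 0 v = 0`, `F (k + 1) v = avg (F k)`. Claim by induction on
`k`: `F k x = 1 - q x * (1 - p) ^ k`: both sides are harmonic off `A = {v, K}` (`S_Res`), both are `1`
at `K`; at `v`, `k = 0`: both `0`; at `v`, `k + 1`: `avg (F k) = 1 - (1 - p) ^ k * avg_{y ∈ N(v)} (q y)`
and `avg q = 1 - p` by `S_Res` at `x = v` (`deg v * gr K v v - ∑ gr K y v = 1`); `max_principle'`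
twice. Consequences: `(1 - p) ^ k ≤ exp (-k p)` and `q ≤ 1` give the lower bound; and
`(1 - p) ^ k ≥ 1 - k p` (Bernoulli), `q ≤ 1`, and `1 - q x = gr v x K / Rs v K = Pr x (Hb K v)` (by the
formula of `gr` with `Rs` in `S_Res`) give the upper bound. -/
def S_Few : Prop :=
  ∀ (V : Type) [Fintype V] [DecidableEq V] [MeasurableSpace V] [DiscreteMeasurableSpace V]
    (G : SimpleGraph V) [DecidableRel G.Adj], G.Connected → 2 ≤ Fintype.card V →
    ∀ (v K : V), v ≠ K → ∀ (x : V) (k : ℕ),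
      Pr G x (Few v K k) =
        1 - gr G K x v / Rs G v K * (1 - 1 / ((G.degree v : ℝ) * Rs G v K)) ^ k ∧
      1 - Real.exp (-((k : ℝ) / ((G.degree v : ℝ) * Rs G v K))) ≤ Pr G x (Few v K k) ∧
      Pr G x (Few v K k) ≤ gr G v x K / Rs G v K + (k : ℝ) / ((G.degree v : ℝ) * Rs G v K)

/-- **(EXC1)** Few visits to `y` at the time of visit number `k + 1` to `u`: exponential bound.

Proof. `R = Rs u y > 0`, `p = 1 / (deg u * R)`, `g = 1 / (deg y * R)`, both in `(0, 1]` (`S_Gr`).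
Put `F k a x = Pr x (Low u k y a)`. By `S_One` (look at time `0`; `cnt_sh` with `t = 1`):
`F 0 a u ≤ 1`; `F (k+1) a u = avg_{N(u)} (F k a)`; `F k 0 y = 0`;
`F k (a+1) y = avg_{N(y)} (F k a)`; and `F k a x = avg (F k a)` for `x ∉ {u, y}`.
Put `h x = 1 - s / (s + g) * (gr u x y / R)`. It is harmonic off `{u, y}`, `h u = 1`,
`h y = g / (s + g)`; by `S_Res` at `y`: `avg_{N(y)} (gr u · y / R) = 1 - g`, so
`avg_{N(y)} h = 1 - s (1 - g) / (s + g) = (1 + s) h y`; by `S_Res` at `u`: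
`avg_{N(u)} (gr u · y / R) = p`, so `avg_{N(u)} h = 1 - p s / (s + g) =: ρ ∈ [0, 1]`.
Claim: `F k a x ≤ (1 + s) ^ a * ρ ^ k * h x =: G' k a x`, by induction on `k + a`. `G'` is harmonic
off `{u, y}`; `F 0 a u ≤ 1 ≤ G' 0 a u`; `F (k+1) a u = avg_{N(u)} (F k a) ≤ avg_{N(u)} (G' k a) =
G' (k+1) a u`; `F k 0 y = 0 ≤ G' k 0 y`; `F k (a+1) y = avg_{N(y)} (F k a) ≤ avg_{N(y)} (G' k a) =
(1 + s) ^ a ρ ^ k (1 + s) h y = G' k (a+1) y`; now `max_principle'` with `A = {u, y}`. Finally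
`0 ≤ h ≤ 1`. (`s = 0` is the trivial bound `1`; take `s > 0` first.) -/
def S_Exc1 : Prop :=
  ∀ (V : Type) [Fintype V] [DecidableEq V] [MeasurableSpace V] [DiscreteMeasurableSpace V]
    (G : SimpleGraph V) [DecidableRel G.Adj], G.Connected → 2 ≤ Fintype.card V →
    ∀ (u y : V), u ≠ y → ∀ (x : V) (k a : ℕ) (s : ℝ), 0 ≤ s →
      Pr G x (Low u k y a) ≤ (1 + s) ^ a *
        (1 - 1 / ((G.degree u : ℝ) * Rs G u y) * s / (s + 1 / ((G.degree y : ℝ) * Rs G u y))) ^ k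

/-- **(EXC2)** Optimisation of EXC1 (real analysis).

Proof. `α = a g = a / (deg y * R)`, `β = k p = k / (deg u * R)`, `α ≤ β`. If `a = 0`: for every `s > 0`
the bound of `S_Exc1` is `(1 - p s / (s + g)) ^ k ≤ exp (- β s / (s + g))`, which tends to
`exp (-β)` as `s → ∞`. If `a > 0`: take `σ ≥ 0` with `1 + σ = √(β / α)` and `s = σ g`: by
`1 + s ≤ exp s` and `1 - t ≤ exp (-t)` the bound is at most
`exp (a g σ - k p σ / (1 + σ)) = exp (α σ - β σ / (1 + σ))`, and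
`α σ - β σ / (1 + σ) = α (1 + σ) - α - β + β / (1 + σ) = 2 √(α β) - α - β = -(√β - √α) ^ 2`.
Finally `(√β - √α) ^ 2 = (√(k / deg u) - √(a / deg y)) ^ 2 / R`. -/
def S_Exc2 : Prop :=
  ∀ (V : Type) [Fintype V] [DecidableEq V] [MeasurableSpace V] [DiscreteMeasurableSpace V]
    (G : SimpleGraph V) [DecidableRel G.Adj], G.Connected → 2 ≤ Fintype.card V →
    ∀ (u y : V), u ≠ y → ∀ (x : V) (k a : ℕ),
      (a : ℝ) / (G.degree y : ℝ) ≤ (k : ℝ) / (G.degree u : ℝ) →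
      Pr G x (Low u k y a) ≤ Real.exp (-((Real.sqrt ((k : ℝ) / (G.degree u : ℝ)) -
        Real.sqrt ((a : ℝ) / (G.degree y : ℝ))) ^ 2 / Rs G u y))

/-! ## Part 4: chaining -/

/-- **(NET)** Nets in the resistance metric.

Proof. Let `S` be a maximal finite set of vertices with pairwise graph distances `> s` (exists, `V` is
finite). By maximality every `y` has a `v ∈ S` with `dist y v ≤ s` (otherwise `insert y S`), so
`Rs y v ≤ dist y v ≤ s` (`S_Gr`). Put `k = ⌊s / 2⌋₊`. The balls `{z | dist z v ≤ k}`, `v ∈ S`, are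
pairwise disjoint (`2 k ≤ s`). Each has at least `min (k + 1) (card V)` vertices: if some vertex has
distance `> k` from `v`, a shortest path to it has a vertex at distance exactly `i` from `v` for every
`i ≤ k`; otherwise the ball is everything. As `s / 2 ≤ k + 1` and `s / 2 ≤ card V`, each has at least
`s / 2` vertices, and the sum is at most `card V`. -/
def S_Net : Prop :=
  ∀ (V : Type) [Fintype V] [DecidableEq V] (G : SimpleGraph V) [DecidableRel G.Adj],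
    G.Connected → 2 ≤ Fintype.card V →
    ∀ s : ℝ, 0 < s → s ≤ (Fintype.card V : ℝ) →
      ∃ S : Finset V, (∀ y : V, ∃ v ∈ S, Rs G y v ≤ s) ∧
        (S.card : ℝ) * (s / 2) ≤ (Fintype.card V : ℝ)

/-- **(BALL)** Balls in the resistance metric have many vertices.

Proof. `k = ⌊s⌋₊`; the ball of radius `k` in graph distance has at least `min (k + 1) (card V) ≥ s`
vertices (see `S_Net`), and `Rs ≤ dist` (`S_Gr`). -/
def S_Ball : Prop :=
  ∀ (V : Type) [Fintype V] [DecidableEq V] (G : SimpleGraph V) [DecidableRel G.Adj],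
    G.Connected → 2 ≤ Fintype.card V →
    ∀ (v : V) (s : ℝ), 0 ≤ s → s ≤ (Fintype.card V : ℝ) →
      ∃ S : Finset V, (∀ y ∈ S, Rs G y v ≤ s) ∧ s ≤ (S.card : ℝ)

/-- **(CHAIN)** The deterministic chaining step.

Proof. Induction on `j`: for `1 ≤ j ≤ N`, `k j < cnt w (c j) τ`. `j = 1`: if `c 0 = c 1`, then
`k 1 < k 0 = cnt w (c 0) τ`. Otherwise `w ∉ Low (c 0) (k 0) (c 1) (k 1)` for the time `τ` says
`¬ cnt w (c 1) τ ≤ k 1`. Step `j → j + 1` (`1 ≤ j < N`): by `exists_visit` there is `σ < τ` with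
`w σ = c j`, `cnt w (c j) σ = k j`. If `c (j + 1) = c j`: `k (j + 1) < k j < cnt w (c j) τ`.
Otherwise `w ∉ Low (c j) (k j) (c (j+1)) (k (j+1))` at the time `σ` gives
`k (j+1) < cnt w (c (j+1)) σ ≤ cnt w (c (j+1)) τ` (`cnt_mono`). -/
def S_Chain : Prop :=
  ∀ (V : Type) [Fintype V] [DecidableEq V] (w : ℕ → V) (τ N : ℕ) (c : ℕ → V) (k : ℕ → ℕ),
    w τ = c 0 → cnt w (c 0) τ = k 0 →
    (∀ j < N, c j = c (j + 1) → k (j + 1) < k j) →
    (∀ j < N, c j ≠ c (j + 1) → w ∉ Low (c j) (k j) (c (j + 1)) (k (j + 1))) →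
    ∀ j, 1 ≤ j → j ≤ N → k j < cnt w (c j) τ

/-- **(EDGE)** Probability that an edge of the chain fails. Here `θ_j = 1 / 2 + 2 ^ (-(j+1))` and `m` plays
the role of `λ n`.

Proof. `θ_j = 1/2 + (1/2) ^ (j+1)`, `θ_{j+1} = 1/2 + (1/2) ^ (j+2)`, `θ_j - θ_{j+1} = (1/2) ^ (j+2)`,
`1/2 ≤ θ_{j+1}`. `k / deg u ≥ θ_j² m`, `a / deg v ≤ θ_{j+1}² m + 1 / deg v ≤ θ_{j+1}² m + 1`.
`√(θ_{j+1}² m + 1) ≤ θ_{j+1} √m + 1 / √m` (square both sides: the square of the right side is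
`θ² m + 2 θ + 1 / m ≥ θ² m + 1`). So `√(k / deg u) - √(a / deg v) ≥ (1/2)^(j+2) √m - 1 / √m ≥
(1/2) ^ (j + 3) √m`, because `2 ^ (j + 3) ≤ m`. In particular the hypothesis of `S_Exc2` holds and
the probability is at most `exp (-((1/2) ^ (j+3)) ^ 2 m / Rs u v)`, and
`((1/2) ^ (j+3)) ^ 2 = (1/4) ^ j / 64`. -/
def S_Edge : Prop :=
  ∀ (V : Type) [Fintype V] [DecidableEq V] [MeasurableSpace V] [DiscreteMeasurableSpace V]
    (G : SimpleGraph V) [DecidableRel G.Adj], G.Connected → 2 ≤ Fintype.card V →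
    ∀ (x u v : V), u ≠ v → ∀ (m : ℝ) (j : ℕ), (2 : ℝ) ^ (j + 3) ≤ m →
      Pr G x (Low u ⌈(1 / 2 + (1 / 2 : ℝ) ^ (j + 1)) ^ 2 * m * (G.degree u : ℝ)⌉₊ v
        ⌈(1 / 2 + (1 / 2 : ℝ) ^ (j + 2)) ^ 2 * m * (G.degree v : ℝ)⌉₊) ≤
      Real.exp (-((1 / 4 : ℝ) ^ j * m / (64 * Rs G u v)))

/-- **(CHS)** Numerical sum for the chaining.

Proof. `X = lam / (64 D) ≥ 24`. For `j ≥ 1`, `2 ^ j ≥ 2 j`, so `8 ^ j * exp (-2 ^ j X) ≤
8 ^ j * exp (-2 j X) = exp (-j (2 X - log 8)) ≤ exp (-j X) * exp (-j * 21) `, and the sum over `j ≥ 1`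
is at most `exp (-X)`. So the left side is at most `32 / D * (exp (-X / 2) + exp (-X)) ≤
64 / D * exp (-X / 2)` and `X / 2 = lam / (128 D) ≥ lam / (192 D)`. -/
def S_Chs : Prop :=
  ∀ (D lam : ℝ) (J : ℕ), 0 < D → 1536 * D ≤ lam →
    32 / D * Real.exp (-(lam / (128 * D))) +
      ∑ j ∈ Finset.Ico 1 J, 32 * 8 ^ j / D * Real.exp (-(2 ^ j * (lam / (64 * D)))) ≤
    64 / D * Real.exp (-(lam / (192 * D)))

/-- **(CH1)** Chaining: at the time of visit number `⌈λ n deg u⌉ + 1` to `u` all vertices within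
resistance `D n` of `u` are visited, up to a small probability.

Proof. `θ_j = 1 / 2 + (1 / 2) ^ (j + 1)` (`θ_0 = 1`), `m = λ n`, `k_j(v) = ⌈θ_j² m deg v⌉₊`,
`s_j = D n / 8 ^ j`. Let `J` be minimal with `s_J ≤ 1`. So `8 ^ j < D n` for `j < J`, and then
`(2 ^ (j+3)) ^ 3 = 512 * 8 ^ j ≤ 512 D n ≤ λ³ n³ = m³`, so `2 ^ (j + 3) ≤ m`: `S_Edge` can be used for
all `j < J`. Each `Rs u y ≤ D n`.
*Case `J = 0`* (`D n ≤ 1`): the event is contained in the union over `y ≠ u`, `Rs u y ≤ D n ≤ 1`, of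
`Unv u k_0(u) y ⊆ Low u k_0(u) y 0` (if `y = u`, `y` is visited at the time itself), which has
probability at most `exp (-(k_0(u) / deg u) / Rs u y) ≤ exp (-m)` by `S_Exc2`; at most
`card V = n + 1` points `y`.
*Case `J ≥ 1`.* For `1 ≤ j ≤ J` take a net `S_j` for the radius `s_j` (`S_Net`, `s_j ≤ n`), with
`card S_j ≤ 2 (n + 1) / s_j ≤ 4 n / s_j = 4 * 8 ^ j / D` (`n + 1 ≤ 2 n`) and a map `par_j : V → S_j`
with `Rs v (par_j v) ≤ s_j`. For `y` with `Rs u y ≤ D n` put `c_J = par_J y`, `c_j = par_j (c_{j+1})`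
(`j = J-1, …, 1`), `c_0 = u`, `c_{J+1} = y`. `Rs u c_1 ≤ D n + s_J + s_{J-1} + … + s_1 ≤ 2 D n`. Use
`S_Chain` with `N = J + 1`, the numbers `k j = k_j(c_j)` for `j ≤ J`, `k (J + 1) = 0`, at the time `τ`
of visit number `k_0(u) + 1` to `u`: if the chain has no failing edge, `0 < cnt w y τ` and `w` is not
in `Unv u k_0(u) y`. (If `c_j = c_{j+1}`: `k_{j+1}(c) < k_j(c)` because
`(θ_j² - θ_{j+1}²) m ≥ 2^{-(j+2)} m ≥ 1` (`θ_j + θ_{j+1} ≥ 1`), resp. `0 < k_J(c)` at the end.)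
So the event is contained in the union of
(a) `Low u k_0(u) c k_1(c)`, `c ∈ S_1`, `c ≠ u`, `Rs u c ≤ 2 D n`: at most `4 * 8 / D = 32 / D` events
of probability at most `exp (-m / (64 * 2 D n)) = exp (-λ / (128 D))` (`S_Edge`, `j = 0`);
(b) `Low (par_j c) k_j(par_j c) c k_{j+1}(c)`, `1 ≤ j < J`, `c ∈ S_{j+1}`, `par_j c ≠ c`: for each `j`
at most `4 * 8^{j+1} / D = 32 * 8^j / D` events, each of probability at most
`exp (-(1/4)^j m / (64 s_j)) = exp (-2^j λ / (64 D))` (`S_Edge`);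
(c) `Low (par_J y) k_J(par_J y) y 0`, `y ≠ par_J y`: at most `n + 1` events of probability at most
`exp (-(θ_J² m) / s_J) ≤ exp (-m / 4)` (`S_Exc2`).
Sum: `S_Chs`. -/
def S_Ch1 : Prop :=
  ∀ (V : Type) [Fintype V] [DecidableEq V] [MeasurableSpace V] [DiscreteMeasurableSpace V]
    (G : SimpleGraph V) [DecidableRel G.Adj], G.Connected → 2 ≤ Fintype.card V →
    ∀ (x u : V) (D lam : ℝ), 0 < D → D ≤ 1 → 1536 * D ≤ lam → 4096 * D ≤ lam ^ 3 * nn G ^ 2 →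
      Pr G x {w | ∃ y, Rs G u y ≤ D * nn G ∧ w ∈ Unv u ⌈lam * nn G * (G.degree u : ℝ)⌉₊ y} ≤
        64 / D * Real.exp (-(lam / (192 * D))) + (nn G + 1) * Real.exp (-(lam * nn G / 4))

/-- **(GEN)** A general upper bound for the probability of not covering.

Proof. Choose `λ ≥ 1536` with `64 exp (-λ / 192) ≤ η / 2`, and `n₀ ≥ 1` with
`(n + 1) exp (-λ n / 4) ≤ η / 2` for `n ≥ n₀`; `4096 ≤ λ³ n²` holds. `A = 2 λ`. Let
`k = ⌈λ n deg x⌉₊`. `NC T ⊆ Late x k T ∪ {w | ∃ y, w ∈ Unv x k y}`: if `w ∉ Late x k T` there is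
(`exists_visit`) `t ≤ T` with `w t = x`, `cnt w x t = k`, and a vertex `y` not visited up to `T` is
not visited up to `t`. As `Rs ≤ n` (`S_Gr`), `S_Ch1` with `D = 1` bounds the second event by `η`. By
`S_Late` (`Hit x x = 0`), `Pr x (Late x k T) (T + 1) ≤ k DD / deg x ≤ (λ n deg x + 1) DD / deg x ≤
(λ n + 1) DD ≤ 2 λ n DD`. -/
def S_Gen : Prop :=
  ∀ η : ℝ, 0 < η → ∃ A : ℝ, 0 < A ∧ ∃ n₀ : ℕ,
    ∀ (V : Type) [Fintype V] [DecidableEq V] [MeasurableSpace V] [DiscreteMeasurableSpace V]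
      (G : SimpleGraph V) [DecidableRel G.Adj], G.Connected → 2 ≤ Fintype.card V →
      (n₀ : ℝ) ≤ nn G → ∀ (x : V) (T : ℕ),
        Pr G x (NC T) ≤ η + A * DD G * nn G / ((T : ℝ) + 1)

/-! ## Part 5: the geometry of the resistance metric when all hitting times are small -/

/-- **(NEARK)** `K` is a farthest vertex from `r`.

Proof. By `S_Res`, `Hit r K = ∑_v deg v (Rs r K + Rs v K - Rs r v) / 2 ≥ ∑_v deg v Rs v K / 2`, so
`∑_v deg v Rs v K ≤ 2 δ n³`. For `x` with `κ n ≤ Rs x K`: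
`Hit K x = ∑_v deg v (Rs K x + Rs v x - Rs K v) / 2 ≥ ∑_v deg v (Rs K x - Rs K v) ≥
DD κ n - 2 δ n³ ≥ (ε κ - 2 δ) n³ ≥ ε κ n³ / 2` (`Rs v x ≥ Rs K x - Rs K v`). Multiply the product
inequality `gr x r K * gr x K v ≤ gr x r v * Rs K x` of `S_Gr` by `deg v` and sum over `v`:
`gr x r K * Hit K x ≤ Hit r x * Rs K x`. So
`gr x r K * (ε κ n³ / 2) ≤ δ n³ Rs K x`. -/
def S_NearK : Prop :=
  ∀ (V : Type) [Fintype V] [DecidableEq V] (G : SimpleGraph V) [DecidableRel G.Adj],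
    G.Connected → 2 ≤ Fintype.card V →
    ∀ (r K : V) (ε δ κ : ℝ), 0 < ε → 0 < κ → 0 ≤ δ → 4 * δ ≤ ε * κ → ε * nn G ^ 2 ≤ DD G →
      (∀ x, Rs G r x ≤ Rs G r K) → (∀ x, Hit G r x ≤ δ * nn G ^ 3) →
      ∀ x, κ * nn G ≤ Rs G x K → gr G x r K ≤ 2 * δ / (ε * κ) * Rs G K x

/-- **(PAIR)** Two vertices on the way from `r` to `K`.

Proof. We may assume `x ≠ y` (if `x = y` the first alternative holds: `gr y y K = 0`).
By `S_Res`, `gr y r x + gr x r y = Rs x y`, so one of them is at least `Rs x y / 2 > 0`. If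
`Rs x y / 2 ≤ gr y r x`: the product inequality of `S_Gr` (with `x := y`, `K := x`, `v := K`) is
`gr y r x * gr y x K ≤ gr y r K * Rs x y`, so `gr y x K ≤ 2 gr y r K ≤ 2 e * Rs K y`. In the other
case exchange `x` and `y`. -/
def S_Pair : Prop :=
  ∀ (V : Type) [Fintype V] [DecidableEq V] (G : SimpleGraph V) [DecidableRel G.Adj],
    G.Connected → 2 ≤ Fintype.card V →
    ∀ (r K x y : V) (e : ℝ), gr G x r K ≤ e * Rs G K x → gr G y r K ≤ e * Rs G K y → 0 ≤ e →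
      gr G y x K ≤ 2 * e * Rs G K y ∨ gr G x y K ≤ 2 * e * Rs G K x

/-- **(GEO)** The vertices far from `K` are close to a line `z 0 = r, z 1, …, z N`.

Proof. Write `a(x) = Rs x K`, `R₀ = a(r) = Rs r K`, `n = nn G`; `Rs ≤ n`. Call `x` *far* if
`κ n / 2 ≤ a(x)`. Facts for far points:
(F1) `gr x r K ≤ e a(x)`, i.e. `Rs r x + a(x) - R₀ ≤ 2 e a(x) ≤ 2 e n` (`S_Res` formula). So
`Rs r x ≤ R₀ - a(x) + 2 e n` and `a(x) ≤ R₀ + 2 e n`; and `R₀ - a(x) ≤ Rs r x` (triangle).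
(F2) for far `x`, `y`, by `S_Pair`: `Rs x y + a(y) - a(x) ≤ 4 e a(y) ≤ 4 e n` or
`Rs x y + a(x) - a(y) ≤ 4 e n`; in both cases `Rs x y ≤ |a(x) - a(y)| + 4 e n`.
If no `y` has `κ n ≤ a(y)`, the first alternative. Otherwise `κ n ≤ R₀ + 2 e n`, so
`R₀ ≥ κ n - κ n / 4` and `r` is far (`e ≤ κ / 8`). Put `N = ⌊(R₀ - κ n) / (ρ n)⌋₊`; so `N ρ ≤ 1`, and
`R₀ - i ρ n ≥ κ n` for `1 ≤ i ≤ N`. `z 0 = r`. For `1 ≤ i ≤ N` let `z i` be the first vertex on a path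
from `r` to `K` with `a ≤ R₀ - i ρ n`; as `a` changes by at most `1` along an edge (`S_Gr`),
`R₀ - i ρ n - 1 ≤ a(z i) ≤ R₀ - i ρ n` (also for `i = 0`), and `a(z i) ≥ κ n - 1 ≥ κ n / 2`: far.
For `k < i ≤ N`: `(i-k) ρ n - 1 ≤ a(z k) - a(z i) ≤ (i-k) ρ n + 1`, and `1 ≤ ρ n / 2`; so
`a(z k) - a(z i) ≥ (i-k) ρ n / 2 > 0` and `z k ≠ z i`. By the triangle inequality
`(i-k) ρ n / 2 ≤ Rs (z k) (z i)`, and by (F2), `Rs ≤ (i-k) ρ n + 1 + 4 e n ≤ 2 (i-k) ρ n`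
(`4 e ≤ ρ / 2`).
* `gr (z i) r K ≤ e Rs (z i) K`: (F1).
* `gr (z i) (z k) K ≤ 2 e Rs (z i) K` (`k < i`): `S_Pair` with `x = z k`, `y = z i`; the other
  alternative `gr (z k) (z i) K ≤ 2 e a(z k)` says `Rs (z i) (z k) ≤ a(z i) - a(z k) + 4 e n ≤
  -((i-k) ρ n - 1) + 4 e n ≤ 0`, impossible.
* `gr (z i) r (z j) ≤ (2 e / ρ) Rs (z j) (z i)` (`i < j`): product inequality
  `gr (z i) r (z j) * gr (z i) (z j) K ≤ gr (z i) r K * Rs (z j) (z i) ≤ e n Rs (z j) (z i)` and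
  `gr (z i) (z j) K = (Rs (z j) (z i) + a(z i) - a(z j)) / 2 ≥ a(z i) - a(z j) ≥ ρ n / 2`.
* every `y` with `κ n ≤ a(y)`: `i = ⌊(R₀ - a(y)) / (ρ n)⌋₊ ≤ N`, `|a(y) - a(z i)| ≤ ρ n + 1`
  (if `a(y) ≤ R₀`: `R₀ - a(y) ∈ [i ρ n, (i+1) ρ n)`; if `a(y) > R₀`: `i = 0`,
  `0 < a(y) - R₀ ≤ 2 e n`), so by (F2) `Rs y (z i) ≤ ρ n + 1 + 4 e n ≤ 2 ρ n`. -/
def S_Geo : Prop :=
  ∀ (V : Type) [Fintype V] [DecidableEq V] (G : SimpleGraph V) [DecidableRel G.Adj],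
    G.Connected → 2 ≤ Fintype.card V →
    ∀ (r K : V) (κ ρ e : ℝ), 0 < κ → 0 < ρ → 0 ≤ e → 8 * e ≤ ρ → 8 * e ≤ κ →
      2 ≤ ρ * nn G → 4 ≤ κ * nn G →
      (∀ x, κ / 2 * nn G ≤ Rs G x K → gr G x r K ≤ e * Rs G K x) →
      (∀ y, Rs G y K < κ * nn G) ∨
      ∃ (N : ℕ) (z : ℕ → V), z 0 = r ∧ (N : ℝ) * ρ ≤ 1 ∧
        (∀ i ≤ N, κ / 2 * nn G ≤ Rs G (z i) K) ∧
        (∀ k i, k < i → i ≤ N → (((i : ℝ) - k) / 2) * (ρ * nn G) ≤ Rs G (z k) (z i) ∧
          Rs G (z k) (z i) ≤ 2 * ((i : ℝ) - k) * (ρ * nn G)) ∧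
        (∀ i j, i < j → j ≤ N → gr G (z i) r (z j) ≤ 2 * e / ρ * Rs G (z j) (z i)) ∧
        (∀ i ≤ N, gr G (z i) r K ≤ e * Rs G K (z i)) ∧
        (∀ k i, k < i → i ≤ N → gr G (z i) (z k) K ≤ 2 * e * Rs G K (z i)) ∧
        (∀ y, κ * nn G ≤ Rs G y K → ∃ i ≤ N, Rs G y (z i) ≤ 2 * ρ * nn G)

/-! ## Part 6: the vertices on the line are visited often before `K` -/

/-- **(F2)** From `a`: few visits to `a` before `K` and a visit to `b` before `K`.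

Proof. `Φ = gr a b K / Rs a K + k / (deg a * Rs a K)`, so `Pr b (Few a K j) ≤ Pr b (Few a K k) ≤ Φ` for
`j ≤ k` (`S_Few`). `E = 1 / (deg a * Rs a b)`. Put `g j x = Pr x (Few a K j ∩ Hb b K)`. By `S_One`
(look at time `0`): `g j K = 0`; `g j b ≤ Pr b (Few a K j) ≤ Φ` (`j ≤ k`); `g 0 a = 0`,
`g (j+1) a = avg_{N(a)} (g j)`; `g j x = avg (g j)` for `x ∉ {a, b, K}`. Claim for `j ≤ k`:
`g j x ≤ Φ (gr a x b / Rs b a + j E)` by induction on `j`; the right side is harmonic off `{a, b}`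
(`S_Res`), so by `max_principle'` with `A = {a, b, K}` it is enough to look at `x ∈ A`: `K`: the right
side is `≥ 0`; `b`: it is `≥ Φ`; `a`, `j = 0`: `g 0 a = 0`; `a`, `j + 1`: `g (j+1) a =
avg_{N(a)} (g j) ≤ Φ (avg_{N(a)} (gr a · b) / Rs b a + j E) = Φ (E + j E)`, because
`∑_{y ∈ N(a)} gr a y b = 1` (`S_Res` at the point `a`). At `x = a`, `j = k`: `gr a a b = 0`. -/
def S_F2 : Prop :=
  ∀ (V : Type) [Fintype V] [DecidableEq V] [MeasurableSpace V] [DiscreteMeasurableSpace V]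
    (G : SimpleGraph V) [DecidableRel G.Adj], G.Connected → 2 ≤ Fintype.card V →
    ∀ (a b K : V), a ≠ b → a ≠ K → b ≠ K → ∀ k : ℕ,
      Pr G a (Few a K k ∩ Hb b K) ≤ (k : ℝ) / ((G.degree a : ℝ) * Rs G a b) *
        (gr G a b K / Rs G a K + (k : ℝ) / ((G.degree a : ℝ) * Rs G a K))

/-- The last failing index is `i` (`k j` = threshold for the number of visits to `z j`). -/
def Last {V : Type} [DecidableEq V] (z : ℕ → V) (k : ℕ → ℕ) (K : V) (N i : ℕ) : Set (ℕ → V) :=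
  {w | w ∈ Few (z i) K (k i) ∧ ∀ j, i < j → j ≤ N → w ∉ Few (z j) K (k j)}

/-- **(LASTU)** Upper bound for the probability of the last failing index.

Proof. Let `E` be the event that `z i` is hit before `K` and before all `z j`, `i < j ≤ N`:
`E = {w | ∃ t, Fst w (z i) t ∧ (∀ s ≤ t, w s ≠ K) ∧ ∀ j, i < j → j ≤ N → ∀ s ≤ t, w s ≠ z j}`.
Let `w ∈ Last i`; so `K` is hit, for the first time at `t_K`. If `w ∉ E`, then `w ∈ Hb K (z i)` (this is
the case if `z i` is not visited before `t_K`) or, with `t < t_K` the first hitting time of `z i`, some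
`z j`, `i < j ≤ N`, is visited before `t`: `w ∈ Hb (z j) (z i)`.
If `w ∈ E ∩ Last i` and `t` is as in `E`, then `sh t w ∈ Last i`: before time `t`
there is no visit to `K`, `z i` or `z j`, so the first hitting time of `K` by `w` is `t +` the one by
`sh t w` and the numbers of visits before it to `z i`, `z j` are the same (`cnt_sh`). Now `S_Stop` with
`D t = {w | Fst w (z i) t ∧ …}` and `B = Last i`: `Pr (E ∩ Last i) ≤ Pr r E * Pr (z i) (Last i)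
≤ Pr (z i) (Last i)`. -/
def S_LastU : Prop :=
  ∀ (V : Type) [Fintype V] [DecidableEq V] [MeasurableSpace V] [DiscreteMeasurableSpace V]
    (G : SimpleGraph V) [DecidableRel G.Adj], G.Connected → 2 ≤ Fintype.card V →
    ∀ (r K : V) (N : ℕ) (z : ℕ → V) (k : ℕ → ℕ) (i : ℕ), i ≤ N →
      (∀ j ≤ N, z j ≠ K) → (∀ j, i < j → j ≤ N → z j ≠ z i) →
      Pr G r (Last z k K N i) ≤ Pr G (z i) (Last z k K N i) + Pr G r (Hb K (z i)) +
        ∑ j ∈ Finset.Ioc i N, Pr G r (Hb (z j) (z i))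

/-- **(LASTL)** Lower bound for the probability that the last failing index is `i` and that `l < i`
fails, too.

Proof. Let `E = {w | ∃ t, w ∈ D t}`, `D t = {w | Fst w (z i) t ∧ (∀ s ≤ t, w s ≠ K) ∧
(∀ j, i < j → j ≤ N → ∀ s ≤ t, w s ≠ z j) ∧ cnt w (z l) t ≤ k l}`. Let
`B = Last i \ Hb (z l) K`. If `w ∈ D t` and `sh t w ∈ B`, then `w ∈ Last i ∩ Few (z l) K (k l)`: there
is no visit to `K`, `z i`, `z j` before `t`, so the numbers of visits to `z i`, `z j` before the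
first hitting time of `K` are those of `sh t w`; and after `t` there is no visit to `z l` before `K`, so
the number of visits to `z l` is `cnt w (z l) t ≤ k l` (`cnt_sh`). By `S_Stop`,
`Pr r (Last i ∩ Few (z l)) ≥ Pr r E * Pr (z i) B` and
`Pr (z i) B ≥ Pr (z i) (Last i) - Pr (z i) (Few (z i) K (k i) ∩ Hb (z l) K)`. And
`Few (z l) (z i) (k l) ⊆ E ∪ Hb K (z i) ∪ ⋃_{i < j ≤ N} Hb (z j) (z i)` (by the definition of `Few`, with
`t` the first hitting time of `z i`), so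
`Pr r E ≥ Pr r (Few (z l) (z i) (k l)) - Pr r (Hb K (z i)) - ∑_j Pr r (Hb (z j) (z i))`. The result is
`P * B'` with `P = Pr r E ∈ [0, 1]`, `B' = Pr (z i) B ∈ [0, 1]`. We state it in the form with `P`,
`B'` unspecified. -/
def S_LastL : Prop :=
  ∀ (V : Type) [Fintype V] [DecidableEq V] [MeasurableSpace V] [DiscreteMeasurableSpace V]
    (G : SimpleGraph V) [DecidableRel G.Adj], G.Connected → 2 ≤ Fintype.card V →
    ∀ (r K : V) (N : ℕ) (z : ℕ → V) (k : ℕ → ℕ) (l i : ℕ), l < i → i ≤ N →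
      (∀ j ≤ N, z j ≠ K) → (∀ j, i < j → j ≤ N → z j ≠ z i) → z l ≠ z i →
      ∃ P B : ℝ, 0 ≤ P ∧ P ≤ 1 ∧ 0 ≤ B ∧ B ≤ 1 ∧
        Pr G r (Few (z l) (z i) (k l)) - (Pr G r (Hb K (z i)) +
          ∑ j ∈ Finset.Ioc i N, Pr G r (Hb (z j) (z i))) ≤ P ∧
        Pr G (z i) (Last z k K N i) - Pr G (z i) (Few (z i) K (k i) ∩ Hb (z l) K) ≤ B ∧
        P * B ≤ Pr G r (Last z k K N i ∩ Few (z l) K (k l))

/-- **(FARR)** The real arithmetic of the last failing index.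

Proof. Put `C = lam / κ`. For `L0 ≤ l ≤ i ≤ N` hypothesis `hP` gives a lower bound for `P i (i - l)`.
Sum over `i0 ≤ i ≤ N` and `L0 ≤ l ≤ i`:
`∑_i ∑_l [Λ/(4l) q i - 5 Λ² C / l² - (N+1) μ] ≤ ∑_{k ≤ N} ∑_i P i k ≤ (N + 1) * 5 C`.
`∑_{l = L0}^{i} 1/l ≥ log ((i+1) / L0) ≥ log ((i0+1)/L0) =: Lg > 0`;
`∑_{l ≥ L0} 1 / l² ≤ 2 / L0`, so the second terms sum to at most `(N+1) 10 Λ² C / L0 ≤ (N+1) 10 C`;
the third to at most `(N+1)³ μ`. So `(Λ/4) Lg ∑_{i0 ≤ i ≤ N} q i ≤ (N+1) 15 C + (N+1)³ μ`, where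
`N + 1 ≤ 2 / ρ`, `C / ρ = Λ / κ`: `∑ q i ≤ (4 / (Λ Lg)) (30 Λ / κ + 8 μ / ρ³) ≤
(120 / κ + 32 μ / ρ³) / Lg` (`1 ≤ Λ`). (If `N < i0` the left side is `0`.) -/
def S_FarR : Prop :=
  ∀ (N L0 i0 : ℕ) (κ ρ lam μ : ℝ) (q : ℕ → ℝ) (P : ℕ → ℕ → ℝ),
    0 < κ → 0 < ρ → ρ ≤ 1 → ρ ≤ lam → 0 ≤ μ → (N : ℝ) * ρ ≤ 1 →
    (lam / ρ) ^ 2 ≤ (L0 : ℝ) → L0 ≤ i0 → (∀ i ≤ N, 0 ≤ q i) → (∀ i k, 0 ≤ P i k) →
    (∀ k ≤ N, ∑ i ∈ Finset.range (N + 1), P i k ≤ 5 * lam / κ) →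
    (∀ i l, i ≤ N → L0 ≤ l → l ≤ i →
      lam / ρ / (4 * l) * (q i - 20 * (lam / ρ) * lam / (κ * l)) - ((N : ℝ) + 1) * μ ≤
        P i (i - l)) →
    ∑ i ∈ Finset.Icc i0 N, q i ≤
      (120 / κ + 32 * μ / ρ ^ 3) / Real.log (((i0 : ℝ) + 1) / L0)

/-- **(FAR)** With high probability all points of the line are visited often before `K`.

Proof. `n = nn G`, `Λ = λ / ρ ≥ 1`, `k i = ⌈λ n deg (z i)⌉₊`; `λ n ≤ k i / deg (z i) ≤ λ n + 1 ≤ 2 λ n`.
`Few_i = Few (z i) K (k i)`. Note `z i ≠ K`, `z i ≠ z j` (`i ≠ j ≤ N`) because `Rs > 0`. By `S_Hitp` the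
hypotheses say: `Pr r (Hb (z j) (z i)) ≤ μ` (`i < j`), `Pr r (Hb K (z i)) ≤ μ`,
`Pr (z l) (Hb K (z i)) ≤ μ` (`l < i`).
(1) By `S_Few`, `Pr r Few_i ≤ μ + 2 λ n / (κ n / 2) = μ + 4 λ / κ ≤ 5 λ / κ`.
(2) `q i := Pr (z i) (Last i)`. `S_LastU`: `Pr r (Last i) ≤ q i + (N + 1) μ`.
(3) `l < i`, `d = i - l`: by `S_Few` (lower bound) with `Rs (z l) (z i) ≤ 2 d ρ n`:
`Pr r (Few (z l) (z i) (k l)) ≥ 1 - exp (-Λ / (2 d)) ≥ Λ / (4 d)` if `Λ ≤ 2 d` (which holds for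
`d ≥ L0 ≥ Λ² ≥ Λ`; `1 - exp (-x) ≥ x / 2` for `0 ≤ x ≤ 1`).
By `S_F2` with `a = z i`, `b = z l`: `Pr (z i) (Few_i ∩ Hb (z l) K) ≤ (2 λ n / (d ρ n / 2)) *
(μ + 4 λ / κ) ≤ (4 Λ / d) (5 λ / κ) = 20 Λ λ / (κ d)`.
By `S_LastL`, `Pr r (Last i ∩ Few_l) ≥ P B ≥ (Λ/(4d) - (N+1) μ) B ≥ Λ/(4d) B - (N+1) μ ≥
Λ/(4d) (q i - 20 Λ λ / (κ d)) - (N + 1) μ`.
(4) The sets `Last i`, `i ≤ N`, are disjoint, so `∑_{i ≤ N} Pr r (Last i ∩ Few_l) ≤ Pr r Few_l ≤
5 λ / κ`. `S_FarR` with `P i l = Pr r (Last i ∩ Few_l)`: `∑_{i0 ≤ i ≤ N} q i ≤ (…) / log`.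
(5) `⋃_{i ≤ N} Few_i ⊆ ⋃_{i < i0} Few_i ∪ ⋃_{i0 ≤ i ≤ N} Last i` (take the largest failing index), so the
probability is at most `i0 * 5 λ / κ + ∑_{i0 ≤ i ≤ N} (q i + (N+1) μ)`, and
`(N + 1)² μ ≤ 4 μ / ρ²`. (For `i < i0`, `i > N` do not use; the sum is over `i ≤ N`, `i < i0`.) -/
def S_Far : Prop :=
  ∀ (V : Type) [Fintype V] [DecidableEq V] [MeasurableSpace V] [DiscreteMeasurableSpace V]
    (G : SimpleGraph V) [DecidableRel G.Adj], G.Connected → 2 ≤ Fintype.card V →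
    ∀ (r K : V) (N L0 i0 : ℕ) (z : ℕ → V) (κ ρ lam μ : ℝ),
      0 < κ → 0 < ρ → ρ ≤ 1 → ρ ≤ lam → 0 ≤ μ → μ ≤ lam / κ → 1 ≤ lam * nn G →
      (N : ℝ) * ρ ≤ 1 → (lam / ρ) ^ 2 ≤ (L0 : ℝ) → L0 ≤ i0 →
      (∀ i ≤ N, κ / 2 * nn G ≤ Rs G (z i) K) →
      (∀ k i, k < i → i ≤ N → (((i : ℝ) - k) / 2) * (ρ * nn G) ≤ Rs G (z k) (z i) ∧
          Rs G (z k) (z i) ≤ 2 * ((i : ℝ) - k) * (ρ * nn G)) →
      (∀ i j, i < j → j ≤ N → gr G (z i) r (z j) ≤ μ * Rs G (z j) (z i)) →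
      (∀ i ≤ N, gr G (z i) r K ≤ μ * Rs G K (z i)) →
      (∀ k i, k < i → i ≤ N → gr G (z i) (z k) K ≤ μ * Rs G K (z i)) →
      Pr G r {w | ∃ i ≤ N, w ∈ Few (z i) K ⌈lam * nn G * (G.degree (z i) : ℝ)⌉₊} ≤
        5 * i0 * lam / κ + (120 / κ + 32 * μ / ρ ^ 3) / Real.log (((i0 : ℝ) + 1) / L0) +
          4 * μ / ρ ^ 2

/-- **(PARM)** Choice of the parameters.

Proof. For a natural number `m ≥ 3` put `ρ = exp (-m)`, `λ = 1152 m ρ`, `L0 = 1152² m²`,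
`C = ⌈exp (960 / (κ η))⌉₊`, `i0 = L0 * C`. Then `λ / ρ = 1152 m ≥ 3072`, `(λ/ρ)² = L0`,
`log ((i0 + 1) / L0) ≥ log C ≥ 960 / (κ η)`, so `(120 / κ) / log ≤ η / 8`;
`5 i0 λ / κ = 5 * 1152² m² C * 1152 m exp (-m) / κ → 0` as `m → ∞`;
`2 / ρ * (64 / (2 ρ)) * exp (-(λ / (192 * (2 ρ)))) = 64 exp (2 m) exp (-3 m) = 64 exp (-m) → 0`.
Take `m` such that both are at most `η / 8`, and then `μ > 0` so small that `μ ≤ λ / κ`,
`32 μ / ρ³ / log ≤ η / 8`, `4 μ / ρ² ≤ η / 8`. -/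
def S_Parm : Prop :=
  ∀ κ η : ℝ, 0 < κ → 0 < η → ∃ (ρ lam μ : ℝ) (L0 i0 : ℕ),
    0 < ρ ∧ 2 * ρ ≤ 1 ∧ 3072 * ρ ≤ lam ∧ 0 < μ ∧ μ ≤ lam / κ ∧ (lam / ρ) ^ 2 ≤ (L0 : ℝ) ∧
    L0 ≤ i0 ∧
    5 * i0 * lam / κ + (120 / κ + 32 * μ / ρ ^ 3) / Real.log (((i0 : ℝ) + 1) / L0) +
      4 * μ / ρ ^ 2 + 2 / ρ * (64 / (2 * ρ) * Real.exp (-(lam / (192 * (2 * ρ))))) ≤ η

/-! ## Part 7: conclusion -/

/-- **(COV)** If all expected hitting times from `r` are `o(n³)`, the walk covers in `τ n³` steps.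

Proof. Near part parameters: `λ₁ = η τ / 32` (also `≤ 1`, decrease it), then `0 < κ ≤ 1` with
`1536 κ ≤ λ₁` and `64 / κ * exp (-(λ₁ / (192 κ))) ≤ η / 8`. Then `ρ, λ, μ, L0, i0` from `S_Parm` with
`κ` and `η / 8`. Then `δ > 0` with `δ ≤ η τ / 8`, `8 δ ≤ ε κ`, and `e := 4 δ / (ε κ)` satisfies
`8 e ≤ ρ`, `8 e ≤ κ`, `2 e / ρ ≤ μ` (so `e ≤ 2 e ≤ μ`, as `ρ ≤ 1`). Then `n₀` such that for `n ≥ n₀`:
`2 ≤ ρ n`, `4 ≤ κ n`, `1 ≤ λ n`, `1 ≤ λ₁ n`, `4096 * 2 ρ ≤ λ³ n²`, `4096 κ ≤ λ₁³ n²`,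
`(2 / ρ) (n + 1) exp (-λ n / 4) ≤ η / 8`, `(n + 1) exp (-λ₁ n / 4) ≤ η / 8`.
Let `K` maximise `Rs r ·`. `S_NearK` (with `κ / 2`): `κ / 2 * n ≤ Rs x K → gr x r K ≤ e Rs K x`. So
`S_Geo` applies. Let `k_v = ⌈λ n deg v⌉₊`, `k' = ⌈λ₁ n deg K⌉₊`. In the second case of `S_Geo`:
`NC T ⊆ Late K k' T ∪ {∃ i ≤ N, w ∈ Few (z i) K k_{z i}} ∪
⋃_{i ≤ N} {∃ y, Rs (z i) y ≤ 2 ρ n ∧ w ∈ Unv (z i) k_{z i} y} ∪ {∃ y, Rs K y ≤ κ n ∧ w ∈ Unv K k' y}`.
Indeed let `y` be not visited up to time `T` and `w ∉ Late K k' T`; there is `t ≤ T` with `w t = K`,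
`cnt w K t = k'` (`exists_visit`), so if `Rs K y ≤ κ n` we are in the last event. Otherwise there is
`i ≤ N` with `Rs y (z i) ≤ 2 ρ n`. Let `t₁ ≤ T` be the first hitting time of `K`. If
`w ∉ Few (z i) K k`, then `k < cnt w (z i) t₁`, and by `exists_visit` there is `s < t₁` with `w s = z i`,
`cnt w (z i) s = k`, and `y` is not visited up to `s`: `w ∈ Unv (z i) k y`.
In the first case of `S_Geo` only the first and the last event are needed.
Bounds: `S_Late`: `Pr (Late K k' T) τ n³ ≤ δ n³ + (λ₁ n deg K + 1) DD / deg K ≤ δ n³ + 2 λ₁ n * 2 n²`,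
so `Pr (Late) ≤ (δ + 4 λ₁) / τ ≤ η / 4`. `S_Far` (the bound of the first part of `S_Parm`), `S_Ch1` with
`D = 2 ρ` for each `i ≤ N` (`N + 1 ≤ 2 / ρ`; `1536 * 2 ρ ≤ λ`), `S_Ch1` with `D = κ`. Total
`≤ η / 4 + η / 8 + η / 8 + η / 8 + η / 8 ≤ η`. -/
def S_Cov : Prop :=
  ∀ ε η τ : ℝ, 0 < ε → 0 < η → 0 < τ → ∃ δ : ℝ, 0 < δ ∧ ∃ n₀ : ℕ,
    ∀ (V : Type) [Fintype V] [DecidableEq V] [MeasurableSpace V] [DiscreteMeasurableSpace V]
      (G : SimpleGraph V) [DecidableRel G.Adj], G.Connected → 2 ≤ Fintype.card V →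
      (n₀ : ℝ) ≤ nn G → ε * nn G ^ 2 ≤ DD G → ∀ (r : V), (∀ x, Hit G r x ≤ δ * nn G ^ 3) →
      ∀ T : ℕ, τ * nn G ^ 3 ≤ (T : ℝ) + 1 → Pr G r (NC T) ≤ η

/-- **(PT1)** One large expected hitting time gives many.

Proof. By `S_Res`, `S_Gr`: `Hit r x₀ ≤ Hit r y + Hit y x₀` and `Hit y x₀ ≤ DD Rs y x₀ ≤ 2 n² Rs y x₀`.
For `Rs y x₀ ≤ c n / 4` this is `≤ c n³ / 2`, so `Hit r y ≥ c n³ / 2`. By `S_Ball` (`v = x₀`,
`s = c n / 4 ≤ n < card V`) there are at least `c n / 4` such `y`; the other terms are `≥ 0`. -/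
def S_Pt1 : Prop :=
  ∀ (V : Type) [Fintype V] [DecidableEq V] (G : SimpleGraph V) [DecidableRel G.Adj],
    G.Connected → 2 ≤ Fintype.card V →
    ∀ (r x₀ : V) (c : ℝ), 0 ≤ c → c ≤ 4 → c * nn G ^ 3 ≤ Hit G r x₀ →
      c ^ 2 * nn G ^ 4 / 8 ≤ ∑ y : V, Hit G r y

/-- **(CTB)** Expected cover time from the probabilities of not covering.

Proof. `b j = Pr r (NC (T + j (T₂ + 1)))`. `NC (T + (j+1)(T₂+1)) ⊆ NC (T + j (T₂+1)) ∩
{w | sh (T + j (T₂+1) + 1) w ∈ NC T₂}`. Markov property at the fixed time `t' = t + 1`,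
`t = T + j (T₂ + 1)`: for each vertex `z` apply `S_Stop` with `D t' = {w | w ∈ NC t ∧ w t' = z}`,
`D s = ∅` for `s ≠ t'`, `B = NC T₂`, and sum over `z`: the probability is
`∑_z Pr r (NC t ∩ {w t' = z}) Pr z (NC T₂) ≤ Pr r (NC t) / 2`. So `b (j+1) ≤ b j / 2` and
`b j ≤ b 0 / 2 ^ j`. `Lw r (NC t)` is decreasing in `t` and `≤ 1`: the sum over `t ≤ T` is at most
`T + 1`, the sum over `T + j (T₂+1) < t ≤ T + (j+1)(T₂+1)` is at most `(T₂+1) b j`; total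
`(T + 1) + (T₂ + 1) * 2 b 0`. -/
def S_Ctb : Prop :=
  ∀ (V : Type) [Fintype V] [DecidableEq V] [MeasurableSpace V] [DiscreteMeasurableSpace V]
    (G : SimpleGraph V) [DecidableRel G.Adj], G.Connected → 2 ≤ Fintype.card V →
    ∀ (r : V) (T T₂ : ℕ), (∀ x, Pr G x (NC T₂) ≤ 1 / 2) →
      ∑' t : ℕ, Lw G r (NC t) ≤
        ENNReal.ofReal ((T : ℝ) + 1 + Pr G r (NC T) * (2 * ((T₂ : ℝ) + 1)))

/-- **(FIN)** The final statement (assembled by helper287). -/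
def S_Fin : Prop :=
  ∀ M : ℝ, 0 < M → ∃ c : ℝ, 0 < c ∧
    ∀ (V : Type) [Fintype V] [DecidableEq V] (G : SimpleGraph V) [DecidableRel G.Adj],
      G.Connected → ∀ r : V,
        ENNReal.ofReal (M * ((Fintype.card V : ℝ) - 1) ^ 3) < CT G r →
        ENNReal.ofReal (c * ((Fintype.card V : ℝ) - 1) ^ 3) < cc G r

end Q287.CV
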